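import Mathlib

set_option autoImplicit false
open Finset

namespace Pool.Agent.H.MP_df6699_an

noncomputable def kap (c : ℝ) (f : ℕ → ℂ) : ℕ → ℂ
  | 0 => f 0
  | k + 1 => f (k + 1) + c * kap c f k

def sh (g : ℕ → ℂ) : ℕ → ℂ
  | 0 => 0
  | k + 1 => g k

noncomputable def M (c : ℝ) (a : ℂ) (f : ℕ → ℂ) : ℕ → ℂ :=
  fun k => kap c f k - a * sh (kap c f) k

noncomputable def q (c : ℝ) : List ℂ → ℕ → ℂ
  | [] => fun k => if k = 0 then 1 else 0
  | a :: l => M c a (q c l)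

noncomputable def E (f : ℕ → ℂ) (h : ℕ) (y : ℂ) : ℂ := ∑ j ∈ range (h + 1), f j * y ^ j

noncomputable def N2 (R : ℝ) (f : ℕ → ℂ) (h : ℕ) : ℝ := ∑ k ∈ range h, ‖f k‖ ^ 2 * R ^ k

noncomputable def Q (c : ℝ) (l : List ℂ) (y : ℂ) : ℂ :=
  (l.map fun a => (1 - a * y) / (1 - c * y)).prod

lemma kap_eq (c : ℝ) (f : ℕ → ℂ) (k : ℕ) : f k = kap c f k - c * sh (kap c f) k := by
  cases k <;> simp [kap, sh]

lemma E_kap (c : ℝ) (f : ℕ → ℂ) (y : ℂ) (h : ℕ) :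
    (1 - c * y) * E (kap c f) h y = E f h y - c * kap c f h * y ^ (h + 1) := by
  induction h with
  | zero => simp [E, kap]; ring
  | succ h ih =>
    unfold E at *
    rw [sum_range_succ _ (h + 1), sum_range_succ (fun j => f j * y ^ j) (h + 1), mul_add, ih]
    simp only [kap]; ring

lemma E_M' (c : ℝ) (a : ℂ) (f : ℕ → ℂ) (y : ℂ) (h : ℕ) :
    E (M c a f) h y = (1 - a * y) * E (kap c f) h y + a * kap c f h * y ^ (h + 1) := by
  induction h with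
  | zero => simp [E, M, sh]; ring
  | succ h ih =>
    unfold E at *
    rw [sum_range_succ _ (h + 1), sum_range_succ (fun j => kap c f j * y ^ j) (h + 1), ih]
    simp only [M, sh]; ring

lemma E_M (c : ℝ) (a : ℂ) (f : ℕ → ℂ) (y : ℂ) (h : ℕ) :
    (1 - c * y) * E (M c a f) h y =
      (1 - a * y) * E f h y + (a - c) * kap c f h * y ^ (h + 1) := by
  have := E_kap c f y h
  rw [E_M']
  linear_combination (1 - a * y) * this

lemma ident (η : ℝ) (x y : ℂ) :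
    (1 - η) * ‖x - y‖ ^ 2 = ‖x - ((1 - η : ℝ) : ℂ) * y‖ ^ 2 - η * ‖x‖ ^ 2 + (1 - η) * η * ‖y‖ ^ 2 := by
  simp only [Complex.sq_norm, Complex.normSq_apply, Complex.sub_re, Complex.sub_im, Complex.mul_re,
    Complex.mul_im, Complex.ofReal_re, Complex.ofReal_im]
  ring

lemma term_le {η θ : ℝ} (hθ : 0 < θ) (hη : η = θ ^ 2) (h1 : η ≤ 1 / 10) (a x y : ℂ)
    (ha : ‖a - 1‖ ≤ θ * η) :
    ‖x - a * y‖ ^ 2 ≤ (1 + 10 * η) * ((1 - η) * ‖x - y‖ ^ 2) + (η ^ 3 + η ^ 2 / 8) * ‖y‖ ^ 2 := by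
  have hη0 : 0 < η := by rw [hη]; positivity
  have e : x - a * y = (x - y) - (a - 1) * y := by ring
  have t1 : ‖x - a * y‖ ≤ ‖x - y‖ + θ * η * ‖y‖ := by
    rw [e]
    refine (norm_sub_le _ _).trans ?_
    rw [norm_mul]
    gcongr
  have t2 : ‖x - a * y‖ ^ 2 ≤ (‖x - y‖ + θ * η * ‖y‖) ^ 2 := by gcongr
  set d := ‖x - y‖
  set b := ‖y‖
  have t3 : 2 * d * (θ * η * b) ≤ 8 * η * d ^ 2 + η ^ 2 / 8 * b ^ 2 := by
    have : 0 ≤ (8 * θ * d - η * b) ^ 2 / 8 := by positivity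
    have e2 : (8 * θ * d - η * b) ^ 2 / 8 =
      8 * η * d ^ 2 + η ^ 2 / 8 * b ^ 2 - 2 * d * (θ * η * b) := by rw [hη]; ring
    linarith
  have t4 : (θ * η * b) ^ 2 = η ^ 3 * b ^ 2 := by rw [hη]; ring
  have t5 : (1 + 8 * η) * d ^ 2 ≤ (1 + 10 * η) * ((1 - η) * d ^ 2) := by
    have : 0 ≤ η * (1 - 10 * η) * d ^ 2 := by
      have : 0 ≤ 1 - 10 * η := by linarith
      positivity
    nlinarith
  nlinarith

lemma sh_sum (R : ℝ) (hR : 0 ≤ R) (g : ℕ → ℂ) (h : ℕ) : N2 R (sh g) h ≤ R * N2 R g h := by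
  cases h with
  | zero => simp [N2]
  | succ h =>
    unfold N2
    rw [sum_range_succ', sum_range_succ, mul_add, mul_sum]
    simp only [sh, norm_zero]
    have : 0 ≤ R * (‖g h‖ ^ 2 * R ^ h) := by positivity
    have e : ∑ k ∈ range h, ‖g k‖ ^ 2 * R ^ (k + 1) = ∑ k ∈ range h, R * (‖g k‖ ^ 2 * R ^ k) :=
      sum_congr rfl fun k _ => by ring
    rw [e]; linarith

lemma N2_nonneg {R : ℝ} (hR : 0 ≤ R) (g : ℕ → ℂ) (h : ℕ) : 0 ≤ N2 R g h :=
  sum_nonneg fun k _ => by positivity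

lemma diff_sum (η R : ℝ) (f : ℕ → ℂ) (h : ℕ) :
    ∑ k ∈ range h, (1 - η) * ‖kap (1 - η) f k - sh (kap (1 - η) f) k‖ ^ 2 * R ^ k =
      N2 R f h - η * N2 R (kap (1 - η) f) h + (1 - η) * η * N2 R (sh (kap (1 - η) f)) h := by
  unfold N2
  rw [mul_sum, mul_sum, ← sum_sub_distrib, ← sum_add_distrib]
  refine sum_congr rfl fun k _ => ?_
  rw [ident, ← kap_eq]; ring

lemma N2_kap {η : ℝ} (h0 : 0 < η) (h1 : η ≤ 1 / 10) (f : ℕ → ℂ) (h : ℕ) :
    η ^ 2 / 2 * N2 (1 + η / 2) (kap (1 - η) f) h ≤ N2 (1 + η / 2) f h := by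
  have e := diff_sum η (1 + η / 2) f h
  have p : 0 ≤ ∑ k ∈ range h,
      (1 - η) * ‖kap (1 - η) f k - sh (kap (1 - η) f) k‖ ^ 2 * (1 + η / 2) ^ k :=
    sum_nonneg fun k _ => by
      have : 0 ≤ 1 - η := by linarith
      positivity
  have s := sh_sum (1 + η / 2) (by linarith) (kap (1 - η) f) h
  have g := N2_nonneg (by linarith : 0 ≤ 1 + η / 2) (kap (1 - η) f) h
  set Γ := N2 (1 + η / 2) (kap (1 - η) f) h
  have : (1 - η) * η * N2 (1 + η / 2) (sh (kap (1 - η) f)) h ≤ (1 - η) * η * ((1 + η / 2) * Γ) := by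
    have : 0 ≤ 1 - η := by linarith
    gcongr
  have : 0 ≤ η ^ 3 * Γ := by positivity
  nlinarith

lemma N2_M {η θ : ℝ} (hθ : 0 < θ) (hη : η = θ ^ 2) (h1 : η ≤ 1 / 10) (a : ℂ)
    (ha : ‖a - 1‖ ≤ θ * η) (f : ℕ → ℂ) (h : ℕ) :
    N2 (1 + η / 2) (M (1 - η) a f) h ≤ (1 + 10 * η) * N2 (1 + η / 2) f h := by
  have h0 : 0 < η := by rw [hη]; positivity
  have e := diff_sum η (1 + η / 2) f h
  have s := sh_sum (1 + η / 2) (by linarith) (kap (1 - η) f) h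
  have g := N2_nonneg (by linarith : 0 ≤ 1 + η / 2) (kap (1 - η) f) h
  have t : N2 (1 + η / 2) (M (1 - η) a f) h ≤ (1 + 10 * η) * (∑ k ∈ range h,
      (1 - η) * ‖kap (1 - η) f k - sh (kap (1 - η) f) k‖ ^ 2 * (1 + η / 2) ^ k) +
      (η ^ 3 + η ^ 2 / 8) * N2 (1 + η / 2) (sh (kap (1 - η) f)) h := by
    unfold N2
    rw [mul_sum, mul_sum, ← sum_add_distrib]
    refine sum_le_sum fun k _ => ?_
    have := term_le hθ hη h1 a (kap (1 - η) f k) (sh (kap (1 - η) f) k) ha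
    have p : 0 ≤ (1 + η / 2) ^ k := by positivity
    have := mul_le_mul_of_nonneg_right this p
    unfold M
    linarith
  rw [e] at t
  set Γ := N2 (1 + η / 2) (kap (1 - η) f) h
  set S := N2 (1 + η / 2) (sh (kap (1 - η) f)) h
  have u : ((1 + 10 * η) * ((1 - η) * η) + (η ^ 3 + η ^ 2 / 8)) * S ≤
      ((1 + 10 * η) * ((1 - η) * η) + (η ^ 3 + η ^ 2 / 8)) * ((1 + η / 2) * Γ) := by
    have : 0 ≤ 1 - η := by linarith
    gcongr
  have w : ((1 + 10 * η) * ((1 - η) * η) + (η ^ 3 + η ^ 2 / 8)) * (1 + η / 2) ≤ (1 + 10 * η) * η := by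
    have : 0 ≤ η ^ 2 := by positivity
    have : 0 ≤ η ^ 3 := by positivity
    have : 0 ≤ η ^ 4 := by positivity
    have : η ^ 3 ≤ η ^ 2 / 10 := by nlinarith
    have : η ^ 4 ≤ η ^ 2 / 100 := by nlinarith
    nlinarith
  have := mul_le_mul_of_nonneg_right w g
  nlinarith

lemma kap_pt {η : ℝ} (h0 : 0 < η) (h1 : η ≤ 1 / 10) (f : ℕ → ℂ) (k : ℕ) :
    η * ‖kap (1 - η) f k‖ ^ 2 ≤ N2 (1 + η / 2) f (k + 1) := by
  have pw : ∀ k, ‖f k‖ ^ 2 ≤ ‖f k‖ ^ 2 * (1 + η / 2) ^ k := fun k =>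
    le_mul_of_one_le_right (by positivity) (one_le_pow₀ (by linarith))
  induction k with
  | zero =>
    simp only [kap, N2, zero_add, range_one, sum_singleton, pow_zero, mul_one]
    have : 0 ≤ ‖f 0‖ ^ 2 := by positivity
    nlinarith
  | succ k ih =>
    unfold N2 at *
    rw [sum_range_succ]
    simp only [kap]
    have t1 : ‖f (k + 1) + ((1 - η : ℝ) : ℂ) * kap (1 - η) f k‖ ≤
        ‖f (k + 1)‖ + (1 - η) * ‖kap (1 - η) f k‖ := by
      refine (norm_add_le _ _).trans ?_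
      rw [norm_mul, Complex.norm_real, Real.norm_of_nonneg (by linarith)]
    have t2 : ‖f (k + 1) + ((1 - η : ℝ) : ℂ) * kap (1 - η) f k‖ ^ 2 ≤
        (‖f (k + 1)‖ + (1 - η) * ‖kap (1 - η) f k‖) ^ 2 := by gcongr
    have := pw (k + 1)
    set x := ‖f (k + 1)‖
    set y := ‖kap (1 - η) f k‖
    have t3 : η * (x + (1 - η) * y) ^ 2 ≤ x ^ 2 + η * y ^ 2 := by
      have a1 : 0 ≤ (1 - η) * (x - η * y) ^ 2 := by
        have : 0 ≤ 1 - η := by linarith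
        positivity
      have a2 : 0 ≤ η ^ 2 * y ^ 2 := by positivity
      nlinarith
    have := mul_le_mul_of_nonneg_left t2 h0.le
    linarith

lemma N2_q {η θ : ℝ} (hθ : 0 < θ) (hη : η = θ ^ 2) (h1 : η ≤ 1 / 10) (l : List ℂ)
    (hl : ∀ a ∈ l, ‖a - 1‖ ≤ θ * η) (h : ℕ) :
    N2 (1 + η / 2) (q (1 - η) l) h ≤ (1 + 10 * η) ^ l.length := by
  have h0 : 0 < η := by rw [hη]; positivity
  induction l with
  | nil =>
    cases h with
    | zero => simp [N2]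
    | succ h => simp [N2, q, sum_range_succ']
  | cons a l ih =>
    simp only [q, List.length_cons]
    refine (N2_M hθ hη h1 a (hl a (by simp)) _ _).trans ?_
    rw [pow_succ']
    gcongr
    exact ih fun b hb => hl b (by simp [hb])

lemma N2_q3 {η θ : ℝ} (hθ : 0 < θ) (hη : η = θ ^ 2) (h1 : η ≤ 1 / 10) (l : List ℂ)
    (hl : ∀ a ∈ l, ‖a - 1‖ ≤ θ * η) (hZ : l.length * θ ≤ 1 / 10000) (h : ℕ) :
    N2 (1 + η / 2) (q (1 - η) l) h ≤ 3 := by
  have h0 : 0 < η := by rw [hη]; positivity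
  refine (N2_q hθ hη h1 l hl h).trans ?_
  have hθ1 : θ ≤ 1 := by nlinarith
  calc (1 + 10 * η) ^ l.length ≤ (Real.exp (10 * η)) ^ l.length := by
        gcongr; linarith [Real.add_one_le_exp (10 * η)]
    _ = Real.exp (l.length * (10 * η)) := by rw [Real.exp_nat_mul]
    _ ≤ Real.exp 1 := by
        gcongr
        have : (l.length : ℝ) * (10 * η) = 10 * θ * (l.length * θ) := by rw [hη]; ring
        rw [this]
        have : 0 ≤ (l.length : ℝ) * θ := by positivity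
        nlinarith
    _ ≤ 3 := by linarith [Real.exp_one_lt_d9]

lemma ac_le {η θ : ℝ} (hθ : 0 < θ) (hη : η = θ ^ 2) (h1 : η ≤ 1 / 10) {a : ℂ}
    (ha : ‖a - 1‖ ≤ θ * η) : ‖a - ((1 - η : ℝ) : ℂ)‖ ≤ 2 * η := by
  have h0 : 0 < η := by rw [hη]; positivity
  have hθ1 : θ ≤ 1 := by nlinarith
  have e : a - ((1 - η : ℝ) : ℂ) = (a - 1) + (η : ℂ) := by push_cast; ring
  rw [e]
  refine (norm_add_le _ _).trans ?_
  rw [Complex.norm_real, Real.norm_of_nonneg h0.le]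
  nlinarith

lemma alt_q {η θ : ℝ} (hθ : 0 < θ) (hη : η = θ ^ 2) (h1 : η ≤ 1 / 10) (l : List ℂ)
    (hl : ∀ a ∈ l, ‖a - 1‖ ≤ θ * η) (hZ : l.length * θ ≤ 1 / 10000) (h : ℕ) :
    ‖E (q (1 - η) l) h (-1) - 1‖ ≤ 8 * (l.length * θ) := by
  have h0 : 0 < η := by rw [hη]; positivity
  have hθ1 : θ ≤ 1 := by nlinarith
  induction l with
  | nil => simp [E, q]
  | cons a l ih =>
    have hZ' : (l.length : ℝ) * θ ≤ 1 / 10000 := by
      simp only [List.length_cons] at hZ; push_cast at hZ; nlinarith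
    have hl' : ∀ b ∈ l, ‖b - 1‖ ≤ θ * η := fun b hb => hl b (by simp [hb])
    have ih := ih hl' hZ'
    have e := E_M (1 - η) a (q (1 - η) l) (-1) h
    have g := (kap_pt h0 h1 (q (1 - η) l) h).trans (N2_q3 hθ hη h1 l hl' hZ' _)
    have ac := ac_le hθ hη h1 (hl a (by simp))
    simp only [q, List.length_cons]
    set x := E (M (1 - η) a (q (1 - η) l)) h (-1)
    set y := E (q (1 - η) l) h (-1)
    set z := kap (1 - η) (q (1 - η) l) h
    have g2 : θ * ‖z‖ ≤ 2 := by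
      have : (θ * ‖z‖) ^ 2 ≤ 2 ^ 2 := by rw [mul_pow, ← hη]; linarith
      exact le_of_sq_le_sq this (by norm_num) |> fun h => h
    have y2 : ‖y‖ ≤ 2 := by
      have : y = (y - 1) + 1 := by ring
      rw [this]
      refine (norm_add_le _ _).trans ?_
      simp only [norm_one]; linarith
    have e2 : ((2 - η : ℝ) : ℂ) * (x - y) =
        (a - ((1 - η : ℝ) : ℂ)) * (y + z * (-1) ^ (h + 1)) := by
      push_cast at e ⊢
      linear_combination e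
    have n2 : (2 - η) * ‖x - y‖ ≤ 2 * η * (2 + ‖z‖) := by
      have := congrArg norm e2
      rw [norm_mul, norm_mul, Complex.norm_real, Real.norm_of_nonneg (by linarith)] at this
      rw [this]
      have : ‖y + z * (-1) ^ (h + 1)‖ ≤ 2 + ‖z‖ := by
        refine (norm_add_le _ _).trans ?_
        simp [y2]
      gcongr
    have n3 : ‖x - y‖ ≤ 8 * θ := by
      have : 2 * η * (2 + ‖z‖) = 4 * θ * θ + 2 * θ * (θ * ‖z‖) := by rw [hη]; ring
      have := norm_nonneg (x - y)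
      nlinarith
    have : x - 1 = (x - y) + (y - 1) := by ring
    rw [this]
    refine (norm_add_le _ _).trans ?_
    push_cast
    linarith

lemma den_ge {η : ℝ} (h0 : 0 < η) (h1 : η ≤ 1 / 10) {y : ℂ} (hy : ‖y‖ ≤ 1 + η / 10) :
    η / 2 ≤ ‖1 - ((1 - η : ℝ) : ℂ) * y‖ := by
  have := norm_sub_norm_le (1 : ℂ) (((1 - η : ℝ) : ℂ) * y)
  rw [norm_mul, Complex.norm_real, Real.norm_of_nonneg (by linarith), norm_one] at this
  have : (1 - η) * ‖y‖ ≤ (1 - η) * (1 + η / 10) := by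
    have : 0 ≤ 1 - η := by linarith
    gcongr
  nlinarith

lemma eval_q {η θ ν : ℝ} (hθ : 0 < θ) (hη : η = θ ^ 2) (h1 : η ≤ 1 / 10) (l : List ℂ)
    (hl : ∀ a ∈ l, ‖a - 1‖ ≤ θ * η) (hZ : l.length * θ ≤ 1 / 10000) (h : ℕ) (hν0 : 0 ≤ ν)
    (hν : (1 - η / 8) ^ h ≤ ν ^ 2) (y : ℂ) (hy : ‖y‖ ≤ 1 + η / 10) :
    ‖E (q (1 - η) l) h y - Q (1 - η) l y‖ ≤ 10 ^ l.length * (24 * ν / η) := by
  have h0 : 0 < η := by rw [hη]; positivity
  have hθ1 : θ ≤ 1 := by nlinarith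
  induction l with
  | nil =>
    simp only [E, q, Q, List.map_nil, List.prod_nil, List.length_nil]
    simp
    positivity
  | cons a l ih =>
    have hZ' : (l.length : ℝ) * θ ≤ 1 / 10000 := by
      simp only [List.length_cons] at hZ; push_cast at hZ; nlinarith
    have hl' : ∀ b ∈ l, ‖b - 1‖ ≤ θ * η := fun b hb => hl b (by simp [hb])
    have ih := ih hl' hZ'
    have e := E_M (1 - η) a (q (1 - η) l) y h
    have g := (N2_kap h0 h1 (q (1 - η) l) (h + 1)).trans (N2_q3 hθ hη h1 l hl' hZ' _)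
    have ac := ac_le hθ hη h1 (hl a (by simp))
    have dg := den_ge h0 h1 hy
    simp only [q, List.length_cons]
    have eq : Q (1 - η) (a :: l) y = (1 - a * y) / (1 - ((1 - η : ℝ) : ℂ) * y) * Q (1 - η) l y := by
      simp [Q]
    rw [eq]
    set x := E (M (1 - η) a (q (1 - η) l)) h y
    set x0 := E (q (1 - η) l) h y
    set z := kap (1 - η) (q (1 - η) l) h with hz
    set d := 1 - ((1 - η : ℝ) : ℂ) * y with hd
    have d0 : d ≠ 0 := by
      intro h; rw [h, norm_zero] at dg; linarith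
    have g1 : ‖z‖ ^ 2 * (1 + η / 2) ^ h ≤ N2 (1 + η / 2) (kap (1 - η) (q (1 - η) l)) (h + 1) := by
      unfold N2
      rw [sum_range_succ]
      have : 0 ≤ ∑ k ∈ range h, ‖kap (1 - η) (q (1 - η) l) k‖ ^ 2 * (1 + η / 2) ^ k :=
        sum_nonneg fun k _ => by positivity
      linarith
    have g2 : η * (‖z‖ * ‖y‖ ^ h) ≤ 3 * ν := by
      have a1 : (‖y‖ ^ h) ^ 2 ≤ (1 + η / 2) ^ h * ν ^ 2 := by
        calc (‖y‖ ^ h) ^ 2 = (‖y‖ ^ 2) ^ h := by rw [← pow_mul, ← pow_mul, mul_comm]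
          _ ≤ ((1 + η / 2) * (1 - η / 8)) ^ h := by
              gcongr
              have := norm_nonneg y
              nlinarith
          _ ≤ (1 + η / 2) ^ h * ν ^ 2 := by rw [mul_pow]; gcongr
      have a2 : (η * (‖z‖ * ‖y‖ ^ h)) ^ 2 ≤ (3 * ν) ^ 2 := by
        calc (η * (‖z‖ * ‖y‖ ^ h)) ^ 2 = η ^ 2 * ‖z‖ ^ 2 * (‖y‖ ^ h) ^ 2 := by ring
          _ ≤ η ^ 2 * ‖z‖ ^ 2 * ((1 + η / 2) ^ h * ν ^ 2) := by gcongr
          _ = 2 * (η ^ 2 / 2 * (‖z‖ ^ 2 * (1 + η / 2) ^ h)) * ν ^ 2 := by ring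
          _ ≤ 2 * 3 * ν ^ 2 := by
              gcongr
              exact le_trans (by gcongr) g
          _ ≤ (3 * ν) ^ 2 := by nlinarith [sq_nonneg ν]
      exact le_of_sq_le_sq a2 (by positivity) |> fun h => h
    have e2 : d * (x - (1 - a * y) / d * Q (1 - η) l y) =
        (1 - a * y) * (x0 - Q (1 - η) l y) + (a - ((1 - η : ℝ) : ℂ)) * z * y ^ (h + 1) := by
      rw [mul_sub, e]; field_simp; ring
    have n1 : ‖1 - a * y‖ ≤ 9 * ‖d‖ := by
      have : 1 - a * y = d - (a - ((1 - η : ℝ) : ℂ)) * y := by rw [hd]; ring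
      rw [this]
      refine (norm_sub_le _ _).trans ?_
      rw [norm_mul]
      have : ‖a - ((1 - η : ℝ) : ℂ)‖ * ‖y‖ ≤ 2 * η * 2 := by gcongr; linarith
      linarith
    have n2 : ‖(a - ((1 - η : ℝ) : ℂ)) * z * y ^ (h + 1)‖ ≤ ‖d‖ * (24 * ν / η) := by
      rw [norm_mul, norm_mul, norm_pow, pow_succ]
      calc ‖a - ((1 - η : ℝ) : ℂ)‖ * ‖z‖ * (‖y‖ ^ h * ‖y‖) ≤ 2 * η * ‖z‖ * (‖y‖ ^ h * 2) := by
            gcongr; linarith
        _ = 4 * (η * (‖z‖ * ‖y‖ ^ h)) := by ring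
        _ ≤ 4 * (3 * ν) := by gcongr
        _ = η / 2 * (24 * ν / η) := by field_simp; ring
        _ ≤ _ := by gcongr
    have dp : 0 < ‖d‖ := norm_pos_iff.2 d0
    refine le_of_mul_le_mul_left ?_ dp
    rw [← norm_mul, e2]
    refine (norm_add_le _ _).trans ?_
    rw [norm_mul]
    have a3 : ‖1 - a * y‖ * ‖x0 - Q (1 - η) l y‖ ≤ 9 * ‖d‖ * (10 ^ l.length * (24 * ν / η)) := by
      gcongr
    have a4 : ‖d‖ * (24 * ν / η) ≤ ‖d‖ * (10 ^ l.length * (24 * ν / η)) := by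
      gcongr
      exact le_mul_of_one_le_left (by positivity) (one_le_pow₀ (by norm_num))
    have a5 : ‖d‖ * (10 ^ (l.length + 1) * (24 * ν / η)) =
      10 * (‖d‖ * (10 ^ l.length * (24 * ν / η))) := by ring
    linarith

end Pool.Agent.H.MP_df6699_an
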