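import Pool.Agent.H.MP_df6699_an.A

set_option autoImplicit false
open Finset

namespace Pool.Agent.H.MP_df6699_an

noncomputable def Rk (σ : ℕ → ℂ) (k : ℕ) (u : ℂ) : ℂ :=
  σ k * u ^ k + (1 - u) * ∑ j ∈ range k, σ j * u ^ j

lemma Rk_sum (σ : ℕ → ℂ) (k : ℕ) (u : ℂ) :
    ∑ j ∈ range (k + 1), (σ j - sh σ j) * u ^ j = Rk σ k u := by
  induction k with
  | zero => simp [Rk, sh]
  | succ k ih =>
    rw [sum_range_succ, ih]
    simp only [Rk, sh, sum_range_succ]; ring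

lemma pow_near (s : ℂ) (k : ℕ) {x : ℝ} (h : k * ‖s‖ ≤ x) (hx : x ≤ 1) :
    ‖(1 + s) ^ k - 1‖ ≤ 2 * x := by
  have := Finset.norm_prod_one_add_sub_one_le (range k) (fun _ => s)
  simp only [prod_const, card_range, sum_const, nsmul_eq_mul] at this
  refine this.trans ?_
  have p : 0 ≤ (k : ℝ) * ‖s‖ := by positivity
  have := Real.abs_exp_sub_one_le (x := k * ‖s‖) (by rw [abs_of_nonneg p]; linarith)
  rw [abs_of_nonneg p] at this
  linarith [le_abs_self (Real.exp (k * ‖s‖) - 1)]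

lemma Rk_err {σ : ℕ → ℂ} {J k : ℕ} {δ : ℝ} (hσ : ∀ k < J, ‖σ k - (-1) ^ k‖ ≤ 1 / 100)
    (hJ : J * δ ≤ 1 / 100) (hk : k ≤ J) {u : ℂ} (h0 : 0 ≤ u.re) (hi : |u.im| ≤ δ) :
    ‖(1 - u) * ∑ j ∈ range k, (σ j - (-1) ^ j) * u ^ j‖ ≤ max 1 ‖u‖ ^ k / 50 := by
  have hδ : 0 ≤ δ := (abs_nonneg _).trans hi
  have a1 : ‖1 - u‖ ≤ |1 - ‖u‖| + 2 * δ := by
    have b1 := Complex.norm_le_abs_re_add_abs_im (1 - u)
    have b2 := Complex.norm_le_abs_re_add_abs_im u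
    have b3 := Complex.abs_re_le_norm u
    rw [abs_of_nonneg h0] at b2 b3
    simp only [Complex.sub_re, Complex.one_re, Complex.sub_im, Complex.one_im, zero_sub,
      abs_neg] at b1
    have : |1 - u.re| ≤ |1 - ‖u‖| + δ := by
      rw [abs_le]
      constructor <;> linarith [le_abs_self (1 - ‖u‖), neg_abs_le (1 - ‖u‖)]
    linarith
  have a2 : ‖∑ j ∈ range k, (σ j - (-1) ^ j) * u ^ j‖ ≤ 1 / 100 * ∑ j ∈ range k, ‖u‖ ^ j := by
    rw [mul_sum]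
    refine norm_sum_le_of_le _ fun j hj => ?_
    rw [norm_mul, norm_pow]
    gcongr
    exact hσ j (by simp at hj; omega)
  set U := max 1 ‖u‖ ^ k
  have U1 : 1 ≤ U := one_le_pow₀ (le_max_left _ _)
  have U2 : ‖u‖ ^ k ≤ U := pow_le_pow_left₀ (norm_nonneg _) (le_max_right _ _) _
  have s0 : 0 ≤ ∑ j ∈ range k, ‖u‖ ^ j := sum_nonneg fun j _ => by positivity
  have a3 : |1 - ‖u‖| * ∑ j ∈ range k, ‖u‖ ^ j ≤ U := by
    rw [← abs_of_nonneg s0, ← abs_mul, mul_neg_geom_sum, abs_le]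
    have : 0 ≤ ‖u‖ ^ k := by positivity
    constructor <;> linarith
  have a4 : ∑ j ∈ range k, ‖u‖ ^ j ≤ k * U := by
    have := sum_le_card_nsmul (range k) (fun j => ‖u‖ ^ j) U fun j hj =>
      (pow_le_pow_left₀ (norm_nonneg _) (le_max_right 1 _) _).trans
        (pow_le_pow_right₀ (le_max_left _ _) (by simp at hj; omega))
    simpa using this
  have a5 : (k : ℝ) * δ ≤ 1 / 100 := le_trans (by gcongr) hJ
  rw [norm_mul]
  calc _ ≤ (|1 - ‖u‖| + 2 * δ) * (1 / 100 * ∑ j ∈ range k, ‖u‖ ^ j) := by gcongr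
    _ = 1 / 100 * (|1 - ‖u‖| * ∑ j ∈ range k, ‖u‖ ^ j) +
        δ / 50 * ∑ j ∈ range k, ‖u‖ ^ j := by ring
    _ ≤ 1 / 100 * U + δ / 50 * (k * U) := by gcongr
    _ = 1 / 100 * U + (k * δ) * U / 50 := by ring
    _ ≤ 1 / 100 * U + (1 / 100) * U / 50 := by gcongr
    _ ≤ U / 50 := by linarith

lemma Rk_split (σ : ℕ → ℂ) (k : ℕ) (u : ℂ) : (1 + u) * Rk σ k u =
    (1 + u) * (σ k * u ^ k + (1 - u) * ∑ j ∈ range k, (σ j - (-1) ^ j) * u ^ j) +
      (1 - u) * (1 - (-u) ^ k) := by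
  have e := mul_neg_geom_sum (-u) k
  have e2 : ∑ j ∈ range k, σ j * u ^ j =
      ∑ j ∈ range k, (σ j - (-1) ^ j) * u ^ j + ∑ j ∈ range k, (-u) ^ j := by
    rw [← sum_add_distrib]
    exact sum_congr rfl fun j _ => by rw [neg_pow u]; ring
  rw [Rk, e2]
  linear_combination (1 - u) * e

lemma sig_le {σ : ℕ → ℂ} {J : ℕ} (hσ : ∀ k < J, ‖σ k - (-1) ^ k‖ ≤ 1 / 100)
    (h0 : ∀ k, J ≤ k → σ k = 0) (k : ℕ) : ‖σ k‖ ≤ 101 / 100 := by
  rcases lt_or_ge k J with h | h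
  · have : σ k = (σ k - (-1) ^ k) + (-1) ^ k := by ring
    rw [this]
    refine (norm_add_le _ _).trans ?_
    have := hσ k h
    simp only [norm_pow, norm_neg, norm_one, one_pow]; linarith
  · rw [h0 k h]; norm_num

lemma Rk_up {σ : ℕ → ℂ} {J k : ℕ} {δ : ℝ} (hσ : ∀ k < J, ‖σ k - (-1) ^ k‖ ≤ 1 / 100)
    (hσ0 : ∀ k, J ≤ k → σ k = 0)
    (hJ : J * δ ≤ 1 / 100) (hk : k ≤ J) {u : ℂ} (h0 : 0 ≤ u.re) (hi : |u.im| ≤ δ) :
    ‖Rk σ k u‖ ≤ 4 * max 1 ‖u‖ ^ k := by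
  have a1 := Rk_err hσ hJ hk h0 hi
  have a2 := sig_le hσ hσ0 k
  set U := max 1 ‖u‖ ^ k
  have U1 : 1 ≤ U := one_le_pow₀ (le_max_left _ _)
  have U2 : ‖u‖ ^ k ≤ U := pow_le_pow_left₀ (norm_nonneg _) (le_max_right _ _) _
  have p : 0 < ‖1 + u‖ := by
    have := Complex.re_le_norm (1 + u)
    simp at this; linarith
  have a3 : ‖1 - u‖ ≤ ‖1 + u‖ := by
    refine le_of_sq_le_sq ?_ (norm_nonneg _)
    simp only [Complex.sq_norm, Complex.normSq_apply, Complex.sub_re, Complex.sub_im,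
      Complex.add_re, Complex.add_im, Complex.one_re, Complex.one_im]
    nlinarith
  have a4 : ‖1 - (-u) ^ k‖ ≤ 2 * U := by
    refine (norm_sub_le _ _).trans ?_
    rw [norm_pow, norm_neg, norm_one]; linarith
  have a5 : ‖σ k * u ^ k + (1 - u) * ∑ j ∈ range k, (σ j - (-1) ^ j) * u ^ j‖ ≤ 2 * U := by
    refine (norm_add_le _ _).trans ?_
    rw [norm_mul (σ k), norm_pow]
    have : ‖σ k‖ * ‖u‖ ^ k ≤ 101 / 100 * U := by gcongr
    linarith
  refine le_of_mul_le_mul_left ?_ p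
  rw [← norm_mul, Rk_split]
  refine (norm_add_le _ _).trans ?_
  rw [norm_mul, norm_mul]
  calc _ ≤ ‖1 + u‖ * (2 * U) + ‖1 + u‖ * (2 * U) := by gcongr
    _ = _ := by ring

lemma Rk_low {σ : ℕ → ℂ} {J k : ℕ} {δ : ℝ} (hσ : ∀ k < J, ‖σ k - (-1) ^ k‖ ≤ 1 / 100)
    (hJ : J * δ ≤ 1 / 100) (hk : k < J) {u : ℂ} (h0 : 1 ≤ u.re) (hi : |u.im| ≤ δ) :
    1 / 4 ≤ ‖Rk σ k u‖ := by
  have a1 := Rk_err hσ hJ hk.le (by linarith) hi
  have n1 : 1 ≤ ‖u‖ := h0.trans (Complex.re_le_norm u)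
  rw [max_eq_right n1] at a1
  set U := ‖u‖ ^ k with hU
  have U1 : 1 ≤ U := one_le_pow₀ n1
  have a3 : ‖1 - u‖ ≤ ‖u‖ := by
    refine le_of_sq_le_sq ?_ (norm_nonneg _)
    simp only [Complex.sq_norm, Complex.normSq_apply, Complex.sub_re, Complex.sub_im,
      Complex.one_re, Complex.one_im]
    nlinarith
  have a4 : ‖1 + u‖ ≤ 2 * ‖u‖ := (norm_add_le _ _).trans (by rw [norm_one]; linarith)
  set e := (σ k - (-1) ^ k) * u ^ k + (1 - u) * ∑ j ∈ range k, (σ j - (-1) ^ j) * u ^ j with he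
  have a5 : ‖e‖ ≤ 3 / 100 * U := by
    refine (norm_add_le _ _).trans ?_
    rw [norm_mul (σ k - _), norm_pow]
    have : ‖σ k - (-1) ^ k‖ * U ≤ 1 / 100 * U := by gcongr; exact hσ k hk
    linarith
  have e1 : 2 * u * (-u) ^ k = (1 + u) * Rk σ k u - (1 + u) * e - (1 - u) := by
    rw [Rk_split, he, neg_pow u]; ring
  have e2 : 2 * ‖u‖ * U ≤ ‖1 + u‖ * ‖Rk σ k u‖ + ‖1 + u‖ * ‖e‖ + ‖1 - u‖ := by
    have := congrArg norm e1
    rw [norm_mul, norm_mul, norm_pow, norm_neg, Complex.norm_two] at this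
    rw [this, ← norm_mul, ← norm_mul]
    exact (norm_sub_le _ _).trans (by gcongr; exact norm_sub_le _ _)
  have e3 : ‖1 + u‖ * ‖Rk σ k u‖ ≤ 2 * ‖u‖ * ‖Rk σ k u‖ := by gcongr
  have e4 : ‖1 + u‖ * ‖e‖ ≤ 2 * ‖u‖ * (3 / 100 * U) := by gcongr
  have e5 : ‖u‖ ≤ ‖u‖ * U := le_mul_of_one_le_right (norm_nonneg _) U1
  by_contra hc
  push Not at hc
  have e6 : 2 * ‖u‖ * ‖Rk σ k u‖ ≤ 2 * ‖u‖ * (1 / 4) := by gcongr
  nlinarith

lemma Rk_zone {σ : ℕ → ℂ} {J k : ℕ} {w : ℝ} (hσ : ∀ k < J, ‖σ k - (-1) ^ k‖ ≤ 1 / 100)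
    (hσ0 : ∀ k, J ≤ k → σ k = 0) (hJ : J * w ≤ 1 / 100) (hk : k < J) {u : ℂ} (hu : ‖u - 1‖ ≤ w) :
    ‖Rk σ k u - (-1) ^ k‖ ≤ 1 / 10 := by
  have hw : 0 ≤ w := (norm_nonneg _).trans hu
  have pw : ∀ j ≤ J, ‖u ^ j - 1‖ ≤ 2 / 100 := fun j hj => by
    have := pow_near (u - 1) j (x := 1 / 100) (le_trans (by gcongr) hJ) (by norm_num)
    rw [add_sub_cancel] at this; linarith
  have pw2 : ∀ j ≤ J, ‖u ^ j‖ ≤ 2 := fun j hj => by
    have : u ^ j = (u ^ j - 1) + 1 := by ring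
    rw [this]
    refine (norm_add_le _ _).trans ?_
    have := pw j hj
    rw [norm_one]; linarith
  have a1 : ‖∑ j ∈ range k, σ j * u ^ j‖ ≤ k * 3 := by
    refine (norm_sum_le _ _).trans ?_
    have := sum_le_card_nsmul (range k) (fun j => ‖σ j * u ^ j‖) 3 fun j hj => by
      rw [norm_mul]
      have b1 := sig_le hσ hσ0 j
      have b2 := pw2 j (by simp at hj; omega)
      calc ‖σ j‖ * ‖u ^ j‖ ≤ 101 / 100 * 2 := by gcongr
        _ ≤ 3 := by norm_num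
    simpa using this
  have e : Rk σ k u - (-1) ^ k =
      σ k * (u ^ k - 1) + (σ k - (-1) ^ k) + (1 - u) * ∑ j ∈ range k, σ j * u ^ j := by
    rw [Rk]; ring
  rw [e]
  refine (norm_add_le _ _).trans ?_
  have a2 := norm_add_le (σ k * (u ^ k - 1)) (σ k - (-1) ^ k)
  have a3 : ‖σ k * (u ^ k - 1)‖ ≤ 101 / 100 * (2 / 100) := by
    rw [norm_mul]
    gcongr
    · exact sig_le hσ hσ0 k
    · exact pw k hk.le
  have a4 : ‖(1 - u) * ∑ j ∈ range k, σ j * u ^ j‖ ≤ w * (k * 3) := by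
    rw [norm_mul, norm_sub_rev]; gcongr
  have a5 : (k : ℝ) * w ≤ 1 / 100 := le_trans (by gcongr) hJ
  have := hσ k hk
  nlinarith

noncomputable def sig (lo tp : ℕ → ℂ) (h : ℕ) (k : ℕ) : ℂ :=
  if k < 2 * h + 1 then (-1) ^ k * E lo (min k h) (-1) * E tp (min (2 * h - k) h) (-1) else 0

lemma sig_lo (lo tp : ℕ → ℂ) (h k : ℕ) (hk : k ≤ h) :
    sig lo tp h k + sh (sig lo tp h) k = lo k * E tp h (-1) := by
  cases k with
  | zero =>
    have : min (2 * h) h = h := by omega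
    simp [sig, sh, E, this]
  | succ k =>
    simp only [sig, sh]
    rw [if_pos (by omega), if_pos (by omega), min_eq_left hk, min_eq_left (by omega : k ≤ h),
      min_eq_right (by omega), min_eq_right (by omega)]
    simp only [E]
    rw [sum_range_succ _ (k + 1)]
    have : ((-1 : ℂ) ^ (k + 1)) * (-1) ^ (k + 1) = 1 := by rw [← mul_pow]; simp
    linear_combination (lo (k + 1) * ∑ j ∈ range (h + 1), tp j * (-1) ^ j) * this

lemma sig_tp (lo tp : ℕ → ℂ) (h i : ℕ) (hi : i ≤ h) :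
    sig lo tp h (h + 1 + (h - i)) + sh (sig lo tp h) (h + 1 + (h - i)) = E lo h (-1) * tp i := by
  have e0 : h + 1 + (h - i) = (2 * h - i) + 1 := by omega
  rw [e0]
  simp only [sig, sh]
  rw [if_pos (by omega : 2 * h - i < 2 * h + 1), min_eq_right (by omega : h ≤ 2 * h - i),
    show 2 * h - (2 * h - i) = i by omega, min_eq_left hi]
  have par : (-1 : ℂ) ^ (2 * h - i) * (-1) ^ i = 1 := by
    rw [← pow_add, show 2 * h - i + i = 2 * h by omega]; simp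
  cases i with
  | zero => simp [E]
  | succ i =>
    rw [if_pos (by omega), min_eq_right (by omega : h ≤ 2 * h - (i + 1) + 1),
      show 2 * h - (2 * h - (i + 1) + 1) = i by omega, min_eq_left (by omega : i ≤ h)]
    simp only [E]
    rw [sum_range_succ _ (i + 1)]
    linear_combination ((∑ j ∈ range (h + 1), lo j * (-1) ^ j) * tp (i + 1)) * par

lemma sig_id (lo tp : ℕ → ℂ) (h : ℕ) (u : ℂ) (hu : u ≠ 0) :
    (1 + u) * ∑ j ∈ range (2 * h + 1), sig lo tp h j * u ^ j =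
      E tp h (-1) * E lo h u + E lo h (-1) * u ^ (2 * h + 1) * E tp h u⁻¹ := by
  have a1 : ∀ (σ : ℕ → ℂ) (n : ℕ), (1 + u) * ∑ j ∈ range n, σ j * u ^ j + σ n * u ^ n =
      ∑ j ∈ range (n + 1), (σ j + sh σ j) * u ^ j := fun σ n => by
    induction n with
    | zero => simp [sh]
    | succ n ih =>
      rw [sum_range_succ _ (n + 1), ← ih, sum_range_succ]
      simp only [sh]; ring
  have a2 := a1 (sig lo tp h) (2 * h + 1)
  rw [show sig lo tp h (2 * h + 1) = 0 by simp [sig], zero_mul, add_zero] at a2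
  rw [a2, show 2 * h + 1 + 1 = (h + 1) + (h + 1) by ring, sum_range_add]
  congr 1
  · rw [show E lo h u = ∑ j ∈ range (h + 1), lo j * u ^ j from rfl, mul_sum]
    refine sum_congr rfl fun j hj => ?_
    rw [sig_lo _ _ _ _ (by simp at hj; omega)]; ring
  · rw [show E tp h u⁻¹ = ∑ j ∈ range (h + 1), tp j * u⁻¹ ^ j from rfl, mul_sum,
      ← sum_range_reflect]
    refine sum_congr rfl fun j hj => ?_
    have hj' : j ≤ h := by simp at hj; omega
    rw [show h + 1 - 1 - j = h - j by omega, sig_tp _ _ _ _ hj',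
      show 2 * h + 1 = (h + 1 + (h - j)) + j by omega, pow_add u _ j, inv_pow]
    field_simp

noncomputable def P0 (c : ℝ) (l : List ℂ) (u : ℂ) : ℂ := (l.map fun a => (u - a) / (u - c)).prod

lemma Q_inv (c : ℝ) (l : List ℂ) {u : ℂ} (hu : u ≠ 0) : Q c l u⁻¹ = P0 c l u := by
  unfold Q P0
  congr 1
  refine List.map_congr_left fun a _ => ?_
  have e1 : 1 - a * u⁻¹ = (u - a) / u := by field_simp
  have e2 : 1 - c * u⁻¹ = (u - c) / u := by field_simp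
  rw [e1, e2, div_div_div_cancel_right₀ hu]

lemma P0_ge {η θ δ : ℝ} (hθ : 0 < θ) (hη : η = θ ^ 2) (h1 : η ≤ 1 / 10) (hδ : 0 < δ)
    (hδ1 : δ ≤ 1 / 2) (l : List ℂ) (hl : ∀ a ∈ l, ‖a - 1‖ ≤ θ * η) {u : ℂ} (hu : 1 ≤ u.re)
    (hd : ∀ a ∈ l, 5 * δ ≤ ‖u - a‖) : δ ^ l.length ≤ ‖P0 (1 - η) l u‖ := by
  have h0 : 0 < η := by rw [hη]; positivity
  induction l with
  | nil => simp [P0]
  | cons a l ih =>
    have ih := ih (fun b hb => hl b (by simp [hb])) (fun b hb => hd b (by simp [hb]))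
    have e : P0 (1 - η) (a :: l) u = (u - a) / (u - ((1 - η : ℝ) : ℂ)) * P0 (1 - η) l u := by
      simp [P0]
    rw [e, norm_mul, List.length_cons, pow_succ']
    gcongr
    have ac := ac_le hθ hη h1 (hl a (by simp))
    have d := hd a (by simp)
    have p : 0 < ‖u - ((1 - η : ℝ) : ℂ)‖ := by
      have := Complex.re_le_norm (u - ((1 - η : ℝ) : ℂ))
      simp only [Complex.sub_re, Complex.ofReal_re] at this; linarith
    rw [norm_div, le_div_iff₀ p]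
    have : ‖u - ((1 - η : ℝ) : ℂ)‖ ≤ ‖u - a‖ + 2 * η := by
      have : u - ((1 - η : ℝ) : ℂ) = (u - a) + (a - ((1 - η : ℝ) : ℂ)) := by ring
      rw [this]
      exact (norm_add_le _ _).trans (by linarith)
    nlinarith

lemma Q_rep (c : ℝ) (Z : ℕ) (y : ℂ) :
    Q c (List.replicate Z 1) y = ((1 - y) / (1 - c * y)) ^ Z := by simp [Q]

lemma Q1_small {η : ℝ} (h0 : 0 < η) (h1 : η ≤ 1 / 10) (Z : ℕ) {y : ℂ} (hy : ‖y‖ ≤ 1 + η / 10)
    (h2 : ‖y - 1‖ ≤ η / 8) : ‖Q (1 - η) (List.replicate Z 1) y‖ ≤ (1 / 4) ^ Z := by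
  rw [Q_rep, norm_pow]
  gcongr
  have := den_ge h0 h1 hy
  rw [norm_div, div_le_iff₀ (by linarith), norm_sub_rev]
  linarith

lemma Q1_re {η δ : ℝ} (h0 : 0 < η) (Z : ℕ) (hZ : Z * (32 * δ / η) ≤ 1 / 2) {u : ℂ}
    (hu : 1 + η / 32 ≤ u.re) (hi : |u.im| ≤ δ) : 0 ≤ (P0 (1 - η) (List.replicate Z 1) u).re := by
  have hδ : 0 ≤ δ := (abs_nonneg _).trans hi
  have p1 : 0 < u.re - 1 := by linarith
  have p2 : 0 < u.re - (1 - η) := by linarith
  have p3 : η ≤ ‖u - ((1 - η : ℝ) : ℂ)‖ := by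
    have := Complex.re_le_norm (u - ((1 - η : ℝ) : ℂ))
    simp only [Complex.sub_re, Complex.ofReal_re] at this; linarith
  have n3 : u - ((1 - η : ℝ) : ℂ) ≠ 0 := by
    intro h; rw [h, norm_zero] at p3; linarith
  set s : ℂ := (u.im * η : ℝ) * Complex.I / (((u.re - 1 : ℝ) : ℂ) * (u - ((1 - η : ℝ) : ℂ))) with hs
  have e : (u - 1) / (u - ((1 - η : ℝ) : ℂ)) =
      (((u.re - 1) / (u.re - (1 - η)) : ℝ) : ℂ) * (1 + s) := by
    have n1 : ((u.re - 1 : ℝ) : ℂ) ≠ 0 := by exact_mod_cast p1.ne'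
    have n2 : ((u.re - (1 - η) : ℝ) : ℂ) ≠ 0 := by exact_mod_cast p2.ne'
    rw [hs, Complex.ofReal_div]
    field_simp
    have := Complex.re_add_im u
    push_cast
    linear_combination (-η : ℂ) * this
  have ns : ‖s‖ ≤ 32 * δ / η := by
    rw [hs, norm_div, norm_mul, norm_mul, Complex.norm_I, Complex.norm_real, Complex.norm_real,
      Real.norm_of_nonneg p1.le, Real.norm_eq_abs, abs_mul, abs_of_pos h0, mul_one,
      div_le_div_iff₀ (by positivity) h0]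
    calc |u.im| * η * η ≤ δ * η * η := by gcongr
      _ = 32 * δ * (η / 32 * η) := by ring
      _ ≤ _ := by gcongr; linarith
  have := pow_near s Z (x := 1 / 2) (le_trans (by gcongr) hZ) (by norm_num)
  have r := (Complex.abs_re_le_norm _).trans this
  simp only [Complex.sub_re, Complex.one_re] at r
  have r2 : 0 ≤ ((1 + s) ^ Z).re := by
    have := (abs_le.1 r).1; linarith
  simp only [P0, List.map_replicate, List.prod_replicate]
  rw [e, mul_pow, ← Complex.ofReal_pow, Complex.re_ofReal_mul]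
  positivity

end Pool.Agent.H.MP_df6699_an
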