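import Pool.Agent.H.MP_df6699_an.B

set_option autoImplicit false
open Finset

namespace Pool.Agent.H.MP_df6699_an

noncomputable def Fm (J : ℕ) (c : ℝ) (l : List ℂ) (u : ℂ) : ℂ :=
  (u - 1) * u ^ J / (1 + u) * P0 c l u

lemma E_comb (f g : ℕ → ℂ) (τ : ℝ) (h : ℕ) (y : ℂ) :
    E (fun k => τ * f k + (1 - τ) * g k) h y = τ * E f h y + (1 - τ) * E g h y := by
  unfold E
  rw [mul_sum, mul_sum, ← sum_add_distrib]
  exact sum_congr rfl fun k _ => by ring

lemma comb_le {τ b : ℝ} (h0 : 0 ≤ τ) (h1 : τ ≤ 1) {x y : ℂ} (hx : ‖x‖ ≤ b) (hy : ‖y‖ ≤ b) :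
    ‖τ * x + (1 - τ) * y‖ ≤ b := by
  refine (norm_add_le _ _).trans ?_
  have e : (1 - τ : ℂ) = ((1 - τ : ℝ) : ℂ) := by push_cast; ring
  rw [e, norm_mul, norm_mul, Complex.norm_real, Complex.norm_real, Real.norm_of_nonneg h0,
    Real.norm_of_nonneg (by linarith)]
  have : 0 ≤ 1 - τ := by linarith
  calc τ * ‖x‖ + (1 - τ) * ‖y‖ ≤ τ * b + (1 - τ) * b := by gcongr
    _ = b := by ring

lemma near_le {x : ℂ} {b : ℝ} (h : ‖x - 1‖ ≤ b) : ‖x‖ ≤ 1 + b := by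
  have := norm_add_le (x - 1) 1
  rw [sub_add_cancel, norm_one] at this; linarith

lemma near_ge {x : ℂ} {b : ℝ} (h : ‖x - 1‖ ≤ b) : 1 - b ≤ ‖x‖ := by
  have := norm_sub_norm_le (1 : ℂ) x
  rw [norm_one, norm_sub_rev] at this; linarith

theorem block {η θ ν δ τ ω : ℝ} {h Z : ℕ} (l : List ℂ) (hθ : 0 < θ) (hη : η = θ ^ 2)
    (h1 : η ≤ 1 / 10) (hl : ∀ a ∈ l, ‖a - 1‖ ≤ θ * η)
    (hZ : (Z + l.length) * θ ≤ 1 / 10000) (hν0 : 0 ≤ ν) (hν : (1 - η / 8) ^ h ≤ ν ^ 2)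
    (hδ : 0 < δ) (hδη : δ ≤ η / 32) (hZδ : Z * (32 * δ / η) ≤ 1 / 2) (hτ1 : τ ≤ 1)
    (hω : 0 < ω) (hωτ : ω ≤ τ * δ ^ l.length)
    (hW : 10 ^ (Z + l.length) * (24 * ν / η) ≤ ω / 1000) (h4 : (1 / 4) ^ Z ≤ ω / 1000)
    (hfar : 4 * (h + 1) ≤ ω / 100 * (1 + η / 32) ^ (h + 1)) :
    ∃ σ : ℕ → ℂ, (∀ k < 2 * h + 1, ‖σ k - (-1) ^ k‖ ≤ 1 / 100) ∧
      (∀ k, 2 * h + 1 ≤ k → σ k = 0) ∧
      ∀ u : ℂ, 1 + δ ≤ u.re → |u.im| ≤ δ → (∀ a ∈ l, 5 * δ ≤ ‖u - a‖) →
        (‖u - 1‖ ≤ η / 16 → ∃ s : ℂ, ‖s‖ ≤ 1 / 100 ∧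
          Rk σ (2 * h + 1) u = -(τ * Fm (2 * h + 1) (1 - η) l u * (1 + s))) ∧
        τ * δ ^ (l.length + 1) / 10 * ‖u‖ ^ (2 * h + 1) ≤ ‖Rk σ (2 * h + 1) u‖ := by
  have h0 : 0 < η := by rw [hη]; positivity
  have hτ : 0 < τ := by
    by_contra hc
    push Not at hc
    have : τ * δ ^ l.length ≤ 0 := mul_nonpos_of_nonpos_of_nonneg hc (by positivity)
    linarith
  have hωτ' : ω ≤ τ := hωτ.trans
    (mul_le_of_le_one_right hτ.le (pow_le_one₀ hδ.le (by linarith)))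
  set o : List ℂ := List.replicate Z 1 with ho
  have hlo : ∀ a ∈ o, ‖a - 1‖ ≤ θ * η := fun a ha => by
    rw [List.eq_of_mem_replicate ha]; simp; positivity
  have hlt : ∀ a ∈ o ++ l, ‖a - 1‖ ≤ θ * η := fun a ha => by
    rcases List.mem_append.1 ha with h | h
    exacts [hlo a h, hl a h]
  have len_o : o.length = Z := by simp [ho]
  have len_t : (o ++ l).length = Z + l.length := by simp [ho]
  have pZ : 0 ≤ (Z : ℝ) * θ := by positivity
  have pl : 0 ≤ (l.length : ℝ) * θ := by positivity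
  have zo : (o.length : ℝ) * θ ≤ 1 / 10000 := by rw [len_o]; linarith
  have zl : (l.length : ℝ) * θ ≤ 1 / 10000 := by linarith
  have zt : ((o ++ l).length : ℝ) * θ ≤ 1 / 10000 := by rw [len_t]; push_cast; linarith
  set lo := q (1 - η) o
  set tp : ℕ → ℂ := fun k => τ * q (1 - η) l k + (1 - τ) * q (1 - η) (o ++ l) k with htp
  have al : ∀ k, ‖E lo k (-1) - 1‖ ≤ 1 / 1000 := fun k =>
    (alt_q hθ hη h1 o hlo zo k).trans (by linarith)
  have ga : ∀ k, ‖E tp k (-1) - 1‖ ≤ 1 / 1000 := fun k => by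
    rw [htp, E_comb]
    have b1 := alt_q hθ hη h1 l hl zl k
    have b2 := alt_q hθ hη h1 (o ++ l) hlt zt k
    have := comb_le (b := 1 / 1000) hτ.le hτ1 (b1.trans (by linarith)) (b2.trans (by linarith))
    refine le_of_eq_of_le (congrArg norm (by ring)) this
  have w0 : 0 ≤ 24 * ν / η := by positivity
  have wle : ∀ n ≤ Z + l.length, (10 : ℝ) ^ n * (24 * ν / η) ≤ ω / 1000 := fun n hn =>
    le_trans (by gcongr; norm_num) hW
  refine ⟨sig lo tp h, fun k hk => ?_, fun k hk => by simp [sig]; omega, fun u hu hi hd => ?_⟩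
  · simp only [sig, if_pos hk]
    set x := E lo (min k h) (-1)
    set y := E tp (min (2 * h - k) h) (-1)
    have e : (-1) ^ k * x * y - (-1) ^ k = (-1) ^ k * ((x - 1) * y + (y - 1)) := by ring
    rw [e, norm_mul, norm_pow, norm_neg, norm_one, one_pow, one_mul]
    refine (norm_add_le _ _).trans ?_
    rw [norm_mul]
    have b1 : ‖x - 1‖ ≤ 1 / 1000 := al _
    have b2 : ‖y - 1‖ ≤ 1 / 1000 := ga _
    have b3 := near_le b2
    have : ‖x - 1‖ * ‖y‖ ≤ 1 / 1000 * (1 + 1 / 1000) := by gcongr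
    linarith
  have n1 : 1 ≤ ‖u‖ := le_trans (by linarith) (Complex.re_le_norm u)
  have u0 : u ≠ 0 := by intro h; rw [h, norm_zero] at n1; linarith
  have p1 : 2 ≤ ‖1 + u‖ := by
    have := Complex.re_le_norm (1 + u)
    simp at this; linarith
  have u1 : 1 + u ≠ 0 := by intro h; rw [h, norm_zero] at p1; linarith
  have ny : ‖u⁻¹‖ ≤ 1 := by rw [norm_inv]; exact inv_le_one_of_one_le₀ n1
  have id := sig_id lo tp h u u0
  set J := 2 * h + 1 with hJ
  have eR : Rk (sig lo tp h) J u =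
      (1 - u) / (1 + u) * (E tp h (-1) * E lo h u + E lo h (-1) * u ^ J * E tp h u⁻¹) := by
    rw [← id, Rk, show sig lo tp h J = 0 by simp [sig, hJ]]; field_simp; ring
  set P := P0 (1 - η) l u with hP
  set P1 := P0 (1 - η) o u with hP1
  have Pge : δ ^ l.length ≤ ‖P‖ := P0_ge hθ hη h1 hδ (by linarith) l hl (by linarith) hd
  have Pω : ω ≤ τ * ‖P‖ := hωτ.trans (by gcongr)
  obtain ⟨er, her, eT⟩ : ∃ er : ℂ, ‖er‖ ≤ ω / 1000 ∧
      E tp h u⁻¹ = P * (τ + (1 - τ) * P1) + er := by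
    have b1 := eval_q hθ hη h1 l hl zl h hν0 hν u⁻¹ (by linarith)
    have b2 := eval_q hθ hη h1 (o ++ l) hlt zt h hν0 hν u⁻¹ (by linarith)
    have := comb_le (b := ω / 1000) hτ.le hτ1 (b1.trans (wle _ (by omega)))
      (b2.trans (wle _ len_t.le))
    refine ⟨_, this, ?_⟩
    rw [htp, E_comb, Q_inv _ _ u0, Q_inv _ _ u0,
      show P0 (1 - η) (o ++ l) u = P1 * P by simp [P0, hP, hP1]]
    ring
  have uJ : 1 ≤ ‖u‖ ^ J := one_le_pow₀ n1
  have a1 := near_le (al h)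
  have a2 := near_ge (al h)
  have g1 := near_le (ga h)
  have win : ‖u - 1‖ ≤ η / 16 → ∃ s : ℂ, ‖s‖ ≤ 1 / 100 ∧
      E tp h (-1) * E lo h u + E lo h (-1) * u ^ J * E tp h u⁻¹ = τ * P * u ^ J * (1 + s) := by
    intro hw
    have nu : ‖u‖ ≤ 1 + η / 10 := (near_le hw).trans (by linarith)
    have b1 := (eval_q hθ hη h1 o hlo zo h hν0 hν u nu).trans (wle _ (by omega))
    have b2 := (Q1_small h0 h1 Z nu (by linarith)).trans h4
    have b3 : ‖E lo h u‖ ≤ 2 * ω / 1000 := by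
      have := norm_add_le (E lo h u - Q (1 - η) o u) (Q (1 - η) o u)
      rw [sub_add_cancel] at this; linarith
    have b4 : ‖P1‖ ≤ ω / 1000 := by
      rw [hP1, ← Q_inv _ _ u0]
      refine (Q1_small h0 h1 Z (by linarith) ?_).trans h4
      have : u⁻¹ - 1 = -((u - 1) * u⁻¹) := by field_simp; ring
      rw [this, norm_neg, norm_mul]
      calc _ ≤ η / 16 * 1 := by gcongr
        _ ≤ _ := by linarith
    have nz : (τ : ℂ) * P * u ^ J ≠ 0 := by
      intro h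
      have := congrArg norm h
      rw [norm_mul, norm_mul, norm_pow, Complex.norm_real, Real.norm_of_nonneg hτ.le,
        norm_zero] at this
      have p : 0 < τ * ‖P‖ := hω.trans_le Pω
      have : 0 < τ * ‖P‖ * ‖u‖ ^ J := by positivity
      linarith
    refine ⟨(E tp h (-1) * E lo h u + E lo h (-1) * u ^ J * E tp h u⁻¹) / (τ * P * u ^ J) - 1, ?_,
      by rw [add_sub_cancel, mul_div_cancel₀ _ nz]⟩
    rw [div_sub_one nz, norm_div, div_le_iff₀ (norm_pos_iff.2 nz), eT]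
    have e : E tp h (-1) * E lo h u + E lo h (-1) * u ^ J * (P * (τ + (1 - τ) * P1) + er) -
        τ * P * u ^ J = E tp h (-1) * E lo h u + ((E lo h (-1) - 1) * (τ * P) +
        E lo h (-1) * (P * ((1 - τ) * P1) + er)) * u ^ J := by ring
    rw [e, norm_mul, norm_mul, norm_pow, Complex.norm_real, Real.norm_of_nonneg hτ.le]
    refine (norm_add_le _ _).trans ?_
    rw [norm_mul, norm_mul, norm_pow]
    have c1 : ‖E tp h (-1)‖ * ‖E lo h u‖ ≤ (1 + 1 / 1000) * (2 * ω / 1000) := by gcongr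
    have c2 : ‖(1 - τ : ℂ) * P1‖ ≤ τ / 1000 := by
      have := comb_le (x := 0) (b := ω / 1000) hτ.le hτ1 (by simp; positivity) b4
      rw [mul_zero, zero_add] at this; linarith
    have c3 : ‖P * ((1 - τ) * P1) + er‖ ≤ 2 * (τ * ‖P‖) / 1000 := by
      refine (norm_add_le _ _).trans ?_
      rw [norm_mul]
      have : ‖P‖ * ‖(1 - τ : ℂ) * P1‖ ≤ ‖P‖ * (τ / 1000) := by gcongr
      linarith
    have c4 : ‖(E lo h (-1) - 1) * (τ * P) + E lo h (-1) * (P * ((1 - τ) * P1) + er)‖ ≤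
        4 * (τ * ‖P‖) / 1000 := by
      refine (norm_add_le _ _).trans ?_
      rw [norm_mul, norm_mul, norm_mul, Complex.norm_real, Real.norm_of_nonneg hτ.le]
      have d1 : ‖E lo h (-1) - 1‖ * (τ * ‖P‖) ≤ 1 / 1000 * (τ * ‖P‖) := by gcongr; exact al h
      have d2 : ‖E lo h (-1)‖ * ‖P * ((1 - τ) * P1) + er‖ ≤
        (1 + 1 / 1000) * (2 * (τ * ‖P‖) / 1000) := by gcongr
      linarith
    have c5 := mul_le_mul_of_nonneg_right c4 (by positivity : 0 ≤ ‖u‖ ^ J)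
    have c6 : τ * ‖P‖ ≤ τ * ‖P‖ * ‖u‖ ^ J := le_mul_of_one_le_right (by positivity) uJ
    linarith
  have low : τ * ‖P‖ * ‖u‖ ^ J / 2 ≤
      ‖E tp h (-1) * E lo h u + E lo h (-1) * u ^ J * E tp h u⁻¹‖ := by
    by_cases hw : ‖u - 1‖ ≤ η / 16
    · obtain ⟨s, hs, e⟩ := win hw
      rw [e, norm_mul, norm_mul, norm_mul, norm_pow, Complex.norm_real, Real.norm_of_nonneg hτ.le]
      have := near_ge (x := 1 + s) (b := 1 / 100) (by simpa using hs)
      have p : 0 ≤ τ * ‖P‖ * ‖u‖ ^ J := by positivity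
      nlinarith only [this, p]
    have hu2 : 1 + η / 32 ≤ u.re := by
      have := Complex.norm_le_abs_re_add_abs_im (u - 1)
      simp only [Complex.sub_re, Complex.one_re, Complex.sub_im, Complex.one_im, sub_zero] at this
      rw [abs_of_nonneg (by linarith)] at this
      push Not at hw
      linarith
    have b1 := Q1_re h0 Z hZδ hu2 hi
    have b2 : τ ≤ ‖τ + (1 - τ) * P1‖ := by
      refine le_trans ?_ (Complex.re_le_norm _)
      have e : (1 - τ : ℂ) = ((1 - τ : ℝ) : ℂ) := by push_cast; ring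
      rw [e, Complex.add_re, Complex.re_ofReal_mul, Complex.ofReal_re]
      have : 0 ≤ (1 - τ) * P1.re := mul_nonneg (by linarith) b1
      linarith
    have b3 : τ * ‖P‖ - ω / 1000 ≤ ‖E tp h u⁻¹‖ := by
      have := norm_sub_le (E tp h u⁻¹) er
      rw [show E tp h u⁻¹ - er = P * (τ + (1 - τ) * P1) by rw [eT]; ring, norm_mul] at this
      have : ‖P‖ * τ ≤ ‖P‖ * ‖τ + (1 - τ) * P1‖ := by gcongr
      linarith
    have b4 : ∀ k, ‖lo k‖ ≤ 2 := fun k => by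
      have c1 := N2_q3 hθ hη h1 o hlo zo (k + 1)
      unfold N2 at c1
      rw [sum_range_succ] at c1
      have c2 : 0 ≤ ∑ k ∈ range k, ‖q (1 - η) o k‖ ^ 2 * (1 + η / 2) ^ k :=
        sum_nonneg fun k _ => by positivity
      have c3 : ‖lo k‖ ^ 2 ≤ ‖lo k‖ ^ 2 * (1 + η / 2) ^ k :=
        le_mul_of_one_le_right (by positivity) (one_le_pow₀ (by linarith))
      exact le_of_sq_le_sq (by linarith) (by norm_num)
    have b5 : ‖E lo h u‖ ≤ (h + 1) * (2 * ‖u‖ ^ h) := by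
      refine (norm_sum_le _ _).trans ?_
      have := sum_le_card_nsmul (range (h + 1)) (fun j => ‖lo j * u ^ j‖) (2 * ‖u‖ ^ h)
        fun j hj => by
          rw [norm_mul, norm_pow]
          gcongr
          · exact b4 j
          · simp at hj; omega
      simpa using this
    have b6 : ‖E tp h (-1) * E lo h u‖ ≤ ω / 100 * ‖u‖ ^ J := by
      rw [norm_mul]
      calc ‖E tp h (-1)‖ * ‖E lo h u‖ ≤ 2 * ((h + 1) * (2 * ‖u‖ ^ h)) := by gcongr; linarith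
        _ = 4 * (h + 1) * ‖u‖ ^ h := by ring
        _ ≤ ω / 100 * (1 + η / 32) ^ (h + 1) * ‖u‖ ^ h := by gcongr
        _ ≤ ω / 100 * ‖u‖ ^ (h + 1) * ‖u‖ ^ h := by
            gcongr; exact hu2.trans (Complex.re_le_norm u)
        _ = _ := by rw [hJ]; ring
    have b7 : (1 - 1 / 1000) * ‖u‖ ^ J * (τ * ‖P‖ - ω / 1000) ≤
        ‖E lo h (-1) * u ^ J * E tp h u⁻¹‖ := by
      rw [norm_mul, norm_mul, norm_pow]
      gcongr
      linarith
    have b8 := norm_sub_le (E tp h (-1) * E lo h u + E lo h (-1) * u ^ J * E tp h u⁻¹)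
      (E tp h (-1) * E lo h u)
    rw [add_sub_cancel_left] at b8
    have b9 : ω * ‖u‖ ^ J ≤ τ * ‖P‖ * ‖u‖ ^ J := by gcongr
    have : 0 ≤ ω * ‖u‖ ^ J := by positivity
    linarith
  refine ⟨fun hw => ?_, ?_⟩
  · obtain ⟨s, hs, e⟩ := win hw
    refine ⟨s, hs, ?_⟩
    rw [eR, e, Fm]; ring
  · rw [eR, norm_mul]
    have b1 : δ / 3 ≤ ‖(1 - u) / (1 + u)‖ := by
      have c1 : δ ≤ ‖u - 1‖ := by
        have := Complex.re_le_norm (u - 1)
        simp at this; linarith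
      have c2 : ‖1 + u‖ ≤ ‖u - 1‖ + 2 := by
        have := norm_add_le (u - 1) 2
        rw [show u - 1 + 2 = 1 + u by ring, Complex.norm_two] at this; exact this
      rw [norm_div, le_div_iff₀ (by linarith), norm_sub_rev]
      nlinarith only [c1, c2, hδ, hδη, h1]
    calc _ ≤ δ / 3 * (τ * δ ^ l.length * ‖u‖ ^ J / 2) := by
          have : 0 ≤ τ * δ ^ (l.length + 1) * ‖u‖ ^ J := by positivity
          rw [pow_succ δ] at this ⊢
          linarith
      _ ≤ δ / 3 * (τ * ‖P‖ * ‖u‖ ^ J / 2) := by gcongr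
      _ ≤ _ := by gcongr

end Pool.Agent.H.MP_df6699_an
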