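import Mathlib

set_option autoImplicit false
open Set

namespace Pool.Agent.H.MP_df6699_an

def LD (h : ℂ → ℂ) (D u : ℂ) : Prop := HasDerivAt h (D * h u) u ∧ h u ≠ 0

lemma LD.mul {f g : ℂ → ℂ} {D E u : ℂ} (hf : LD f D u) (hg : LD g E u) :
    LD (fun x => f x * g x) (D + E) u :=
  ⟨(hf.1.mul hg.1).congr_deriv (by ring), mul_ne_zero hf.2 hg.2⟩

lemma LD.inv {f : ℂ → ℂ} {D u : ℂ} (hf : LD f D u) : LD (fun x => (f x)⁻¹) (-D) u :=
  ⟨(hf.1.inv hf.2).congr_deriv (by have := hf.2; field_simp), inv_ne_zero hf.2⟩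

lemma LD.div {f g : ℂ → ℂ} {D E u : ℂ} (hf : LD f D u) (hg : LD g E u) :
    LD (fun x => f x / g x) (D - E) u := by
  simpa [div_eq_mul_inv, sub_eq_add_neg] using hf.mul hg.inv

lemma LD.const {c : ℂ} (hc : c ≠ 0) (u : ℂ) : LD (fun _ => c) 0 u :=
  ⟨by simpa using hasDerivAt_const u c, hc⟩

lemma LD.pow {f : ℂ → ℂ} {D u : ℂ} (hf : LD f D u) (n : ℕ) :
    LD (fun x => f x ^ n) (n * D) u := by
  induction n with
  | zero => simpa using LD.const one_ne_zero u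
  | succ n ih =>
    have := ih.mul hf
    simp only [← pow_succ] at this
    rw [Nat.cast_succ, add_mul, one_mul]; exact this

lemma LD.lin {a u : ℂ} (h : u - a ≠ 0) : LD (fun x => x - a) (u - a)⁻¹ u :=
  ⟨((hasDerivAt_id u).sub_const a).congr_deriv (by field_simp), h⟩

lemma LD.scale {f : ℂ → ℂ} {D u : ℂ} (c : ℂ) (hf : LD f D (c * u)) :
    LD (fun x => f (c * x)) (c * D) u :=
  ⟨(hf.1.comp u ((hasDerivAt_id u).const_mul c)).congr_deriv (by ring), hf.2⟩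

lemma LD.congr {f : ℂ → ℂ} {D E u : ℂ} (hf : LD f D u) (h : D = E) : LD f E u := h ▸ hf

lemma horiz {h D : ℂ → ℂ} {x1 x2 y κ : ℝ} (hx : x1 ≤ x2)
    (hd : ∀ x ∈ Icc x1 x2, LD h (D (x + y * Complex.I)) (x + y * Complex.I) ∧
      κ ≤ (D (x + y * Complex.I)).re) :
    ‖h (x1 + y * Complex.I)‖ * Real.exp (κ * (x2 - x1)) ≤ ‖h (x2 + y * Complex.I)‖ := by
  have der : ∀ x ∈ Icc x1 x2, HasDerivAt
      (fun x : ℝ => ‖h (x + y * Complex.I)‖ ^ 2 * Real.exp (-(2 * κ) * x))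
      (2 * ((D (x + y * Complex.I)).re - κ) *
        (‖h (x + y * Complex.I)‖ ^ 2 * Real.exp (-(2 * κ) * x))) x := fun x hx => by
    have a1 : HasDerivAt (fun x : ℝ => h (x + y * Complex.I))
        (D (x + y * Complex.I) * h (x + y * Complex.I)) x := by
      have := ((hd x hx).1.1.comp (x : ℂ) ((hasDerivAt_id (x : ℂ)).add_const _)).comp_ofReal
      simpa using this
    have a2 := a1.norm_sq.mul ((hasDerivAt_id x).const_mul (-(2 * κ))).exp
    refine a2.congr_deriv ?_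
    simp only [Complex.inner, id, Complex.sq_norm, Complex.normSq_apply, Complex.mul_re,
      Complex.mul_im, Complex.conj_re, Complex.conj_im]
    ring
  have mono := monotoneOn_of_deriv_nonneg (convex_Icc x1 x2)
    (fun x hx => (der x hx).continuousAt.continuousWithinAt)
    (fun x hx => (der x (interior_subset hx)).differentiableAt.differentiableWithinAt)
    (fun x hx => by
      rw [(der x (interior_subset hx)).deriv]
      have := (hd x (interior_subset hx)).2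
      have : 0 ≤ (D (x + y * Complex.I)).re - κ := by linarith
      positivity)
  have := mono ⟨le_rfl, hx⟩ ⟨hx, le_rfl⟩ hx
  simp only at this
  refine le_of_sq_le_sq ?_ (norm_nonneg _)
  have p := Real.exp_pos (-(2 * κ) * x2)
  refine le_of_mul_le_mul_right (le_of_eq_of_le ?_ this) p
  rw [mul_pow, mul_assoc, sq (Real.exp _), ← Real.exp_add, ← Real.exp_add]
  congr 2; ring

lemma horiz' {h D : ℂ → ℂ} {x1 x2 y κ : ℝ} (hx : x1 ≤ x2)
    (hd : ∀ x ∈ Icc x1 x2, LD h (D (x + y * Complex.I)) (x + y * Complex.I) ∧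
      (D (x + y * Complex.I)).re ≤ κ) :
    ‖h (x2 + y * Complex.I)‖ ≤ ‖h (x1 + y * Complex.I)‖ * Real.exp (κ * (x2 - x1)) := by
  have := horiz (h := fun x => (h x)⁻¹) (D := fun x => -D x) (κ := -κ) (y := y) hx
    fun x hx => ⟨(hd x hx).1.inv, by simpa using (hd x hx).2⟩
  have p1 := norm_pos_iff.2 (hd x1 ⟨le_rfl, hx⟩).1.2
  have p2 := norm_pos_iff.2 (hd x2 ⟨hx, le_rfl⟩).1.2
  simp only [norm_inv, neg_mul, Real.exp_neg] at this
  rwa [← mul_inv, inv_le_inv₀ (by positivity) p2] at this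

lemma vert {h D : ℂ → ℂ} {x y δ K : ℝ} (hy : |y| ≤ δ) (hK : K * δ ≤ 1 / 100) (hK0 : 0 < K)
    (hd : ∀ t : ℝ, |t| ≤ δ → LD h (D (x + t * Complex.I)) (x + t * Complex.I) ∧
      ‖D (x + t * Complex.I)‖ ≤ K) :
    ∃ s : ℂ, ‖s‖ ≤ 1 / 50 ∧ h (x + y * Complex.I) = h x * (1 + s) := by
  have h0 : h x ≠ 0 := by simpa using (hd 0 (by simpa using (abs_nonneg _).trans hy)).1.2
  have hδ : 0 ≤ δ := (abs_nonneg _).trans hy
  have ab : ∀ t ∈ Icc (0 : ℝ) 1, |t * y| ≤ δ := fun t ht => by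
    rw [abs_mul, abs_of_nonneg ht.1]
    exact (mul_le_of_le_one_left (abs_nonneg _) ht.2).trans hy
  have der : ∀ t ∈ Icc (0 : ℝ) 1, HasDerivAt
      (fun t : ℝ => h (x + (t * y : ℝ) * Complex.I) / h x - 1)
      (D (x + (t * y : ℝ) * Complex.I) * h (x + (t * y : ℝ) * Complex.I) * (y * Complex.I) / h x)
      t := fun t ht => by
    have a0 : HasDerivAt (fun w : ℂ => x + w * y * Complex.I) (y * Complex.I) (t : ℂ) := by
      simpa using (((hasDerivAt_id (t : ℂ)).mul_const (y : ℂ)).mul_const Complex.I).const_add (x : ℂ)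
    have a1 := (hd _ (ab t ht)).1.1
    rw [Complex.ofReal_mul] at a1
    have := (((a1.comp (t : ℂ) a0).comp_ofReal).div_const (h x)).sub_const 1
    simpa using this
  have g := norm_le_gronwallBound_of_norm_deriv_right_le (δ := 0) (K := 1 / 100) (ε := 1 / 100)
    (a := 0) (b := 1) (fun t ht => (der t ht).continuousAt.continuousWithinAt)
    (fun t ht => (der t (Ico_subset_Icc_self ht)).hasDerivWithinAt)
    (by simp [div_self h0]) (fun t ht => by
      have b1 := (hd _ (ab t (Ico_subset_Icc_self ht))).2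
      set w := h (x + (t * y : ℝ) * Complex.I)
      have b2 : ‖w / h x‖ ≤ ‖w / h x - 1‖ + 1 := by
        simpa using norm_add_le (w / h x - 1) 1
      rw [show D (x + (t * y : ℝ) * Complex.I) * w * (y * Complex.I) / h x =
        D (x + (t * y : ℝ) * Complex.I) * (y * Complex.I) * (w / h x) by ring, norm_mul, norm_mul,
        norm_mul, Complex.norm_I, Complex.norm_real, Real.norm_eq_abs, mul_one]
      calc _ ≤ K * δ * (‖w / h x - 1‖ + 1) := by gcongr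
        _ ≤ 1 / 100 * (‖w / h x - 1‖ + 1) := by gcongr
        _ = _ := by ring) 1 ⟨zero_le_one, le_rfl⟩
  refine ⟨h (x + y * Complex.I) / h x - 1, ?_, by field_simp; ring⟩
  rw [gronwallBound_of_K_ne_0 (by norm_num)] at g
  simp only [one_mul, sub_zero, mul_one, zero_mul, zero_add] at g
  have := Real.abs_exp_sub_one_le (x := 1 / 100) (by rw [abs_of_pos] <;> norm_num)
  rw [abs_of_pos (by norm_num : (0 : ℝ) < 1 / 100)] at this
  linarith [le_abs_self (Real.exp (1 / 100) - 1)]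

theorem cross {h D : ℂ → ℂ} {xL xR x0 lam δ κ K : ℝ} (hl : 0 < lam)
    (hL : xL ≤ x0 - lam) (hR : x0 + lam ≤ xR) (hK : K * δ ≤ 1 / 100) (hK0 : 0 < K)
    (hκ : 10000 ≤ κ * lam) (h1 : ‖h x0‖ = 1) (hre : ∀ x ∈ Icc xL xR, (h x).im = 0)
    (hd : ∀ u : ℂ, u.re ∈ Icc xL xR → |u.im| ≤ δ → LD h (D u) u ∧ -(κ / 2) ≤ (D u).re ∧
      (lam / 2 ≤ |u.re - x0| → κ ≤ (D u).re) ∧ (|u.re - x0| ≤ lam → ‖D u‖ ≤ K))
    (u : ℂ) (hu : u.re ∈ Icc xL xR) (hi : |u.im| ≤ δ) :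
    (u.re ≤ x0 - lam → ‖h u‖ ≤ 1 / 1000) ∧ (x0 + lam ≤ u.re → 1000 ≤ ‖h u‖) ∧
      (|u.re - x0| ≤ lam → ∃ (p : ℝ) (s : ℂ), ‖s‖ ≤ 1 / 50 ∧ h u = p * (1 + s)) := by
  have hκ0 : 0 < κ := by
    by_contra hc
    push Not at hc
    nlinarith
  have hd' : ∀ x y : ℝ, x ∈ Icc xL xR → |y| ≤ δ →
      LD h (D (x + y * Complex.I)) (x + y * Complex.I) ∧ -(κ / 2) ≤ (D (x + y * Complex.I)).re ∧
      (lam / 2 ≤ |x - x0| → κ ≤ (D (x + y * Complex.I)).re) ∧
      (|x - x0| ≤ lam → ‖D (x + y * Complex.I)‖ ≤ K) := fun x y hx hy => by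
    simpa using hd (x + y * Complex.I) (by simpa using hx) (by simpa using hy)
  have zone : ∀ x : ℝ, |x - x0| ≤ lam →
      ∃ s : ℂ, ‖s‖ ≤ 1 / 50 ∧ h (x + u.im * Complex.I) = h x * (1 + s) := fun x hx => by
    have m : x ∈ Icc xL xR := by
      rw [abs_le] at hx; constructor <;> linarith
    exact vert (D := D) hi hK hK0 fun t ht => ⟨(hd' x t m ht).1, (hd' x t m ht).2.2.2 hx⟩
  obtain ⟨s, hs, e⟩ := zone x0 (by simp [hl.le])
  have c1 : ‖h (x0 + u.im * Complex.I)‖ ≤ 2 := by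
    rw [e, norm_mul, h1, one_mul]
    have := norm_add_le 1 s
    rw [norm_one] at this; linarith
  have c2 : 1 / 2 ≤ ‖h (x0 + u.im * Complex.I)‖ := by
    rw [e, norm_mul, h1, one_mul]
    have := norm_sub_norm_le 1 (-s)
    rw [norm_one, norm_neg, sub_neg_eq_add] at this; linarith
  have ex : 2500 ≤ Real.exp (κ * lam / 4) := by linarith [Real.add_one_le_exp (κ * lam / 4)]
  have eu : h u = h (u.re + u.im * Complex.I) := by rw [Complex.re_add_im]
  refine ⟨fun hx => ?_, fun hx => ?_, fun hx => ?_⟩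
  · have b1 := horiz (h := h) (D := D) (y := u.im) (κ := κ) (by linarith : u.re ≤ x0 - lam / 2)
      fun x m => by
        have := hd' x u.im ⟨by linarith [m.1, hu.1], by linarith [m.2]⟩ hi
        exact ⟨this.1, this.2.2.1 (by rw [abs_of_neg] <;> linarith [m.2])⟩
    have b2 := horiz (h := h) (D := D) (y := u.im) (κ := -(κ / 2)) (by linarith : x0 - lam / 2 ≤ x0)
      fun x m => by
        have := hd' x u.im ⟨by linarith [m.1], by linarith [m.2]⟩ hi
        exact ⟨this.1, this.2.1⟩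
    rw [← eu] at b1
    have b3 : Real.exp (κ * lam / 4) ≤ Real.exp (κ * (x0 - lam / 2 - u.re)) *
        Real.exp (-(κ / 2) * (x0 - (x0 - lam / 2))) := by
      rw [← Real.exp_add]; gcongr; nlinarith
    have b4 := mul_le_mul_of_nonneg_right b1 (Real.exp_pos (-(κ / 2) * (x0 - (x0 - lam / 2)))).le
    have b5 := mul_le_mul_of_nonneg_left (ex.trans b3) (norm_nonneg (h u))
    linarith
  · have b1 := horiz (h := h) (D := D) (y := u.im) (κ := κ) (by linarith : x0 + lam / 2 ≤ u.re)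
      fun x m => by
        have := hd' x u.im ⟨by linarith [m.1], by linarith [m.2, hu.2]⟩ hi
        exact ⟨this.1, this.2.2.1 (by rw [abs_of_pos] <;> linarith [m.1])⟩
    have b2 := horiz (h := h) (D := D) (y := u.im) (κ := -(κ / 2)) (by linarith : x0 ≤ x0 + lam / 2)
      fun x m => by
        have := hd' x u.im ⟨by linarith [m.1], by linarith [m.2]⟩ hi
        exact ⟨this.1, this.2.1⟩
    rw [← eu] at b1
    have b3 : Real.exp (κ * lam / 4) ≤ Real.exp (-(κ / 2) * (x0 + lam / 2 - x0)) *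
        Real.exp (κ * (u.re - (x0 + lam / 2))) := by
      rw [← Real.exp_add]; gcongr; nlinarith
    have b4 := mul_le_mul_of_nonneg_right b2 (Real.exp_pos (κ * (u.re - (x0 + lam / 2)))).le
    have b5 := mul_le_mul c2 (ex.trans b3) (by norm_num) (norm_nonneg _)
    linarith
  · obtain ⟨s, hs, e⟩ := zone u.re hx
    refine ⟨(h u.re).re, s, hs, ?_⟩
    rw [eu, e]
    congr 1
    exact Complex.ext (by simp) (by simpa using hre _ hu)

lemma clus {x : ℂ} {ρ δ σ : ℝ} (hρ : 0 < ρ) (hσ : σ ^ 2 = ρ ^ 2) (hδ : δ ≤ ρ / 100)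
    (hi : |x.im| ≤ δ) :
    x ^ 2 + ρ ^ 2 ≠ 0 ∧
    (x.re - σ) ^ 2 / (4 * (x.re - σ) ^ 2 + 8 * ρ ^ 2) - 11 * δ ^ 2 / ρ ^ 2 ≤
      ((x - σ) ^ 2 / (x ^ 2 + ρ ^ 2)).re ∧
    ‖(x - σ) ^ 2 / (x ^ 2 + ρ ^ 2)‖ ≤ 2 * ((x.re - σ) ^ 2 + δ ^ 2) / ρ ^ 2 ∧
    ‖(x - σ) ^ 2 / (x ^ 2 + ρ ^ 2)‖ ≤ 3 := by
  have hδ0 : 0 ≤ δ := (abs_nonneg _).trans hi
  set p := x.re with hp
  set y := x.im with hy
  have y2 : y ^ 2 ≤ δ ^ 2 := by rw [← sq_abs]; gcongr
  have d2 : δ ^ 2 ≤ ρ ^ 2 / 10000 := by nlinarith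
  set n := p ^ 2 + ρ ^ 2 with hn
  have n0 : 0 < n := by positivity
  have nρ : ρ ^ 2 ≤ n := by nlinarith
  have a1 : ‖x ^ 2 + ρ ^ 2 - n‖ ≤ n / 8 := by
    have e : x ^ 2 + ρ ^ 2 - n = (y : ℂ) * (2 * p * Complex.I - y) := by
      rw [hn]; push_cast
      conv_lhs => rw [← Complex.re_add_im x]
      linear_combination (y : ℂ) ^ 2 * Complex.I_sq
    rw [e, norm_mul, Complex.norm_real, Real.norm_eq_abs]
    have : ‖2 * p * Complex.I - (y : ℂ)‖ ≤ 2 * |p| + |y| := by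
      refine (norm_sub_le _ _).trans ?_
      simp
    have b : |p| * ρ ≤ n / 2 := by nlinarith [sq_nonneg (|p| - ρ), sq_abs p]
    calc _ ≤ ρ / 100 * (2 * |p| + ρ / 100) := by
          gcongr
          · linarith
          · linarith
      _ ≤ _ := by nlinarith
  have a2 : 7 / 8 * n ≤ ‖x ^ 2 + ρ ^ 2‖ := by
    have := norm_sub_norm_le (n : ℂ) (x ^ 2 + ρ ^ 2)
    rw [norm_sub_rev, Complex.norm_real, Real.norm_of_nonneg n0.le] at this
    linarith
  have nz : x ^ 2 + ρ ^ 2 ≠ 0 := by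
    intro h; rw [h, norm_zero] at a2; linarith
  have a3 : ‖(x - σ) ^ 2‖ = (p - σ) ^ 2 + y ^ 2 := by
    rw [norm_pow, Complex.sq_norm, Complex.normSq_apply]; simp [hp, hy]; ring
  set s := p - σ with hs
  have a4 : ‖(x - σ) ^ 2 / (x ^ 2 + ρ ^ 2)‖ * (7 / 8 * n) ≤ s ^ 2 + δ ^ 2 := by
    rw [norm_div, a3, div_mul_eq_mul_div, div_le_iff₀ (by linarith)]
    gcongr
  have q0 := norm_nonneg ((x - σ) ^ 2 / (x ^ 2 + ρ ^ 2))
  have s2 : s ^ 2 ≤ 2 * n := by nlinarith [sq_nonneg (p + σ)]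
  refine ⟨nz, ?_, ?_, ?_⟩
  · set w := (x - σ) ^ 2 / (x ^ 2 + ρ ^ 2) with hw
    have e : (n : ℂ) * w = (x - σ) ^ 2 - (x ^ 2 + ρ ^ 2 - n) * w := by
      rw [hw]; field_simp; ring
    have b1 : ((x - σ) ^ 2).re = s ^ 2 - y ^ 2 := by simp [sq, hs, hp, hy]
    have b2 := Complex.re_le_norm ((x ^ 2 + ρ ^ 2 - n) * w)
    rw [norm_mul] at b2
    have b3 := congrArg Complex.re e
    rw [Complex.re_ofReal_mul, Complex.sub_re, b1] at b3
    have b4 := mul_le_mul_of_nonneg_right a1 q0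
    have b5 : s ^ 2 / 2 - 11 * δ ^ 2 ≤ n * w.re := by nlinarith [sq_nonneg s, sq_nonneg δ]
    have b6 : s ^ 2 / (4 * s ^ 2 + 8 * ρ ^ 2) ≤ s ^ 2 / 2 / n := by
      rw [div_div]
      gcongr
      have : p = s + σ := by rw [hs]; ring
      rw [hn, this]
      nlinarith [sq_nonneg (s - σ)]
    have b7 : 11 * δ ^ 2 / n ≤ 11 * δ ^ 2 / ρ ^ 2 := by gcongr
    have b8 : s ^ 2 / 2 / n - 11 * δ ^ 2 / n ≤ w.re := by
      rw [← sub_div, div_le_iff₀ n0]; linarith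
    linarith
  · rw [le_div_iff₀ (by positivity)]
    nlinarith
  · by_contra hc
    push Not at hc
    nlinarith

end Pool.Agent.H.MP_df6699_an
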