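import Pool.Agent.H.MP_df6699_an.C
import Pool.Agent.H.MP_df6699_an.D

set_option autoImplicit false
open Set

namespace Pool.Agent.H.MP_df6699_an

def Spec (J : ℕ) (δ η τ : ℝ) (l : List ℂ) (σ : ℕ → ℂ) : Prop :=
  (∀ k < J, ‖σ k - (-1) ^ k‖ ≤ 1 / 100) ∧ (∀ k, J ≤ k → σ k = 0) ∧
    ∀ u : ℂ, 1 + δ ≤ u.re → |u.im| ≤ δ → (∀ a ∈ l, 5 * δ ≤ ‖u - a‖) →
      (‖u - 1‖ ≤ η / 16 → ∃ s : ℂ, ‖s‖ ≤ 1 / 100 ∧
        Rk σ J u = -(τ * Fm J (1 - η) l u * (1 + s))) ∧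
      τ * δ ^ (l.length + 1) / 10 * ‖u‖ ^ J ≤ ‖Rk σ J u‖

structure Par where
  δ : ℝ
  lam : ℝ
  ρ : ℝ
  L : ℝ
  L1 : ℝ
  θ : ℝ
  m : ℕ
  J : ℕ
  G0 : ℕ
  hδ : 0 < δ
  s1 : 100 * δ ≤ lam
  s2 : 100 * lam ≤ ρ
  s3 : 100000 * ρ ≤ L
  s4 : 1000 * L ≤ L1
  s5 : 100 * L1 ≤ θ * θ ^ 2
  hθ : 0 < θ
  s6 : θ ≤ 1 / 10
  hm : 100 ≤ m
  hJ0 : 0 < J
  hμ : (G0 : ℝ) = m * lam ^ 2 / ρ ^ 3
  k1 : G0 * δ ≤ 1 / 2000
  k2 : 1000000 ≤ G0 * lam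
  k3 : 8 / L1 + J + 1 + 6 * m / θ ^ 2 ≤ G0 / 100000
  k3b : 1 + 8 * m * L1 / ρ ≤ G0 / 100000
  k3c : 1 / L ≤ G0 / 100000
  k4 : 1000000 * ρ ^ 3 ≤ lam * L ^ 2
  k6 : G0 ≤ m / (1000 * L)
  k7 : Real.exp (-(m * L / (50 * ρ))) ≤ δ ^ (6 * m + 1)
  k9 : 16 * m / L1 ≤ G0 / 10
  k9b : Real.exp (-(G0 * L1 / 10)) ≤ δ ^ (6 * m + 1) / 10000
  k9c : G0 * L1 ≤ 8 * m * L / ρ
  hJ : J * (5 * L1) ≤ 1 / 100
  blk : ∀ (l : List ℂ) (τ : ℝ), (∀ a ∈ l, ‖a - 1‖ ≤ θ * θ ^ 2) → l.length ≤ 6 * m →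
    Real.exp (-(8 * m * L / ρ)) ≤ τ → τ ≤ 1 → ∃ σ, Spec J δ (θ ^ 2) τ l σ

lemma inv_diff {x y : ℂ} {A B : ℝ} (hA : 0 < A) (hB : 0 < B) (hx : A ≤ ‖x‖) (hy : B ≤ ‖y‖) :
    ‖x⁻¹ - y⁻¹‖ ≤ ‖x - y‖ / (A * B) ∧ ‖x⁻¹ - y⁻¹‖ ≤ 1 / A + 1 / B := by
  have x0 : x ≠ 0 := norm_pos_iff.1 (by linarith)
  have y0 : y ≠ 0 := norm_pos_iff.1 (by linarith)
  constructor
  · rw [inv_sub_inv x0 y0, norm_div, norm_mul, norm_sub_rev]; gcongr
  · refine (norm_sub_le _ _).trans ?_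
    rw [norm_inv, norm_inv, ← one_div, ← one_div]; gcongr

lemma inv_le' {x : ℂ} {A : ℝ} (hA : 0 < A) (hx : A ≤ ‖x‖) : ‖x⁻¹‖ ≤ 1 / A := by
  rw [norm_inv, ← one_div]; gcongr

lemma re_sub_le (u : ℂ) (a : ℝ) : u.re - a ≤ ‖u - a‖ := by
  simpa using Complex.re_le_norm (u - a)

namespace Par
variable (p : Par)

noncomputable def ξ : ℝ := 1 + p.L1
noncomputable def e : ℝ := p.ξ - 3 * p.L / 2
noncomputable def w0 : ℝ := p.ξ + p.ρ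
noncomputable def v : ℝ := p.ξ - p.ρ
noncomputable def zp : ℂ := p.ξ + p.ρ * Complex.I
noncomputable def zm : ℂ := p.ξ - p.ρ * Complex.I
noncomputable def l (a : ℕ) : List ℂ :=
  List.replicate a (p.e : ℂ) ++ (List.replicate p.m p.zp ++ List.replicate p.m p.zm)
noncomputable def F (a : ℕ) (u : ℂ) : ℂ := Fm p.J (1 - p.θ ^ 2) (p.l a) u
noncomputable def Es (a : ℕ) (u : ℂ) : ℂ :=
  (u - 1)⁻¹ + p.J * u⁻¹ - (u + 1)⁻¹ - (a + 2 * p.m : ℕ) * (u - (1 - p.θ ^ 2 : ℝ))⁻¹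
noncomputable def DF (a : ℕ) (u : ℂ) : ℂ :=
  p.Es a u + a * (u - p.e)⁻¹ + p.m * (u - p.zp)⁻¹ + p.m * (u - p.zm)⁻¹
def Win (u : ℂ) : Prop := 1 + p.L1 / 8 ≤ u.re ∧ u.re ≤ 1 + 3 * p.L1 ∧ |u.im| ≤ p.δ
def Ok (a : ℕ) (x : ℝ) : Prop := a = 0 ∨ p.e + 2 * p.L / 5 ≤ x

lemma sc : 0 < p.δ ∧ 100 * p.δ ≤ p.lam ∧ 100 * p.lam ≤ p.ρ ∧ 100000 * p.ρ ≤ p.L ∧
    1000 * p.L ≤ p.L1 ∧ p.L1 ≤ 1 / 100000 ∧ 1000 * p.L1 ≤ p.θ ^ 2 ∧ p.θ ^ 2 ≤ 1 / 100 := by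
  have h1 := p.s5
  have h2 := p.s6
  have h3 := p.hθ
  have h4 : p.θ ^ 2 ≤ 1 / 100 := by nlinarith
  have h5 : p.θ * p.θ ^ 2 ≤ 1 / 10 * p.θ ^ 2 := by gcongr
  exact ⟨p.hδ, p.s1, p.s2, p.s3, p.s4, by linarith, by linarith, h4⟩

lemma F_eq (a : ℕ) (u : ℂ) : p.F a u = (u - 1) * u ^ p.J / (u + 1) *
    ((u - p.e) ^ a * (u - p.zp) ^ p.m * (u - p.zm) ^ p.m /
      (u - (1 - p.θ ^ 2 : ℝ)) ^ (a + 2 * p.m)) := by
  simp only [F, Fm, P0, l, List.map_append, List.prod_append, List.map_replicate,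
    List.prod_replicate, div_pow]
  rw [add_comm 1 u, div_mul_div_comm, div_mul_div_comm, ← pow_add, ← pow_add, two_mul, mul_assoc]

lemma len (a : ℕ) : (p.l a).length = a + 2 * p.m := by simp [l]; ring

lemma zp_ge {u : ℂ} (hi : |u.im| ≤ p.δ) : p.ρ / 2 ≤ ‖u - p.zp‖ ∧ p.ρ / 2 ≤ ‖u - p.zm‖ := by
  obtain ⟨h0, h1, h2, -⟩ := p.sc
  have a1 := Complex.abs_im_le_norm (u - p.zp)
  have a2 := Complex.abs_im_le_norm (u - p.zm)
  simp [zp, zm] at a1 a2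
  rw [abs_le] at hi
  constructor
  · have := neg_abs_le (u.im - p.ρ); simp only [zp]; linarith
  · have := le_abs_self (u.im + p.ρ); simp only [zm]; linarith

lemma dist {a : ℕ} {u : ℂ} (hi : |u.im| ≤ p.δ) (ho : p.Ok a u.re) :
    ∀ b ∈ p.l a, 5 * p.δ ≤ ‖u - b‖ := by
  obtain ⟨h0, h1, h2, h3, -⟩ := p.sc
  have := p.zp_ge hi
  intro b hb
  simp only [l, List.mem_append, List.mem_replicate] at hb
  rcases hb with ⟨h, rfl⟩ | ⟨-, rfl⟩ | ⟨-, rfl⟩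
  · rcases ho with ho | ho
    · exact absurd ho h
    · linarith [re_sub_le u p.e]
  · linarith
  · linarith

lemma l_near (a : ℕ) : ∀ b ∈ p.l a, ‖b - 1‖ ≤ 2 * p.L1 := by
  obtain ⟨h0, h1, h2, h3, h4, -⟩ := p.sc
  intro b hb
  simp only [l, List.mem_append, List.mem_replicate] at hb
  refine (Complex.norm_le_abs_re_add_abs_im _).trans ?_
  rcases hb with ⟨h, rfl⟩ | ⟨-, rfl⟩ | ⟨-, rfl⟩
  · simp [e, ξ]; rw [abs_le]; constructor <;> linarith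
  · simp [zp, ξ]; rw [abs_of_pos, abs_of_pos] <;> linarith
  · simp [zm, ξ]; rw [abs_of_pos, abs_of_pos] <;> linarith

lemma l_near' (a : ℕ) : ∀ b ∈ p.l a, ‖b - 1‖ ≤ p.θ * p.θ ^ 2 := fun b hb => by
  obtain ⟨h0, h1, h2, h3, h4, -⟩ := p.sc
  linarith [p.l_near a b hb, p.s5]

variable {p}

lemma Win.near {u : ℂ} (h : p.Win u) : ‖u - 1‖ ≤ 4 * p.L1 := by
  obtain ⟨h0, h1, h2, h3, h4, -⟩ := p.sc
  refine (Complex.norm_le_abs_re_add_abs_im _).trans ?_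
  simp only [Complex.sub_re, Complex.one_re, Complex.sub_im, Complex.one_im, sub_zero]
  rw [abs_of_nonneg (by linarith [h.1])]
  linarith [h.2.1, h.2.2]

lemma powJ {u : ℂ} (h : ‖u - 1‖ ≤ 5 * p.L1) : ‖u‖ ^ p.J ≤ 2 := by
  have := pow_near (u - 1) p.J (x := 1 / 100) (le_trans (by gcongr) p.hJ) (by norm_num)
  rw [add_sub_cancel] at this
  rw [← norm_pow]
  linarith [near_le this]

lemma F_ge {a : ℕ} (ha : 5 * a ≤ 16 * p.m) {u : ℂ} (h : p.Win u) (ho : p.Ok a u.re) :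
    p.δ ^ (6 * p.m + 1) ≤ ‖p.F a u‖ := by
  obtain ⟨h0, h1, h2, h3, h4, h5, h6, h7⟩ := p.sc
  have a1 := P0_ge p.hθ rfl (by linarith) h0 (by linarith) (p.l a) (p.l_near' a)
    (by linarith [h.1]) (p.dist h.2.2 ho)
  have a2 : p.δ ^ (6 * p.m) ≤ p.δ ^ (p.l a).length :=
    pow_le_pow_of_le_one h0.le (by linarith) (by rw [len]; omega)
  have a3 : p.L1 / 8 ≤ ‖u - 1‖ := by
    have := re_sub_le u 1
    simp only [Complex.ofReal_one] at this; linarith [h.1]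
  have a4 : 1 ≤ ‖u‖ ^ p.J := one_le_pow₀ (by linarith [h.1, Complex.re_le_norm u])
  have a5 : ‖1 + u‖ ≤ 3 := by
    have := near_le h.near
    linarith [norm_add_le 1 u, norm_one (α := ℂ)]
  have a6 : 0 < ‖1 + u‖ := by
    have := Complex.re_le_norm (1 + u)
    simp at this; linarith [h.1]
  rw [F, Fm, norm_mul, norm_div, norm_mul, norm_pow, pow_succ']
  refine mul_le_mul ?_ (a2.trans a1) (by positivity) (by positivity)
  rw [le_div_iff₀ a6]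
  calc p.δ * ‖1 + u‖ ≤ p.δ * 3 := by gcongr
    _ ≤ p.L1 / 8 * 1 := by linarith
    _ ≤ _ := by gcongr

lemma F_ne {a : ℕ} (ha : 5 * a ≤ 16 * p.m) {u : ℂ} (h : p.Win u) (ho : p.Ok a u.re) :
    p.F a u ≠ 0 := norm_pos_iff.1 (lt_of_lt_of_le (pow_pos p.hδ _) (F_ge ha h ho))

lemma F_le (a : ℕ) {u : ℂ} (h : p.Win u) : ‖p.F a u‖ ≤ 1 := by
  obtain ⟨h0, h1, h2, h3, h4, h5, h6, h7⟩ := p.sc
  have n := h.near
  have a1 : ∀ l : List ℂ, (∀ b ∈ l, ‖b - 1‖ ≤ 2 * p.L1) → ‖P0 (1 - p.θ ^ 2) l u‖ ≤ 1 := by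
    intro l hl
    induction l with
    | nil => simp [P0]
    | cons b l ih =>
      have e : P0 (1 - p.θ ^ 2) (b :: l) u =
          (u - b) / (u - ((1 - p.θ ^ 2 : ℝ) : ℂ)) * P0 (1 - p.θ ^ 2) l u := by simp [P0]
      rw [e, norm_mul]
      refine mul_le_one₀ ?_ (norm_nonneg _) (ih fun c hc => hl c (by simp [hc]))
      have b1 := re_sub_le u (1 - p.θ ^ 2)
      have b2 := norm_sub_le (u - 1) (b - 1)
      rw [show u - 1 - (b - 1) = u - b by ring] at b2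
      rw [norm_div, div_le_one (by linarith [h.1])]
      linarith [hl b (by simp), h.1]
  have a6 : 1 ≤ ‖1 + u‖ := by
    have := Complex.re_le_norm (1 + u)
    simp at this; linarith [h.1]
  rw [F, Fm, norm_mul, norm_div, norm_mul, norm_pow]
  refine mul_le_one₀ ?_ (norm_nonneg _) (a1 _ (p.l_near a))
  rw [div_le_one (by linarith)]
  calc ‖u - 1‖ * ‖u‖ ^ p.J ≤ 4 * p.L1 * 2 :=
      mul_le_mul n (powJ (by linarith)) (by positivity) (by linarith)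
    _ ≤ _ := by linarith

lemma F_im (a : ℕ) (x : ℝ) : (p.F a x).im = 0 := by
  have e : (x - p.zp) * (x - p.zm) = (((x - p.ξ) ^ 2 + p.ρ ^ 2 : ℝ) : ℂ) := by
    simp only [zp, zm]; push_cast
    linear_combination (-(p.ρ : ℂ) ^ 2) * Complex.I_sq
  rw [F_eq, mul_assoc ((x - p.e : ℂ) ^ a), ← mul_pow, e]
  norm_cast

lemma F_LD {a : ℕ} {u : ℂ} (h : p.Win u) (ho : p.Ok a u.re) : LD (p.F a) (p.DF a u) u := by
  obtain ⟨h0, h1, h2, h3, h4, h5, h6, h7⟩ := p.sc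
  have nz : ∀ b : ℝ, b < u.re → u - b ≠ 0 := fun b hb =>
    norm_pos_iff.1 (by linarith [re_sub_le u b])
  have a1 : LD (fun x : ℂ => (x - p.e) ^ a) (a * (u - p.e)⁻¹) u := by
    rcases ho with rfl | ho
    · simpa using LD.const one_ne_zero u
    · exact (LD.lin (nz _ (by linarith))).pow a
  have z := p.zp_ge h.2.2
  have a2 := (LD.lin (norm_pos_iff.1 (by linarith : 0 < ‖u - p.zp‖))).pow p.m
  have a3 := (LD.lin (norm_pos_iff.1 (by linarith : 0 < ‖u - p.zm‖))).pow p.m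
  have a4 := (LD.lin (nz (1 - p.θ ^ 2) (by linarith [h.1]))).pow (a + 2 * p.m)
  have a5 := LD.lin (nz 1 (by linarith [h.1]))
  have a6 := (LD.lin (nz 0 (by linarith [h.1]))).pow p.J
  have a7 := LD.lin (nz (-1 : ℝ) (by linarith [h.1]))
  have := ((a5.mul a6).div a7).mul (((a1.mul a2).mul a3).div a4)
  have e : p.F a = _ := funext (p.F_eq a)
  rw [e]
  simp only [Complex.ofReal_one, Complex.ofReal_zero, sub_zero, Complex.ofReal_neg,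
    sub_neg_eq_add] at this
  exact this.congr (by simp only [DF, Es]; ring)

lemma Es_le {a : ℕ} (ha : 5 * a ≤ 16 * p.m) {u : ℂ} (h : p.Win u) :
    ‖p.Es a u‖ ≤ p.G0 / 100000 := by
  obtain ⟨h0, h1, h2, h3, h4, h5, h6, h7⟩ := p.sc
  refine le_trans ?_ p.k3
  have a1 : ‖(u - 1)⁻¹‖ ≤ 8 / p.L1 := by
    have := re_sub_le u 1
    refine (inv_le' (A := p.L1 / 8) (by linarith) (by push_cast at this; linarith [h.1])).trans ?_
    rw [one_div_div]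
  have a2 : ‖u⁻¹‖ ≤ 1 / 1 := inv_le' one_pos (by linarith [h.1, Complex.re_le_norm u])
  have a3 : ‖(u + 1)⁻¹‖ ≤ 1 / 1 := inv_le' one_pos (by
    have := Complex.re_le_norm (u + 1)
    simp at this; linarith [h.1])
  have a4 : ‖(u - (1 - p.θ ^ 2 : ℝ))⁻¹‖ ≤ 1 / p.θ ^ 2 :=
    inv_le' (by linarith) (by linarith [h.1, re_sub_le u (1 - p.θ ^ 2)])
  have a5 : ((a + 2 * p.m : ℕ) : ℝ) ≤ 6 * p.m := by exact_mod_cast (by omega : a + 2 * p.m ≤ 6 * p.m)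
  unfold Es
  refine (norm_sub_le _ _).trans (add_le_add ((norm_sub_le _ _).trans (add_le_add
    ((norm_add_le _ _).trans (add_le_add a1 ?_)) (by linarith))) ?_)
  · rw [norm_mul, Complex.norm_natCast]
    exact mul_le_of_le_one_right (by positivity) (by linarith)
  · rw [norm_mul, Complex.norm_natCast, div_eq_mul_one_div]
    gcongr

lemma cc {x E D : ℂ} {σ : ℝ} (hσ : σ ^ 2 = p.ρ ^ 2) (hi : |x.im| ≤ p.δ)
    (hD : D = (p.m / p.ρ : ℝ) * ((x - σ) ^ 2 / (x ^ 2 + p.ρ ^ 2)) + E)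
    (e1 : ‖E‖ ≤ p.G0 / 1000 + p.m * |x.re - σ| * p.lam / (1000 * p.ρ ^ 3))
    (e2 : ‖E‖ ≤ p.G0 / 1000 + p.m / (1000 * p.ρ)) :
    -(p.G0 / 100 / 2) ≤ D.re ∧ (p.lam / 2 ≤ |x.re - σ| → p.G0 / 100 ≤ D.re) ∧
      (|x.re - σ| ≤ p.lam → ‖D‖ ≤ 20 * p.G0) ∧ (p.ρ ≤ |x.re - σ| → p.m / (20 * p.ρ) ≤ D.re) ∧
      ‖D‖ ≤ 4 * p.m / p.ρ := by
  obtain ⟨h0, h1, h2, h3, -⟩ := p.sc
  have hρ : 0 < p.ρ := by linarith
  have hl : 0 < p.lam := by linarith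
  obtain ⟨-, c1, c2, c3⟩ := clus hρ hσ (by linarith) hi
  have hμ := p.hμ
  set μ : ℝ := (p.G0 : ℝ)
  set M : ℝ := p.m / p.ρ with hM
  have M0 : 0 ≤ M := by positivity
  set s := |x.re - σ| with hs
  have s0 : 0 ≤ s := abs_nonneg _
  rw [← sq_abs (x.re - σ), ← hs] at c1 c2
  set w := (x - σ) ^ 2 / (x ^ 2 + p.ρ ^ 2)
  set t := s / p.ρ with ht
  set b := p.lam / p.ρ with hb
  set d := p.δ / p.ρ with hd
  have t0 : 0 ≤ t := by positivity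
  have b0 : 0 < b := by positivity
  have d0 : 0 < d := by positivity
  have db : 100 * d ≤ b := by rw [hd, hb, ← mul_div_assoc]; gcongr
  have b1 : b ≤ 1 / 100 := by rw [hb, div_le_iff₀ hρ]; linarith
  have eμ : μ = M * b ^ 2 := by rw [hμ, hM, hb]; field_simp
  have f1 : p.m * s * p.lam / (1000 * p.ρ ^ 3) = M * (t * b) / 1000 := by
    rw [hM, ht, hb]; field_simp
  have f2 : p.m / (1000 * p.ρ) = M / 1000 := by rw [hM]; field_simp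
  have f3 : s ^ 2 / (4 * s ^ 2 + 8 * p.ρ ^ 2) = t ^ 2 / (4 * t ^ 2 + 8) := by rw [ht]; field_simp
  have f4 : 11 * p.δ ^ 2 / p.ρ ^ 2 = 11 * d ^ 2 := by rw [hd]; field_simp
  have f5 : 2 * (s ^ 2 + p.δ ^ 2) / p.ρ ^ 2 = 2 * (t ^ 2 + d ^ 2) := by rw [ht, hd]; field_simp
  have f6 : p.m / (20 * p.ρ) = M / 20 := by rw [hM]; field_simp
  have f7 : 4 * p.m / p.ρ = 4 * M := by rw [hM]; ring
  rw [f1] at e1; rw [f2] at e2; rw [f3, f4] at c1; rw [f5] at c2; rw [f6, f7]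
  have d2 : d ^ 2 ≤ b ^ 2 / 10000 := by nlinarith only [db, d0]
  have b2 : b ^ 2 ≤ 1 / 10000 := by nlinarith only [b1, b0]
  have r1 : M * (t ^ 2 / (4 * t ^ 2 + 8) - 11 * (b ^ 2 / 10000)) - ‖E‖ ≤ D.re := by
    rw [hD, Complex.add_re, Complex.re_ofReal_mul]
    have := (abs_le.1 (Complex.abs_re_le_norm E)).1
    have : M * (t ^ 2 / (4 * t ^ 2 + 8) - 11 * (b ^ 2 / 10000)) ≤ M * w.re := by
      gcongr; linarith
    linarith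
  have r2 : ‖D‖ ≤ M * ‖w‖ + ‖E‖ := by
    rw [hD]
    refine (norm_add_le _ _).trans ?_
    rw [norm_mul, Complex.norm_real, Real.norm_of_nonneg M0]
  have μM : μ ≤ M / 10000 := by rw [eμ]; nlinarith only [b2, M0]
  have μ0 : 0 ≤ μ := by positivity
  have big : 1 ≤ t → M / 20 ≤ D.re := fun h => by
    have : 1 / 12 ≤ t ^ 2 / (4 * t ^ 2 + 8) := by
      rw [div_le_div_iff₀ (by norm_num) (by positivity)]; nlinarith only [h]
    have := mul_le_mul_of_nonneg_left this M0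
    linarith
  have mid : b / 2 ≤ t → μ / 100 ≤ D.re := fun h => by
    rcases le_total 1 t with h' | h'
    · linarith [big h']
    have a1 : t ^ 2 / 12 ≤ t ^ 2 / (4 * t ^ 2 + 8) := by
      gcongr; nlinarith only [h', t0]
    have a2 := mul_le_mul_of_nonneg_left a1 M0
    have a3 : M * (t * b) ≤ M * (2 * t ^ 2) :=
      mul_le_mul_of_nonneg_left (by nlinarith only [h, t0]) M0
    have a4 : M * (b ^ 2 / 4) ≤ M * t ^ 2 :=
      mul_le_mul_of_nonneg_left (by nlinarith only [h, b0]) M0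
    linarith
  refine ⟨?_, fun h => mid ?_, fun h => ?_, fun h => big ?_, ?_⟩
  · rcases le_total (b / 2) t with h | h
    · linarith [mid h]
    have a1 : 0 ≤ M * (t ^ 2 / (4 * t ^ 2 + 8)) := by positivity
    have a3 : M * (t * b) ≤ M * (b ^ 2 / 2) :=
      mul_le_mul_of_nonneg_left (by nlinarith only [h, b0]) M0
    linarith
  · rw [hb, ht, div_right_comm]; gcongr
  · have h' : t ≤ b := by rw [hb, ht]; gcongr
    have a1 : M * ‖w‖ ≤ M * (3 * b ^ 2) :=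
      mul_le_mul_of_nonneg_left (by nlinarith only [c2, h', t0, d2]) M0
    have a3 : M * (t * b) ≤ M * b ^ 2 :=
      mul_le_mul_of_nonneg_left (by nlinarith only [h', b0]) M0
    linarith
  · rw [ht, le_div_iff₀ hρ]; linarith
  · have := mul_le_mul_of_nonneg_left c3 M0
    linarith

end Par
end Pool.Agent.H.MP_df6699_an
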