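import Pool.Agent.H.MP_df6699_an.E

set_option autoImplicit false
set_option linter.dupNamespace false
open Set

namespace Pool.Agent.H.MP_df6699_an
namespace Par
variable (p : Par)

noncomputable def Γ (a : ℕ) : ℝ := a / (p.w0 - p.e)
noncomputable def Gn (a : ℕ) : ℕ := ⌊p.m / p.ρ + p.Γ a⌋₊
noncomputable def H (a : ℕ) (u : ℂ) : ℂ := ‖p.F a p.w0‖ * (u / p.w0) ^ p.Gn a / p.F a u
noncomputable def DH (a : ℕ) (u : ℂ) : ℂ := p.Gn a * u⁻¹ - p.DF a u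
noncomputable def τ0 : ℝ := Real.exp (-(8 * p.m * p.L / p.ρ))

lemma winR {x : ℝ} (h1 : 1 + p.L1 / 8 ≤ x) (h2 : x ≤ 1 + 3 * p.L1) : p.Win x :=
  ⟨h1, h2, by simpa using p.hδ.le⟩

lemma win_w0 : p.Win p.w0 := by
  obtain ⟨h0, h1, h2, h3, h4, -⟩ := p.sc
  exact p.winR (by simp only [w0, ξ]; linarith) (by simp only [w0, ξ]; linarith)

lemma ok_w0 (a : ℕ) : p.Ok a (p.w0 : ℂ).re := by
  obtain ⟨h0, h1, h2, h3, h4, -⟩ := p.sc
  right; simp only [w0, e, Complex.ofReal_re]; linarith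

lemma divΛ {x : ℝ} (h1 : 1 ≤ x) (h2 : x ≤ 1 + 4 * p.L1) :
    x - 1001 / 1000 * p.L ≤ x / (1 + p.L) ∧ x / (1 + p.L) ≤ x - 999 / 1000 * p.L := by
  obtain ⟨h0, a1, a2, a3, a4, a5, -⟩ := p.sc
  have hL : 0 < p.L := by linarith
  rw [le_div_iff₀ (by linarith), div_le_iff₀ (by linarith)]
  constructor <;> nlinarith

lemma clus_id {u : ℂ} {σ : ℝ} (hσ : σ ^ 2 = p.ρ ^ 2) (hi : |u.im| ≤ p.δ) :
    (u - p.ξ - σ) ^ 2 / ((u - p.ξ) ^ 2 + p.ρ ^ 2) = 1 - σ * ((u - p.zp)⁻¹ + (u - p.zm)⁻¹) := by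
  obtain ⟨h0, h1, h2, -⟩ := p.sc
  have z := p.zp_ge hi
  have n1 : u - p.zp ≠ 0 := norm_pos_iff.1 (by linarith)
  have n2 : u - p.zm ≠ 0 := norm_pos_iff.1 (by linarith)
  have e : (u - p.ξ) ^ 2 + p.ρ ^ 2 = (u - p.zp) * (u - p.zm) := by
    simp only [zp, zm]
    linear_combination ((p.ρ : ℂ) ^ 2) * Complex.I_sq
  have e2 : p.zp + p.zm = 2 * p.ξ := by simp only [zp, zm]; ring
  have e3 : (σ : ℂ) ^ 2 = p.ρ ^ 2 := by exact_mod_cast hσ
  rw [e]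
  field_simp
  linear_combination e + e3 - σ * e2

variable {p}

lemma Ok.mono {a : ℕ} {x y : ℝ} (h : p.Ok a x) (hxy : x ≤ y) : p.Ok a y :=
  h.imp id fun h => h.trans hxy

lemma Γ_le {a : ℕ} (ha : 5 * a ≤ 16 * p.m) : 0 ≤ p.Γ a ∧ p.Γ a ≤ p.m / p.ρ := by
  obtain ⟨h0, h1, h2, h3, h4, -⟩ := p.sc
  have e : p.w0 - p.e = 3 * p.L / 2 + p.ρ := by simp only [w0, e]; ring
  have ha' : 5 * (a : ℝ) ≤ 16 * p.m := by exact_mod_cast ha
  have : (0 : ℝ) ≤ a := by positivity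
  rw [Γ, e, div_le_div_iff₀ (by linarith) (by linarith)]
  refine ⟨div_nonneg this (by linarith), ?_⟩
  nlinarith

lemma Gn_le {a : ℕ} (ha : 5 * a ≤ 16 * p.m) :
    |p.Gn a - (p.m / p.ρ + p.Γ a)| ≤ 1 ∧ p.m / (2 * p.ρ) ≤ p.Gn a ∧
      (p.Gn a : ℝ) ≤ 2 * (p.m / p.ρ) ∧ 100000 ≤ p.m / p.ρ := by
  obtain ⟨h0, h1, h2, h3, h4, h5, -⟩ := p.sc
  obtain ⟨g1, g2⟩ := Γ_le ha
  have hm : (100 : ℝ) ≤ p.m := by exact_mod_cast p.hm
  have M : 100000 ≤ p.m / p.ρ := by rw [le_div_iff₀ (by linarith)]; linarith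
  have a1 : (p.Gn a : ℝ) ≤ p.m / p.ρ + p.Γ a := Nat.floor_le (by linarith)
  have a2 : p.m / p.ρ + p.Γ a < p.Gn a + 1 := Nat.lt_floor_add_one _
  have e : p.m / (2 * p.ρ) = p.m / p.ρ / 2 := by rw [div_div, mul_comm]
  rw [abs_le, e]
  exact ⟨⟨by linarith, by linarith⟩, by linarith, by linarith, M⟩

lemma G_err {a : ℕ} (ha : 5 * a ≤ 16 * p.m) {u : ℂ} (h : p.Win u) :
    ‖p.Gn a * u⁻¹ - (p.m / p.ρ + p.Γ a : ℝ)‖ ≤ p.G0 / 100000 := by
  obtain ⟨h0, h1, h2, h3, h4, h5, -⟩ := p.sc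
  obtain ⟨g1, -, g2, -⟩ := Gn_le ha
  have a1 := (inv_diff (x := u) (y := 1) one_pos one_pos
    (by linarith [h.1, Complex.re_le_norm u]) (by simp)).1
  rw [inv_one, mul_one, div_one] at a1
  have e : p.Gn a * u⁻¹ - (p.m / p.ρ + p.Γ a : ℝ) =
      p.Gn a * (u⁻¹ - 1) + (p.Gn a - (p.m / p.ρ + p.Γ a) : ℝ) := by push_cast; ring
  rw [e]
  refine (norm_add_le _ _).trans (le_trans ?_ p.k3b)
  rw [norm_mul, Complex.norm_natCast, Complex.norm_real, Real.norm_eq_abs]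
  have : p.Gn a * ‖u⁻¹ - 1‖ ≤ 2 * (p.m / p.ρ) * (4 * p.L1) :=
    mul_le_mul g2 (a1.trans h.near) (norm_nonneg _) (le_trans (by positivity) g2)
  have e : 2 * (p.m / p.ρ) * (4 * p.L1) = 8 * p.m * p.L1 / p.ρ := by ring
  linarith

lemma err_le {s x : ℝ} (hs : 0 ≤ s) (hx : x ≤ 200 * p.m * (s + p.δ) / p.L ^ 2) :
    x ≤ p.G0 / 10000 + p.m * s * p.lam / (1000 * p.ρ ^ 3) := by
  obtain ⟨h0, h1, h2, h3, -⟩ := p.sc
  have hρ : 0 < p.ρ := by linarith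
  have hL : 0 < p.L := by linarith
  have hl : 0 < p.lam := by linarith
  have a1 : 1 / p.L ^ 2 ≤ p.lam / (1000000 * p.ρ ^ 3) := by
    rw [div_le_div_iff₀ (by positivity) (by positivity)]; linarith [p.k4]
  rw [p.hμ]
  calc x ≤ 200 * p.m * (s + p.δ) * (1 / p.L ^ 2) := by rw [← div_eq_mul_one_div]; exact hx
    _ ≤ 200 * p.m * (5 * s + p.lam / 2) * (p.lam / (1000000 * p.ρ ^ 3)) := by
        gcongr <;> linarith
    _ = _ := by field_simp; ring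

lemma err_le2 {x : ℝ} (hx : x ≤ 100 * p.m / p.L) : x ≤ p.m / (1000 * p.ρ) := by
  obtain ⟨h0, h1, h2, h3, -⟩ := p.sc
  refine hx.trans ?_
  rw [div_le_div_iff₀ (by linarith) (by linarith)]
  have : (0 : ℝ) ≤ p.m := by positivity
  nlinarith

lemma sub_re_le {u : ℂ} (hi : |u.im| ≤ p.δ) (x : ℝ) : ‖u - x‖ ≤ |u.re - x| + p.δ := by
  refine (Complex.norm_le_abs_re_add_abs_im _).trans ?_
  simpa using hi

lemma term_le {n : ℕ} {u b : ℂ} {x A B c : ℝ} (hn : (n : ℝ) ≤ c * p.m) (hA : 0 < A) (hB : 0 < B)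
    (hi : |u.im| ≤ p.δ) (h1 : A * p.L ≤ ‖u - b‖) (h2 : B * p.L ≤ ‖x - b‖) :
    ‖n * ((u - b)⁻¹ - (x - b)⁻¹)‖ ≤ c / (A * B) * (p.m * (|u.re - x| + p.δ) / p.L ^ 2) ∧
    ‖n * ((u - b)⁻¹ - (x - b)⁻¹)‖ ≤ c * (1 / A + 1 / B) * (p.m / p.L) := by
  obtain ⟨h0, a1, a2, a3, -⟩ := p.sc
  have hL : 0 < p.L := by linarith
  obtain ⟨b1, b2⟩ := inv_diff (by positivity) (by positivity) h1 h2
  rw [show u - b - (x - b) = u - x by ring] at b1
  have n0 : (0 : ℝ) ≤ n := by positivity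
  rw [norm_mul, Complex.norm_natCast]
  constructor
  · calc _ ≤ c * p.m * ((|u.re - x| + p.δ) / (A * p.L * (B * p.L))) := by
          refine mul_le_mul hn (b1.trans ?_) (norm_nonneg _) (n0.trans hn)
          gcongr; exact sub_re_le hi x
      _ = _ := by field_simp
  · calc _ ≤ c * p.m * (1 / (A * p.L) + 1 / (B * p.L)) :=
          mul_le_mul hn b2 (norm_nonneg _) (n0.trans hn)
      _ = _ := by field_simp

lemma H_LD {a : ℕ} (ha : 5 * a ≤ 16 * p.m) {u : ℂ} (h : p.Win u) (ho : p.Ok a u.re) :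
    LD (p.H a) (p.DH a u) u := by
  obtain ⟨h0, h1, h2, h3, h4, -⟩ := p.sc
  have u0 : u - 0 ≠ 0 := norm_pos_iff.1 (by
    rw [sub_zero]; linarith [h.1, Complex.re_le_norm u])
  have w0 : (p.w0 : ℂ) ≠ 0 := by
    have := p.win_w0.1
    simp only [Complex.ofReal_re] at this
    exact_mod_cast (by linarith : p.w0 ≠ 0)
  have c0 : ((‖p.F a p.w0‖ : ℝ) : ℂ) ≠ 0 := by
    exact_mod_cast norm_ne_zero_iff.2 (F_ne ha p.win_w0 (p.ok_w0 a))
  have := ((LD.const c0 u).mul (((LD.lin u0).div (LD.const w0 u)).pow (p.Gn a))).div (F_LD h ho)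
  simp only [sub_zero, zero_add] at this
  exact this

lemma rec_D {a : ℕ} (ha : 5 * a ≤ 16 * p.m) {u : ℂ} (h : p.Win u) (ho : p.Ok a u.re) :
    -(p.G0 / 100 / 2) ≤ (p.DH a u).re ∧ (p.lam / 2 ≤ |u.re - p.w0| → p.G0 / 100 ≤ (p.DH a u).re) ∧
      (|u.re - p.w0| ≤ p.lam → ‖p.DH a u‖ ≤ 20 * p.G0) ∧
      (p.ρ ≤ |u.re - p.w0| → p.m / (20 * p.ρ) ≤ (p.DH a u).re) ∧
      ‖p.DH a u‖ ≤ 4 * p.m / p.ρ := by
  obtain ⟨h0, h1, h2, h3, h4, -⟩ := p.sc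
  have es : (u - p.ξ).re - p.ρ = u.re - p.w0 := by simp [w0]; ring
  have ha' : (a : ℝ) ≤ 16 / 5 * p.m := by
    have : 5 * (a : ℝ) ≤ 16 * p.m := by exact_mod_cast ha
    linarith
  have p1 : 0 ≤ p.m * (|u.re - p.w0| + p.δ) / p.L ^ 2 := by positivity
  have p2 : 0 ≤ p.m / p.L := div_nonneg (by positivity) (by linarith)
  have t : ‖a * ((u - p.e)⁻¹ - ((p.w0 : ℂ) - p.e)⁻¹)‖ ≤
      200 * p.m * (|u.re - p.w0| + p.δ) / p.L ^ 2 ∧
      ‖a * ((u - p.e)⁻¹ - ((p.w0 : ℂ) - p.e)⁻¹)‖ ≤ 100 * p.m / p.L := by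
    rw [mul_assoc, mul_div_assoc, mul_div_assoc 100]
    rcases ho with rfl | ho
    · simp only [Nat.cast_zero, zero_mul, norm_zero]
      constructor <;> linarith
    · obtain ⟨b1, b2⟩ := term_le (x := p.w0) (b := p.e) (A := 2 / 5) (B := 1) ha' (by norm_num)
        one_pos h.2.2 (by linarith [re_sub_le u p.e]) (by
          have := re_sub_le p.w0 p.e
          simp only [Complex.ofReal_re] at this
          refine le_trans ?_ this
          simp only [w0, e]; linarith)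
      constructor <;> linarith
  have b1 := G_err ha h
  have b2 := Es_le ha h
  have b3 : ‖(p.Gn a * u⁻¹ - (p.m / p.ρ + p.Γ a : ℝ)) -
      a * ((u - p.e)⁻¹ - ((p.w0 : ℂ) - p.e)⁻¹) - p.Es a u‖ ≤ p.G0 / 50000 +
      ‖a * ((u - p.e)⁻¹ - ((p.w0 : ℂ) - p.e)⁻¹)‖ := by
    refine (norm_sub_le _ _).trans ?_
    linarith [norm_sub_le (p.Gn a * u⁻¹ - (p.m / p.ρ + p.Γ a : ℝ))
      (a * ((u - p.e)⁻¹ - ((p.w0 : ℂ) - p.e)⁻¹))]
  have g0 : (0 : ℝ) ≤ p.G0 := by positivity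
  rw [← es]
  refine cc (E := (p.Gn a * u⁻¹ - (p.m / p.ρ + p.Γ a : ℝ)) -
      a * ((u - p.e)⁻¹ - ((p.w0 : ℂ) - p.e)⁻¹) - p.Es a u) rfl (by simpa using h.2.2) ?_ ?_ ?_
  · have r0 : (p.ρ : ℂ) ≠ 0 := by exact_mod_cast (by linarith : p.ρ ≠ 0)
    rw [p.clus_id rfl h.2.2]
    simp only [DH, DF, Γ]
    push_cast
    field_simp
    ring
  · rw [es]; linarith [err_le (abs_nonneg _) t.1]
  · linarith [err_le2 t.2]

lemma H_im (a : ℕ) (x : ℝ) : (p.H a x).im = 0 := by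
  have e : p.F a x = ((p.F a x).re : ℂ) := Complex.ext (by simp) (by simp [F_im])
  rw [H, e]
  norm_cast

lemma H_w0 {a : ℕ} (ha : 5 * a ≤ 16 * p.m) : ‖p.H a p.w0‖ = 1 := by
  obtain ⟨h0, h1, h2, h3, h4, -⟩ := p.sc
  have w0 : (p.w0 : ℂ) ≠ 0 := by
    have := p.win_w0.1
    simp only [Complex.ofReal_re] at this
    exact_mod_cast (by linarith : p.w0 ≠ 0)
  have := F_ne ha p.win_w0 (p.ok_w0 a)
  simp [H, div_self w0, this]

lemma kk (p : Par) : 20 * (p.G0 : ℝ) * p.δ ≤ 1 / 100 ∧ 0 < 20 * (p.G0 : ℝ) ∧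
    10000 ≤ p.G0 / 100 * p.lam := by
  obtain ⟨h0, h1, h2, -⟩ := p.sc
  have a1 := p.k1
  have a2 := p.k2
  refine ⟨by linarith, ?_, by linarith⟩
  have : 0 < (p.G0 : ℝ) := by
    rcases (Nat.cast_nonneg (α := ℝ) p.G0).lt_or_eq with h | h
    · exact h
    · rw [← h] at a2; linarith
  linarith

theorem record {a : ℕ} (ha : 5 * a ≤ 16 * p.m) {u : ℂ} (h : p.Win u) (ho : p.Ok a u.re) :
    (u.re ≤ p.w0 - p.lam → ‖p.H a u‖ ≤ 1 / 1000) ∧ (p.w0 + p.lam ≤ u.re → 1000 ≤ ‖p.H a u‖) ∧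
      (|u.re - p.w0| ≤ p.lam → ∃ (r : ℝ) (s : ℂ), ‖s‖ ≤ 1 / 50 ∧ p.H a u = r * (1 + s)) := by
  obtain ⟨h0, h1, h2, h3, h4, -⟩ := p.sc
  obtain ⟨c1, c2, c3⟩ := p.kk
  have m1 : 1 + p.L1 / 8 ≤ min u.re (p.w0 - p.lam) :=
    le_min h.1 (by simp only [w0, ξ]; linarith)
  have m2 : p.Ok a (min u.re (p.w0 - p.lam)) := by
    rcases ho with ho | ho
    · exact Or.inl ho
    · exact Or.inr (le_min ho (by simp only [w0, e]; linarith))
  refine cross (D := p.DH a) (xL := min u.re (p.w0 - p.lam)) (xR := 1 + 3 * p.L1) (by linarith)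
    (min_le_right _ _) (by simp only [w0, ξ]; linarith) c1 c2 c3 (H_w0 ha) (fun x _ => H_im a x)
    (fun w hw hi => ?_) u ⟨min_le_left _ _, h.2.1⟩ h.2.2
  have W : p.Win w := ⟨m1.trans hw.1, hw.2, hi⟩
  have := rec_D ha W (m2.mono hw.1)
  exact ⟨H_LD ha W (m2.mono hw.1), this.1, this.2.1, this.2.2.1⟩

lemma H_big {a : ℕ} (ha : 5 * a ≤ 16 * p.m) :
    Real.exp (p.m * p.L / (50 * p.ρ)) ≤ ‖p.H a ((1 + p.L) * p.v : ℝ)‖ ∧
      ‖p.H a ((1 + p.L) * p.v : ℝ)‖ ≤ Real.exp (8 * p.m * p.L / p.ρ) := by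
  obtain ⟨h0, h1, h2, h3, h4, h5, -⟩ := p.sc
  have v1 : p.v + p.L ≤ (1 + p.L) * p.v := by simp only [v, ξ]; nlinarith
  have v2 : (1 + p.L) * p.v ≤ p.v + 2 * p.L := by simp only [v, ξ]; nlinarith
  set y := (1 + p.L) * p.v
  have ev : p.v = p.w0 - 2 * p.ρ := by simp only [v, w0]; ring
  have W : ∀ x, p.w0 ≤ x → x ≤ y → p.Win (x + (0 : ℝ) * Complex.I) ∧
      p.Ok a (x + (0 : ℝ) * Complex.I).re ∧ (x + (0 : ℝ) * Complex.I).re = x := fun x a1 a2 => by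
    simp only [Complex.ofReal_zero, zero_mul, add_zero, Complex.ofReal_re, and_true]
    simp only [w0, ξ, v] at a1 v2
    exact ⟨p.winR (by linarith) (by linarith), (p.ok_w0 a).mono (by simp [w0, ξ]; linarith)⟩
  have b1 := horiz (h := p.H a) (D := p.DH a) (y := 0) (κ := -(p.G0 / 100 / 2))
    (by linarith : p.w0 ≤ p.w0 + p.ρ) fun x hx => by
      obtain ⟨c1, c2, -⟩ := W x hx.1 (by linarith [hx.2])
      exact ⟨H_LD ha c1 c2, (rec_D ha c1 c2).1⟩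
  have b2 := horiz (h := p.H a) (D := p.DH a) (y := 0) (κ := p.m / (20 * p.ρ))
    (by linarith : p.w0 + p.ρ ≤ y) fun x hx => by
      obtain ⟨c1, c2, c3⟩ := W x (by linarith [hx.1]) hx.2
      refine ⟨H_LD ha c1 c2, (rec_D ha c1 c2).2.2.2.1 ?_⟩
      rw [c3]; linarith [le_abs_self (x - p.w0), hx.1]
  have b3 := horiz' (h := p.H a) (D := p.DH a) (y := 0) (κ := 4 * p.m / p.ρ)
    (by linarith : p.w0 ≤ y) fun x hx => by
      obtain ⟨c1, c2, c3⟩ := W x hx.1 hx.2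
      exact ⟨H_LD ha c1 c2, (Complex.re_le_norm _).trans (rec_D ha c1 c2).2.2.2.2⟩
  simp only [Complex.ofReal_zero, zero_mul, add_zero, H_w0 ha, one_mul] at b1 b2 b3
  have hρ : 0 < p.ρ := by linarith
  have hL : 0 < p.L := by linarith
  set M := p.m / p.ρ with hM
  have M0 : 0 ≤ M := by positivity
  constructor
  · refine le_trans ?_ (le_trans (mul_le_mul_of_nonneg_right b1 (Real.exp_pos _).le) b2)
    rw [← Real.exp_add]
    gcongr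
    have e1 : p.m * p.L / (50 * p.ρ) = M * p.L / 50 := by rw [hM]; field_simp
    have e2 : p.m / (20 * p.ρ) = M / 20 := by rw [hM]; field_simp
    have e3 : p.G0 * p.ρ ≤ M * p.L := by
      have a1 : p.m / (1000 * p.L) ≤ M := by rw [hM]; gcongr; linarith
      have := p.k6.trans a1
      gcongr; linarith
    have e4 : M / 20 * (p.L / 2) ≤ M / 20 * (y - (p.w0 + p.ρ)) := by gcongr; linarith
    rw [e1, e2]
    linarith
  · refine b3.trans ?_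
    gcongr
    have e1 : 8 * p.m * p.L / p.ρ = 4 * p.m / p.ρ * (2 * p.L) := by ring
    rw [e1]; gcongr; linarith

lemma far {a : ℕ} (ha : 5 * a ≤ 16 * p.m) {τ τ' x : ℝ} (h1 : p.τ0 ≤ τ) (h2 : p.τ0 ≤ τ')
    (hx : 1 + 2 * p.L1 ≤ x) :
    100000 * x ^ p.J ≤ τ * ‖p.F a p.w0‖ * (x / p.w0) ^ p.Gn a * (τ' * p.δ ^ (6 * p.m + 1)) := by
  obtain ⟨h0, a1, a2, a3, a4, a5, -⟩ := p.sc
  obtain ⟨-, g1, -, g2⟩ := Gn_le ha
  have hρ : 0 < p.ρ := by linarith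
  have hL : 0 < p.L := by linarith
  have w1 : 1 ≤ p.w0 := by simp only [w0, ξ]; linarith
  set M := p.m / p.ρ with hM
  have e0 : p.m / (2 * p.ρ) = M / 2 := by rw [hM]; field_simp
  have j1 : (p.J : ℝ) ≤ M / 4 := by
    have b1 := p.k3
    have b2 : p.m / (1000 * p.L) ≤ M := by rw [hM]; gcongr; linarith
    have b3 := p.k6
    have : 0 < p.L1 := by linarith
    have : 0 ≤ 8 / p.L1 := by positivity
    have : 0 ≤ 6 * p.m / p.θ ^ 2 := by positivity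
    linarith
  have j2 : p.J ≤ p.Gn a := by exact_mod_cast (by linarith : (p.J : ℝ) ≤ p.Gn a)
  obtain ⟨d, hd⟩ := Nat.exists_eq_add_of_le j2
  have d1 : M / 4 ≤ d := by
    have : (p.Gn a : ℝ) = p.J + d := by exact_mod_cast hd
    linarith
  have b1 : Real.exp (p.L1 / 4) ≤ x / p.w0 := by
    have := Real.abs_exp_sub_one_le (x := p.L1 / 4) (by rw [abs_of_pos] <;> linarith)
    rw [abs_of_pos (by linarith : 0 < p.L1 / 4)] at this
    have c : 1 + p.L1 / 2 ≤ x / p.w0 := by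
      rw [le_div_iff₀ (by linarith)]; simp only [w0, ξ]; nlinarith
    linarith [le_abs_self (Real.exp (p.L1 / 4) - 1)]
  have b2 : Real.exp (d * (p.L1 / 4)) ≤ (x / p.w0) ^ d := by rw [Real.exp_nat_mul]; gcongr
  have b3 : x ^ p.J / 2 ≤ (x / p.w0) ^ p.J := by
    rw [div_pow]
    have := powJ (p := p) (u := p.w0) (p.win_w0.near.trans (by linarith))
    rw [Complex.norm_real, Real.norm_of_nonneg (by linarith)] at this
    have : 0 ≤ x := by linarith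
    gcongr
  have b4 := p.k7.trans (F_ge ha p.win_w0 (p.ok_w0 a))
  have e1 : 8 * p.m * p.L / p.ρ = 8 * (M * p.L) := by rw [hM]; ring
  have e2 : p.m * p.L / (50 * p.ρ) = M * p.L / 50 := by rw [hM]; field_simp
  have b5 := p.k7
  rw [τ0, e1] at h1 h2
  rw [e2] at b4 b5
  have ML : 1000000 ≤ M * p.L := by
    have hm : (100 : ℝ) ≤ p.m := by exact_mod_cast p.hm
    rw [hM, div_mul_eq_mul_div, le_div_iff₀ hρ]; nlinarith
  have b6 : M / 4 * (1000 * p.L / 4) ≤ d * (p.L1 / 4) := by gcongr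
  have x0 : 0 ≤ x := by linarith
  have t1 : 0 ≤ τ := (Real.exp_pos _).le.trans h1
  have t2 : 0 ≤ τ' := (Real.exp_pos _).le.trans h2
  calc 100000 * x ^ p.J ≤ Real.exp (-(8 * (M * p.L)) + -(M * p.L / 50) + d * (p.L1 / 4) +
        (-(8 * (M * p.L)) + -(M * p.L / 50))) * (x ^ p.J / 2) := by
        have := Real.add_one_le_exp (-(8 * (M * p.L)) + -(M * p.L / 50) + d * (p.L1 / 4) +
          (-(8 * (M * p.L)) + -(M * p.L / 50)))
        have c : 200000 ≤ Real.exp (-(8 * (M * p.L)) + -(M * p.L / 50) + d * (p.L1 / 4) +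
          (-(8 * (M * p.L)) + -(M * p.L / 50))) := by linarith
        calc 100000 * x ^ p.J = 200000 * (x ^ p.J / 2) := by ring
          _ ≤ _ := by gcongr
    _ = Real.exp (-(8 * (M * p.L))) * Real.exp (-(M * p.L / 50)) *
        (x ^ p.J / 2 * Real.exp (d * (p.L1 / 4))) *
        (Real.exp (-(8 * (M * p.L))) * Real.exp (-(M * p.L / 50))) := by
        simp only [Real.exp_add]; ring
    _ ≤ _ := by rw [hd, pow_add]; gcongr

end Par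
end Pool.Agent.H.MP_df6699_an
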