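import Pool.Agent.H.MP_df6699_an.F

set_option autoImplicit false
open Set

namespace Pool.Agent.H.MP_df6699_an
namespace Par
variable {p : Par}

noncomputable def kf (p : Par) (a b : ℕ) (u : ℂ) : ℂ :=
  b * (u - p.e)⁻¹ - a * (u - (p.e / (1 + p.L) : ℝ))⁻¹ -
    p.m * (u - p.zp / (1 + p.L : ℝ))⁻¹ - p.m * (u - p.zm / (1 + p.L : ℝ))⁻¹

lemma geo (p : Par) :
    (p.e - 1001 / 1000 * p.L ≤ p.e / (1 + p.L) ∧ p.e / (1 + p.L) ≤ p.e - 999 / 1000 * p.L) ∧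
    (p.ξ - 1001 / 1000 * p.L ≤ p.ξ / (1 + p.L) ∧ p.ξ / (1 + p.L) ≤ p.ξ - 999 / 1000 * p.L) ∧
    (p.w0 - p.lam - 1001 / 1000 * p.L ≤ (p.w0 - p.lam) / (1 + p.L) ∧
      (p.w0 - p.lam) / (1 + p.L) ≤ p.w0 - p.lam - 999 / 1000 * p.L) := by
  obtain ⟨h0, h1, h2, h3, h4, h5, -⟩ := p.sc
  refine ⟨p.divΛ ?_ ?_, p.divΛ ?_ ?_, p.divΛ ?_ ?_⟩ <;> simp only [e, w0, ξ] <;> linarith

lemma pick {a : ℕ} (ha : 5 * a ≤ 16 * p.m) : ∃ b : ℕ, 5 * b ≤ 16 * p.m ∧
    3 / 2 * (p.m : ℝ) ≤ b ∧ ‖p.Γ a + p.kf a b p.v‖ ≤ 1 / p.L := by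
  obtain ⟨h0, h1, h2, h3, h4, h5, -⟩ := p.sc
  obtain ⟨⟨g1, g2⟩, ⟨g3, g4⟩, -⟩ := p.geo
  have hL : 0 < p.L := by linarith
  have hρ : 0 < p.ρ := by linarith
  have hm : (100 : ℝ) ≤ p.m := by exact_mod_cast p.hm
  have ha' : (a : ℝ) ≤ 16 / 5 * p.m := by
    have : 5 * (a : ℝ) ≤ 16 * p.m := by exact_mod_cast ha
    linarith
  have a0 : (0 : ℝ) ≤ a := by positivity
  set d := p.v - p.ξ / (1 + p.L) with hd
  set r := p.ρ / (1 + p.L) with hr
  set f := p.v - p.e / (1 + p.L) with hf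
  set g := p.v - p.e with hg
  set n := p.w0 - p.e with hn
  have r0 : 0 < r := by positivity
  have r1 : r ≤ p.ρ := div_le_self hρ.le (by linarith)
  have d1 : 99 / 100 * p.L ≤ d := by simp only [hd, v]; linarith
  have d2 : d ≤ 101 / 100 * p.L := by simp only [hd, v]; linarith
  have f1 : 245 / 100 * p.L ≤ f := by simp only [hf, v]; simp only [e] at *; linarith
  have f2 : f ≤ 255 / 100 * p.L := by simp only [hf, v]; simp only [e] at *; linarith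
  have g5 : 149 / 100 * p.L ≤ g := by simp only [hg, v, e]; linarith
  have g6 : g ≤ 150 / 100 * p.L := by simp only [hg, v, e]; linarith
  have n1 : 150 / 100 * p.L ≤ n := by simp only [hn, w0, e]; linarith
  have n2 : n ≤ 151 / 100 * p.L := by simp only [hn, w0, e]; linarith
  set S := 2 * d / (d ^ 2 + r ^ 2) with hS
  have q0 : 0 < d ^ 2 + r ^ 2 := by positivity
  have S1 : 196 / 100 / p.L ≤ S := by
    rw [hS, div_le_div_iff₀ hL q0]
    have : r ^ 2 ≤ (p.L / 1000) ^ 2 := by gcongr; linarith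
    nlinarith only [this, d1, d2, hL]
  have S2 : S ≤ 203 / 100 / p.L := by
    rw [hS, div_le_div_iff₀ q0 hL]
    nlinarith only [sq_nonneg r, d1, d2, hL]
  set Θ := -p.Γ a + a / f + p.m * S with hΘ
  have t1 : a / n * g ≤ a := by
    rw [div_mul_eq_mul_div, div_le_iff₀ (by linarith)]; gcongr; linarith
  have t2 : a / f ≤ a / n := by gcongr <;> linarith
  have t3 : 58 / 100 * a ≤ a / f * g := by
    rw [div_mul_eq_mul_div (a : ℝ), le_div_iff₀ (by linarith : 0 < f), mul_comm _ (a : ℝ), mul_assoc]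
    gcongr; linarith
  have t4 : p.m * (196 / 100 / p.L) * (149 / 100 * p.L) ≤ p.m * S * g := by
    gcongr
    exact mul_nonneg (by linarith) (le_trans (by positivity) S1)
  have t5 : p.m * S * g ≤ p.m * (203 / 100 / p.L) * (150 / 100 * p.L) := by
    gcongr; linarith
  have t6 := mul_le_mul_of_nonneg_right t2 (by linarith : 0 ≤ g)
  have e4 : p.m * (196 / 100 / p.L) * (149 / 100 * p.L) = 196 * 149 / 10000 * p.m := by field_simp; ring
  have e5 : p.m * (203 / 100 / p.L) * (150 / 100 * p.L) = 203 * 150 / 10000 * p.m := by field_simp; ring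
  have eΘ : Θ * g = -(a / n * g) + a / f * g + p.m * S * g := by rw [hΘ, Γ]; ring
  have u1 : 3 / 2 * (p.m : ℝ) + 1 ≤ Θ * g := by linarith
  have u2 : Θ * g ≤ 16 / 5 * p.m := by linarith
  have b1 : (⌊Θ * g⌋₊ : ℝ) ≤ Θ * g := Nat.floor_le (by linarith)
  have b2 : Θ * g < ⌊Θ * g⌋₊ + 1 := Nat.lt_floor_add_one _
  refine ⟨⌊Θ * g⌋₊, by exact_mod_cast (by linarith : 5 * (⌊Θ * g⌋₊ : ℝ) ≤ 16 * p.m),
    by linarith, ?_⟩
  have c1 : (p.v : ℂ) - p.zp / (1 + p.L : ℝ) = d - r * Complex.I := by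
    simp only [hd, hr, zp]; push_cast; ring
  have c2 : (p.v : ℂ) - p.zm / (1 + p.L : ℝ) = d + r * Complex.I := by
    simp only [hd, hr, zm]; push_cast; ring
  have c3 : ((d : ℂ) - r * Complex.I)⁻¹ + (d + r * Complex.I)⁻¹ = S := by
    have n1 : (d : ℂ) - r * Complex.I ≠ 0 := fun h => by
      have := congrArg Complex.im h
      simp at this; linarith
    have n2 : (d : ℂ) + r * Complex.I ≠ 0 := fun h => by
      have := congrArg Complex.im h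
      simp at this; linarith
    have n3 : ((d : ℂ) - r * Complex.I) * (d + r * Complex.I) = d ^ 2 + r ^ 2 := by
      linear_combination (-(r : ℂ) ^ 2) * Complex.I_sq
    rw [inv_add_inv n1 n2, n3, hS]; push_cast; ring
  have c4 : p.Γ a + p.kf a ⌊Θ * g⌋₊ p.v = ((⌊Θ * g⌋₊ - Θ * g) / g : ℝ) := by
    have g0 : g ≠ 0 := by linarith
    rw [sub_div, mul_div_cancel_right₀ _ g0, kf, c1, c2, ← Complex.ofReal_sub, ← Complex.ofReal_sub,
      ← hf, ← hg]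
    generalize ⌊Θ * g⌋₊ = b
    rw [hΘ]
    push_cast
    linear_combination (-(p.m : ℂ)) * c3
  rw [c4, Complex.norm_real, Real.norm_eq_abs, abs_div, abs_of_pos (by linarith : 0 < g)]
  gcongr
  · rw [abs_le]; constructor <;> linarith
  · linarith

lemma inv_scale {c : ℂ} (hc : c ≠ 0) (u b : ℂ) : (c * u - b)⁻¹ = c⁻¹ * (u - b / c)⁻¹ := by
  rw [← mul_inv]; congr 1; field_simp

lemma win_scale {u : ℂ} (h1 : (p.w0 - p.lam) / (1 + p.L) ≤ u.re) (h2 : u.re ≤ 1 + 2 * p.L1)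
    (hi : |u.im| ≤ p.δ / (1 + p.L)) (a : ℕ) :
    p.Win u ∧ p.Ok a u.re ∧ p.Win ((1 + p.L : ℝ) * u) ∧ p.Ok a ((1 + p.L : ℝ) * u).re := by
  obtain ⟨h0, a1, a2, a3, a4, a5, -⟩ := p.sc
  obtain ⟨-, -, g1, g2⟩ := p.geo
  have hL : 0 < p.L := by linarith
  have b1 := (div_le_iff₀' (by linarith)).1 h1
  have b2 : (1 + p.L) * u.re ≤ (1 + p.L) * (1 + 2 * p.L1) := by gcongr
  have b3 := (le_div_iff₀' (by linarith)).1 hi
  rw [Complex.re_ofReal_mul]
  refine ⟨⟨?_, by linarith, hi.trans (div_le_self h0.le (by linarith))⟩, Or.inr ?_,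
    ⟨?_, ?_, ?_⟩, Or.inr ?_⟩
  · simp only [w0, ξ] at *; linarith
  · simp only [w0, e] at *; linarith
  · rw [Complex.re_ofReal_mul]; simp only [w0, ξ] at *; linarith
  · rw [Complex.re_ofReal_mul]; nlinarith only [b2, a4, a5, hL]
  · rw [Complex.im_ofReal_mul, abs_mul, abs_of_pos (by linarith)]; exact b3
  · simp only [w0, e] at *; linarith

lemma vir_D {a b : ℕ} (ha : 5 * a ≤ 16 * p.m) (hb : 5 * b ≤ 16 * p.m)
    (hb2 : 3 / 2 * (p.m : ℝ) ≤ b) (hk : ‖p.Γ a + p.kf a b p.v‖ ≤ 1 / p.L) {u D : ℂ}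
    (h1 : (p.w0 - p.lam) / (1 + p.L) ≤ u.re) (h2 : u.re ≤ 1 + 2 * p.L1)
    (hi : |u.im| ≤ p.δ / (1 + p.L))
    (hD : D = (1 + p.L : ℝ) * p.DH a ((1 + p.L : ℝ) * u) + p.DF b u) :
    -(p.G0 / 100 / 2) ≤ D.re ∧ (p.lam / 2 ≤ |u.re - p.v| → p.G0 / 100 ≤ D.re) ∧
      (|u.re - p.v| ≤ p.lam → ‖D‖ ≤ 20 * p.G0) := by
  obtain ⟨W1, O1, W2, O2⟩ := win_scale h1 h2 hi a
  obtain ⟨h0, a1, a2, a3, a4, a5, -⟩ := p.sc
  obtain ⟨⟨g1, g2⟩, ⟨g3, g4⟩, g5, g6⟩ := p.geo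
  have hL : 0 < p.L := by linarith
  have ha' : (a : ℝ) ≤ 16 / 5 * p.m := by
    have : 5 * (a : ℝ) ≤ 16 * p.m := by exact_mod_cast ha
    linarith
  have hb' : (b : ℝ) ≤ 16 / 5 * p.m := by
    have : 5 * (b : ℝ) ≤ 16 * p.m := by exact_mod_cast hb
    linarith
  have g0 : (0 : ℝ) ≤ p.G0 := by positivity
  have s1 := Es_le hb W1
  have ee : p.e = p.ξ - 3 * p.L / 2 := rfl
  have ew : p.w0 = p.ξ + p.ρ := rfl
  have ev : p.v = p.ξ - p.ρ := rfl
  have p2 : 0 ≤ p.m / p.L := by positivity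
  rcases le_total u.re (p.ξ - 94 / 100 * p.L) with hc | hc
  · have b1 := (rec_D ha W2 O2).1
    have b2 : 1 / (59 / 100 * p.L) ≤ (u - p.e)⁻¹.re := by
      have c1 : 49 / 100 * p.L ≤ u.re - p.e := by linarith
      have c2 : u.re - p.e ≤ 56 / 100 * p.L := by linarith
      have c3 : u.im ^ 2 ≤ (p.L / 100) ^ 2 := by
        rw [← sq_abs]; gcongr; linarith [W1.2.2]
      rw [Complex.inv_re, Complex.normSq_apply]
      simp only [Complex.sub_re, Complex.ofReal_re, Complex.sub_im, Complex.ofReal_im, sub_zero]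
      rw [div_le_div_iff₀ (by positivity) (by nlinarith only [c1, hL, sq_nonneg u.im])]
      nlinarith only [c1, c2, c3, hL]
    have b3 : ∀ z : ℂ, z.re = p.ξ → -(100 / 94 * (p.m / p.L)) ≤ (p.m * (u - z)⁻¹).re := fun z hz => by
      have c1 := Complex.re_le_norm (z - u)
      rw [norm_sub_rev, Complex.sub_re, hz] at c1
      have c2 := inv_le' (A := 94 / 100 * p.L) (by positivity) (by linarith : _ ≤ ‖u - z‖)
      have c3 := (abs_le.1 (Complex.abs_re_le_norm (p.m * (u - z)⁻¹))).1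
      rw [norm_mul, Complex.norm_natCast] at c3
      have c4 : p.m * ‖(u - z)⁻¹‖ ≤ p.m * (1 / (94 / 100 * p.L)) := by gcongr
      have c5 : p.m * (1 / (94 / 100 * p.L)) = 100 / 94 * (p.m / p.L) := by field_simp
      linarith
    have b4 : 150 / 59 * (p.m / p.L) ≤ (b * (u - p.e)⁻¹).re := by
      rw [← Complex.ofReal_natCast, Complex.re_ofReal_mul]
      calc _ = 3 / 2 * (p.m : ℝ) * (1 / (59 / 100 * p.L)) := by field_simp; ring
        _ ≤ _ := by gcongr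
    have b5 := (abs_le.1 (Complex.abs_re_le_norm (p.Es b u))).1
    have b6 : -(p.G0 / 100) ≤ (1 + p.L) * (p.DH a ((1 + p.L : ℝ) * u)).re := by
      nlinarith only [b1, hL, a4, a5, g0]
    have b7 := p.k6
    have b8 : p.m / (1000 * p.L) = p.m / p.L / 1000 := by rw [div_div, mul_comm]
    have b9 : p.G0 / 100 ≤ D.re := by
      rw [hD, Complex.add_re, Complex.re_ofReal_mul, DF, Complex.add_re, Complex.add_re,
        Complex.add_re]
      linarith [b3 p.zp (by simp [zp]), b3 p.zm (by simp [zm])]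
    exact ⟨by linarith, fun _ => b9, fun h => by linarith [(abs_le.1 h).1]⟩
  have es : (u - p.ξ).re - -p.ρ = u.re - p.v := by simp [v]; ring
  have zz : ∀ (z : ℂ) (w : ℂ), z.re = p.ξ → w.re - p.ξ / (1 + p.L) ≤ ‖w - z / (1 + p.L : ℝ)‖ :=
    fun z w hz => by
      have := Complex.re_le_norm (w - z / (1 + p.L : ℝ))
      rwa [Complex.sub_re, Complex.div_ofReal_re, hz] at this
  have i1 := W1.2.2
  have rv : (p.v : ℂ).re = p.v := Complex.ofReal_re _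
  obtain ⟨t1, t1'⟩ := term_le (x := p.v) (b := p.e) (A := 1 / 2) (B := 1) hb' (by norm_num)
    one_pos i1 (by linarith [re_sub_le u p.e]) (by linarith [re_sub_le p.v p.e])
  obtain ⟨t2, t2'⟩ := term_le (x := p.v) (b := (p.e / (1 + p.L) : ℝ)) (A := 1) (B := 1) ha' one_pos
    one_pos i1 (by linarith [re_sub_le u (p.e / (1 + p.L))])
    (by linarith [re_sub_le p.v (p.e / (1 + p.L))])
  obtain ⟨t3, t3'⟩ := term_le (x := p.v) (b := p.zp / (1 + p.L : ℝ)) (A := 1 / 20) (B := 1 / 2)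
    (one_mul (p.m : ℝ)).ge (by norm_num) (by norm_num) i1
    (by linarith [zz p.zp u (by simp [zp])]) (by linarith [zz p.zp p.v (by simp [zp])])
  obtain ⟨t4, t4'⟩ := term_le (x := p.v) (b := p.zm / (1 + p.L : ℝ)) (A := 1 / 20) (B := 1 / 2)
    (one_mul (p.m : ℝ)).ge (by norm_num) (by norm_num) i1
    (by linarith [zz p.zm u (by simp [zm])]) (by linarith [zz p.zm p.v (by simp [zm])])
  have p1 : 0 ≤ p.m * (|u.re - p.v| + p.δ) / p.L ^ 2 := by positivity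
  have kd : ‖p.kf a b u - p.kf a b p.v‖ ≤ ‖b * ((u - p.e)⁻¹ - ((p.v : ℂ) - p.e)⁻¹)‖ +
      ‖a * ((u - (p.e / (1 + p.L) : ℝ))⁻¹ - ((p.v : ℂ) - (p.e / (1 + p.L) : ℝ))⁻¹)‖ +
      ‖p.m * ((u - p.zp / (1 + p.L : ℝ))⁻¹ - ((p.v : ℂ) - p.zp / (1 + p.L : ℝ))⁻¹)‖ +
      ‖p.m * ((u - p.zm / (1 + p.L : ℝ))⁻¹ - ((p.v : ℂ) - p.zm / (1 + p.L : ℝ))⁻¹)‖ := by
    refine le_trans (le_of_eq (congrArg norm ?_)) ((norm_sub_le _ _).trans (add_le_add_left
      ((norm_sub_le _ _).trans (add_le_add_left (norm_sub_le _ _) _)) _))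
    simp only [kf]; ring
  have k1 : ‖p.kf a b u - p.kf a b p.v‖ ≤ 200 * p.m * (|u.re - p.v| + p.δ) / p.L ^ 2 := by
    rw [mul_assoc, mul_div_assoc]; linarith
  have k2 : ‖p.kf a b u - p.kf a b p.v‖ ≤ 100 * p.m / p.L := by
    rw [mul_div_assoc]; linarith
  have s2 : ‖(1 + p.L : ℝ) * p.Es a ((1 + p.L : ℝ) * u)‖ ≤ 2 * (p.G0 / 100000) := by
    rw [norm_mul, Complex.norm_real, Real.norm_of_nonneg (by linarith)]
    exact mul_le_mul (by linarith) (Es_le ha W2) (norm_nonneg _) (by norm_num)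
  have s3 := G_err ha W1
  have s4 := hk.trans p.k3c
  set E := (p.Gn a * u⁻¹ - (p.m / p.ρ + p.Γ a : ℝ)) + (p.Γ a + p.kf a b p.v) +
    (p.kf a b u - p.kf a b p.v) + p.Es b u - (1 + p.L : ℝ) * p.Es a ((1 + p.L : ℝ) * u) with hE
  have nE : ‖E‖ ≤ p.G0 / 20000 + ‖p.kf a b u - p.kf a b p.v‖ := by
    refine (norm_sub_le _ _).trans ((add_le_add_left ((norm_add_le _ _).trans (add_le_add_left
      ((norm_add_le _ _).trans (add_le_add_left (norm_add_le _ _) _)) _)) _).trans ?_)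
    linarith
  have := cc (p := p) (x := u - p.ξ) (σ := -p.ρ) (E := E) (D := D) (by ring) (by simpa using i1)
    (by
      have r0 : (p.ρ : ℂ) ≠ 0 := by exact_mod_cast (by linarith : p.ρ ≠ 0)
      have c0 : ((1 + p.L : ℝ) : ℂ) ≠ 0 := by exact_mod_cast (by linarith : 1 + p.L ≠ 0)
      rw [p.clus_id (by ring) i1, hD, hE]
      simp only [DH, DF, kf, inv_scale c0, mul_inv, Complex.ofReal_div, Complex.ofReal_neg]
      generalize ((1 + p.L : ℝ) : ℂ) = c at c0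
      generalize (u - p.e / c)⁻¹ = x1
      generalize (u - p.zp / c)⁻¹ = x2
      generalize (u - p.zm / c)⁻¹ = x3
      generalize ((p.v : ℂ) - p.e / c)⁻¹ = x4
      generalize ((p.v : ℂ) - p.zp / c)⁻¹ = x5
      generalize ((p.v : ℂ) - p.zm / c)⁻¹ = x6
      generalize u⁻¹ = x7
      push_cast
      field_simp
      ring)
    (by rw [es]; linarith [err_le (abs_nonneg _) k1]) (by linarith [err_le2 k2])
  rw [es] at this
  exact ⟨this.1, this.2.1, this.2.2.1⟩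

def Tri (p : Par) (x0 : ℝ) (u w : ℂ) : Prop :=
  (u.re ≤ x0 - p.lam → ‖w‖ ≤ 1 / 1000) ∧ (x0 + p.lam ≤ u.re → 1000 ≤ ‖w‖) ∧
    (|u.re - x0| ≤ p.lam → ∃ (r : ℝ) (s : ℂ), ‖s‖ ≤ 1 / 50 ∧ w = r * (1 + s))

theorem virt {a : ℕ} (ha : 5 * a ≤ 16 * p.m) : ∃ (b : ℕ) (τ : ℝ), 5 * b ≤ 16 * p.m ∧ p.τ0 ≤ τ ∧
    τ ≤ 1 ∧ ∀ u : ℂ, (p.w0 - p.lam) / (1 + p.L) ≤ u.re → u.re ≤ 1 + 2 * p.L1 →
      |u.im| ≤ p.δ / (1 + p.L) → p.Tri p.v u (τ * (p.H a ((1 + p.L : ℝ) * u) * p.F b u)) := by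
  obtain ⟨b, hb, hb2, hk⟩ := pick ha
  obtain ⟨h0, a1, a2, a3, a4, a5, -⟩ := p.sc
  obtain ⟨-, -, g5, g6⟩ := p.geo
  obtain ⟨c1, c2, c3⟩ := p.kk
  obtain ⟨b1, b2⟩ := H_big ha
  have hL : 0 < p.L := by linarith
  have ew : p.w0 = p.ξ + p.ρ := rfl
  have ev : p.v = p.ξ - p.ρ := rfl
  have eξ : p.ξ = 1 + p.L1 := rfl
  obtain ⟨W1, O1, -⟩ := win_scale (p := p) (u := p.v) (by simp; linarith) (by simp; linarith)
    (by simp; positivity) b
  have f1 := p.k7.trans (F_ge hb W1 O1)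
  have f2 := F_le b W1
  rw [Complex.ofReal_mul] at b1 b2
  set N := ‖p.H a ((1 + p.L : ℝ) * p.v) * p.F b p.v‖ with hN
  have N1 : 1 ≤ N := by
    rw [hN, norm_mul]
    refine le_trans (le_of_eq ?_) (mul_le_mul b1 f1 (Real.exp_pos _).le (norm_nonneg _))
    rw [← Real.exp_add]; simp
  have N2 : N ≤ Real.exp (8 * p.m * p.L / p.ρ) := by
    rw [hN, norm_mul]
    exact (mul_le_of_le_one_right (norm_nonneg _) f2).trans b2
  refine ⟨b, N⁻¹, hb, ?_, inv_le_one_of_one_le₀ N1, fun u h1 h2 hi => ?_⟩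
  · rw [τ0, Real.exp_neg]; gcongr
  refine cross (h := fun u => (N⁻¹ : ℝ) * (p.H a ((1 + p.L : ℝ) * u) * p.F b u))
    (D := fun u => (1 + p.L : ℝ) * p.DH a ((1 + p.L : ℝ) * u) + p.DF b u)
    (xL := (p.w0 - p.lam) / (1 + p.L)) (xR := 1 + 2 * p.L1) (by linarith) (by linarith)
    (by linarith) (le_trans ?_ c1) c2 c3 ?_ (fun x _ => ?_) (fun w hw hi => ?_) u ⟨h1, h2⟩ hi
  · gcongr; exact div_le_self h0.le (by linarith)
  · rw [norm_mul, ← hN, Complex.norm_real, Real.norm_of_nonneg (by positivity)]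
    field_simp
  · rw [← Complex.ofReal_mul]
    simp only [Complex.mul_im, H_im, F_im, Complex.ofReal_im, mul_zero, zero_mul, add_zero]
  · obtain ⟨-, -, W2, O2⟩ := win_scale hw.1 hw.2 hi a
    obtain ⟨W1, O1, -⟩ := win_scale hw.1 hw.2 hi b
    refine ⟨?_, vir_D ha hb hb2 hk hw.1 hw.2 hi rfl⟩
    have n0 : ((N⁻¹ : ℝ) : ℂ) ≠ 0 := by exact_mod_cast (by positivity : N⁻¹ ≠ 0)
    exact ((LD.const n0 w).mul (((H_LD ha W2 O2).scale _).mul (F_LD W1 O1))).congr (zero_add _)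

lemma exp_le' {x y : ℝ} (h0 : 0 ≤ x) (h1 : x ≤ 1) (h : 1 + 2 * x ≤ y) (n : ℕ) :
    Real.exp (n * x) ≤ y ^ n := by
  rw [Real.exp_nat_mul]
  have := Real.abs_exp_sub_one_le (x := x) (by rw [abs_of_nonneg h0]; exact h1)
  rw [abs_of_nonneg h0] at this
  gcongr
  linarith [le_abs_self (Real.exp x - 1)]

theorem start (p : Par) : ∃ τ : ℝ, p.τ0 ≤ τ ∧ τ ≤ 1 ∧
    (∀ u : ℂ, 1 + p.L1 / 8 ≤ u.re → u.re ≤ 1 + 7 * p.L1 / 8 → |u.im| ≤ p.δ →
      p.Tri (1 + p.L1 / 2) u (τ * ((u / (1 + p.L1 / 4 : ℝ)) ^ p.G0 * p.F 0 u))) ∧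
    ∀ x : ℝ, 1 + 7 * p.L1 / 8 ≤ x →
      10000 ≤ (x / (1 + p.L1 / 4)) ^ p.G0 * (τ * p.δ ^ (6 * p.m + 1)) := by
  obtain ⟨h0, a1, a2, a3, a4, a5, -⟩ := p.sc
  obtain ⟨c1, c2, c3⟩ := p.kk
  have W1 : p.Win (1 + p.L1 / 2 : ℝ) := p.winR (by linarith) (by linarith)
  have f1 := F_ge (a := 0) (by omega) W1 (Or.inl rfl)
  have f2 := F_le 0 W1
  have l0 : 0 < p.L1 := by linarith
  have k := p.k9b
  rw [Real.exp_neg, inv_le_comm₀ (Real.exp_pos _) (by positivity)] at k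
  have k' : 10000 ≤ Real.exp (p.G0 * (p.L1 / 10)) * p.δ ^ (6 * p.m + 1) := by
    rw [inv_div, div_le_iff₀ (by positivity)] at k
    rwa [← mul_div_assoc]
  set y := (1 + p.L1 / 2) / (1 + p.L1 / 4) with hy
  have y0 : 0 < y := by positivity
  have y1 : Real.exp (p.G0 * (p.L1 / 10)) ≤ y ^ p.G0 := exp_le' (by linarith) (by linarith)
    (by rw [hy, le_div_iff₀ (by linarith)]; nlinarith only [l0, a5]) _
  have y2 : y ^ p.G0 ≤ Real.exp (8 * p.m * p.L / p.ρ) := by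
    refine le_trans ?_ (Real.exp_le_exp.2 p.k9c)
    rw [Real.exp_nat_mul]
    gcongr
    refine le_trans ?_ (Real.add_one_le_exp _)
    rw [hy, div_le_iff₀ (by linarith)]; nlinarith only [l0]
  set N := y ^ p.G0 * ‖p.F 0 (1 + p.L1 / 2 : ℝ)‖ with hN
  have N1 : 1 ≤ N := by
    have := mul_le_mul y1 f1 (by positivity) (by positivity)
    linarith
  have N2 : N ≤ y ^ p.G0 := mul_le_of_le_one_right (by positivity) f2
  refine ⟨N⁻¹, ?_, inv_le_one_of_one_le₀ N1, fun u h1 h2 hi => ?_, fun x hx => ?_⟩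
  · rw [τ0, Real.exp_neg]; gcongr; linarith
  · refine cross (h := fun u => (N⁻¹ : ℝ) * ((u / (1 + p.L1 / 4 : ℝ)) ^ p.G0 * p.F 0 u))
      (D := fun u => p.G0 * u⁻¹ + p.DF 0 u) (xL := 1 + p.L1 / 8) (xR := 1 + 7 * p.L1 / 8)
      (by linarith) (by linarith) (by linarith) c1 c2 c3 ?_ (fun x _ => ?_) (fun w hw hi => ?_)
      u ⟨h1, h2⟩ hi
    · rw [norm_mul, norm_mul, norm_pow, ← Complex.ofReal_div, Complex.norm_real, Complex.norm_real,
        Real.norm_of_nonneg y0.le, ← hN, Real.norm_of_nonneg (by positivity)]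
      field_simp
    · rw [← Complex.ofReal_div, ← Complex.ofReal_pow]
      simp only [Complex.mul_im, F_im, Complex.ofReal_im, mul_zero, zero_mul, add_zero]
    have W : p.Win w := ⟨hw.1, by linarith [hw.2], hi⟩
    have n0 : ((N⁻¹ : ℝ) : ℂ) ≠ 0 := by exact_mod_cast (by positivity : N⁻¹ ≠ 0)
    have n1 : ((1 + p.L1 / 4 : ℝ) : ℂ) ≠ 0 := by exact_mod_cast (by positivity : 1 + p.L1 / 4 ≠ 0)
    have w1 : 1 ≤ ‖w‖ := by linarith [hw.1, Complex.re_le_norm w]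
    have n2 : w - 0 ≠ 0 := norm_pos_iff.1 (by rw [sub_zero]; linarith)
    have ld := (LD.const n0 w).mul ((((LD.lin n2).div (LD.const n1 w)).pow p.G0).mul
      (F_LD (a := 0) W (Or.inl rfl)))
    simp only [sub_zero, zero_add] at ld
    have b1 := (inv_diff (x := w) (y := 1) one_pos one_pos w1 (by simp)).1
    rw [inv_one, mul_one, div_one] at b1
    have b2 : ‖p.G0 * (w⁻¹ - 1)‖ ≤ p.G0 * (1 / 10) := by
      rw [norm_mul, Complex.norm_natCast]; gcongr; linarith [W.near]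
    have b3 : ∀ z : ℂ, z.re = p.ξ → ‖p.m * (w - z)⁻¹‖ ≤ 8 * p.m / p.L1 := fun z hz => by
      have c1 := Complex.re_le_norm (z - w)
      rw [norm_sub_rev, Complex.sub_re, hz, ξ] at c1
      have c2 := inv_le' (A := p.L1 / 8) (by positivity) (by linarith [hw.2] : _ ≤ ‖w - z‖)
      rw [norm_mul, Complex.norm_natCast]
      calc _ ≤ p.m * (1 / (p.L1 / 8)) := by gcongr
        _ = _ := by field_simp
    have b4 : ‖p.G0 * w⁻¹ + p.DF 0 w - p.G0‖ ≤ p.G0 / 2 := by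
      rw [show p.G0 * w⁻¹ + p.DF 0 w - p.G0 = p.G0 * (w⁻¹ - 1) + p.Es 0 w +
        p.m * (w - p.zp)⁻¹ + p.m * (w - p.zm)⁻¹ by simp only [DF]; push_cast; ring]
      refine ((norm_add_le _ _).trans (add_le_add_left
        ((norm_add_le _ _).trans (add_le_add_left (norm_add_le _ _) _)) _)).trans ?_
      have c1 := Es_le (a := 0) (by omega) W
      have c2 := p.k9
      have c3 : 16 * p.m / p.L1 = 8 * p.m / p.L1 + 8 * p.m / p.L1 := by ring
      linarith [b3 p.zp (by simp [zp]), b3 p.zm (by simp [zm])]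
    have b5 := (abs_le.1 ((Complex.abs_re_le_norm _).trans b4)).1
    rw [Complex.sub_re, Complex.natCast_re] at b5
    have b6 := norm_add_le (p.G0 * w⁻¹ + p.DF 0 w - p.G0) p.G0
    rw [sub_add_cancel, Complex.norm_natCast] at b6
    exact ⟨ld, by linarith, fun _ => by linarith, fun _ => by linarith⟩
  · have x1 : Real.exp (p.G0 * (p.L1 / 10)) ≤ (x / (1 + p.L1 / 2)) ^ p.G0 :=
      exp_le' (by linarith) (by linarith)
        (by rw [le_div_iff₀ (by linarith)]; nlinarith only [l0, a5, hx]) _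
    have e : x / (1 + p.L1 / 4) = x / (1 + p.L1 / 2) * y := by rw [hy]; field_simp
    have x2 : 1 ≤ y ^ p.G0 * N⁻¹ := by rw [← div_eq_mul_inv, one_le_div (by linarith)]; exact N2
    rw [e, mul_pow]
    calc 10000 ≤ Real.exp (p.G0 * (p.L1 / 10)) * 1 * p.δ ^ (6 * p.m + 1) := by linarith
      _ ≤ (x / (1 + p.L1 / 2)) ^ p.G0 * (y ^ p.G0 * N⁻¹) * p.δ ^ (6 * p.m + 1) := by
          gcongr; exact (Real.exp_pos _).le.trans x1
      _ = _ := by ring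

end Par
end Pool.Agent.H.MP_df6699_an
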