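import Pool.Agent.H.MP_df6699_an.G

set_option autoImplicit false
open Finset

namespace Pool.Agent.H.MP_df6699_an

noncomputable def T (co : ℕ → ℂ) (n : ℕ) (z : ℂ) : ℂ := ∑ k ∈ range n, co k * z ^ k

def Zn (W B : ℂ) (b : ℝ) : Prop := ∃ (r : ℝ) (s : ℂ), ‖s‖ ≤ b ∧ W = Complex.I * r * (1 + s) * B

lemma pw {t B W : ℂ} (h1 : ‖t - B‖ ≤ ‖B‖ / 100) (h2 : Zn W B (1 / 4)) :
    ‖W‖ / 2 ≤ ‖t + W‖ ∧ ‖B‖ / 2 ≤ ‖t + W‖ := by
  obtain ⟨r, s, hs, rfl⟩ := h2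
  have a1 : 1 ≤ ‖1 + Complex.I * r‖ := by simpa using Complex.re_le_norm (1 + Complex.I * r)
  have a2 : |r| ≤ ‖1 + Complex.I * r‖ := by simpa using Complex.abs_im_le_norm (1 + Complex.I * r)
  have e : (1 + Complex.I * r) * B = (t + Complex.I * r * (1 + s) * B) - (t - B) -
    Complex.I * r * s * B := by ring
  have a3 := congrArg norm e
  have a4 := (norm_sub_le _ _).trans (add_le_add_left (norm_sub_le
    (t + Complex.I * r * (1 + s) * B) (t - B)) ‖Complex.I * r * s * B‖)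
  rw [← a3, norm_mul] at a4
  have a5 : ‖1 + s‖ ≤ 5 / 4 := (norm_add_le _ _).trans (by rw [norm_one]; linarith)
  simp only [norm_mul, Complex.norm_I, Complex.norm_real, Real.norm_eq_abs, one_mul] at a4 ⊢
  have b0 := norm_nonneg B
  have b1 : |r| * ‖s‖ * ‖B‖ ≤ |r| * (1 / 4) * ‖B‖ := by gcongr
  have b2 : |r| * ‖1 + s‖ * ‖B‖ ≤ |r| * (5 / 4) * ‖B‖ := by gcongr
  have b3 := mul_le_mul_of_nonneg_right a1 b0
  have b4 := mul_le_mul_of_nonneg_right a2 b0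
  constructor <;> linarith

lemma Zn.mul {W B R : ℂ} {e : ℝ} (h : Zn W B (1 / 10)) (he : e * e = 1) (hR : ‖R - e‖ ≤ 1 / 10) :
    Zn (W * R) B (1 / 4) := by
  obtain ⟨r, s, hs, rfl⟩ := h
  have he' : (e : ℂ) * e = 1 := by exact_mod_cast he
  have ne : ‖(e : ℂ)‖ = 1 := by
    rw [Complex.norm_real, Real.norm_eq_abs]
    rcases mul_self_eq_one_iff.1 he with h | h <;> simp [h]
  refine ⟨r * e, s + (1 + s) * (e * (R - e)), ?_, ?_⟩
  · refine (norm_add_le _ _).trans ?_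
    have a5 : ‖1 + s‖ ≤ 11 / 10 := (norm_add_le _ _).trans (by rw [norm_one]; linarith)
    rw [norm_mul, norm_mul, ne, one_mul]
    have : ‖1 + s‖ * ‖R - e‖ ≤ 11 / 10 * (1 / 10) := by gcongr
    linarith
  · push_cast
    linear_combination (-Complex.I * r * (1 + s) * B * (R - e)) * he'

lemma Zn.of {W B V A s0 s : ℂ} {r : ℝ} (h0 : ‖s0‖ ≤ 1 / 100) (hs : ‖s‖ ≤ 1 / 50)
    (hB : B = -(A * (1 + s0))) (hV : V = r * (1 + s)) (hW : W = Complex.I * V * A) :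
    Zn W B (1 / 10) := by
  have a1 := near_ge (x := 1 + s0) (b := 1 / 100) (by simpa using h0)
  have n : 1 + s0 ≠ 0 := norm_pos_iff.1 (by linarith)
  refine ⟨-r, (s - s0) / (1 + s0), ?_, ?_⟩
  · rw [norm_div, div_le_iff₀ (by linarith)]
    linarith [norm_sub_le s s0]
  · rw [hW, hB, hV]; push_cast; field_simp; ring

lemma Rk_ge {σ : ℕ → ℂ} {J j : ℕ} (h0 : ∀ k, J ≤ k → σ k = 0) (hj : J ≤ j) (u : ℂ) :
    Rk σ j u = Rk σ J u := by
  induction j, hj using Nat.le_induction with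
  | base => rfl
  | succ j hj ih =>
    rw [← ih]
    simp only [Rk, sum_range_succ, h0 j hj, h0 (j + 1) (by omega)]; ring

noncomputable def ext (co σ : ℕ → ℂ) (n : ℕ) (C : ℂ) (X : ℝ) (k : ℕ) : ℂ :=
  if k < n then co k else C * (σ (k - n) - sh σ (k - n)) / X ^ (k - n)

lemma T_ext (co σ : ℕ → ℂ) (n : ℕ) (C : ℂ) (X : ℝ) (z : ℂ) {k : ℕ} (hk : k ≤ n) :
    T (ext co σ n C X) k z = T co k z :=
  sum_congr rfl fun j hj => by rw [ext, if_pos (by simp at hj; omega)]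

lemma T_ext' (co σ : ℕ → ℂ) (n : ℕ) (C : ℂ) (X : ℝ) (z : ℂ) (j : ℕ) :
    T (ext co σ n C X) (n + (j + 1)) z = T co n z + C * z ^ n * Rk σ j (z / X) := by
  rw [T, sum_range_add, ← Rk_sum, mul_sum]
  congr 1
  · exact T_ext co σ n C X z le_rfl
  · refine sum_congr rfl fun i _ => ?_
    rw [ext, if_neg (by omega), Nat.add_sub_cancel_left, pow_add, div_pow]; ring

namespace Par
variable {p : Par}

def Pt (p : Par) (y : ℝ) (a : ℕ) (τ : ℝ) (u t B l : ℂ) : Prop :=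
  (u.re ≤ y → 100 * ‖l‖ ≤ ‖t‖) ∧ (y ≤ u.re → B ≠ 0 ∧ ‖t - B‖ ≤ ‖B‖ / 100 ∧
    ((‖u - 1‖ ≤ 5 * p.L1 ∧ Zn l B (1 / 10)) ∨ 100 * ‖B‖ ≤ ‖l‖) ∧
    ((u.re < p.w0 - p.lam ∧ (‖l * τ * p.F a u‖ ≤ ‖B‖ / 200 ∨ Zn (l * τ * p.F a u) B (1 / 10))) ∨
      (u.re ≤ 1 + 2 * p.L1 ∧ 300 * ‖B‖ ≤ ‖l * τ * p.F a u‖) ∨
      10000 * ‖B‖ ≤ ‖l‖ * (τ * p.δ ^ (6 * p.m + 1))))

def Hd (p : Par) (y : ℝ) (a : ℕ) (τ : ℝ) : Prop :=
  5 * a ≤ 16 * p.m ∧ p.τ0 ≤ τ ∧ τ ≤ 1 ∧ 1 + p.L1 / 8 ≤ y ∧ p.Ok a y ∧ y ≤ p.w0 - p.lam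

lemma Jδ (p : Par) : p.J * p.δ ≤ 1 / 100 := by
  obtain ⟨h0, h1, h2, h3, h4, -⟩ := p.sc
  exact le_trans (by gcongr; linarith) p.hJ

lemma small_pow {x y : ℝ} {G : ℕ} (h0 : 0 ≤ x) (h1 : x ≤ y - p.lam / 2) (h2 : y ≤ 2)
    (hG : p.G0 ≤ G) : (x / y) ^ G ≤ 1 / 1000 := by
  obtain ⟨a0, a1, a2, -⟩ := p.sc
  have y0 : 0 < y := by linarith
  have b1 : x / y ≤ Real.exp (-(p.lam / 4)) := by
    refine le_trans ?_ (Real.add_one_le_exp _)
    rw [div_le_iff₀ y0]; nlinarith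
  have b2 : (p.G0 : ℝ) * p.lam ≤ G * p.lam := by gcongr; linarith
  calc (x / y) ^ G ≤ Real.exp (-(p.lam / 4)) ^ G := by gcongr
    _ = (Real.exp (G * (p.lam / 4)))⁻¹ := by rw [Real.exp_neg, Real.exp_nat_mul, inv_pow]
    _ ≤ 1 / 1000 := by
      rw [one_div]
      gcongr
      linarith [Real.add_one_le_exp (G * (p.lam / 4)), p.k2]

lemma Gn_ge {a : ℕ} (ha : 5 * a ≤ 16 * p.m) : p.G0 ≤ p.Gn a ∧ p.J < p.Gn a := by
  obtain ⟨h0, a1, a2, a3, a4, -⟩ := p.sc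
  obtain ⟨-, g1, -⟩ := Gn_le ha
  have b2 : p.m / (1000 * p.L) ≤ p.m / (2 * p.ρ) := by gcongr <;> linarith
  have b3 := p.k6
  have b1 := p.k3
  have : 0 < p.L1 := by linarith
  have : 0 ≤ 8 / p.L1 := by positivity
  have : 0 ≤ 6 * p.m / p.θ ^ 2 := by positivity
  have : (0 : ℝ) ≤ p.J := by positivity
  exact ⟨by exact_mod_cast (by linarith : (p.G0 : ℝ) ≤ p.Gn a),
    by exact_mod_cast (by linarith : (p.J : ℝ) < p.Gn a)⟩

lemma Rk_8 {σ : ℕ → ℂ} (hσ : ∀ k < p.J, ‖σ k - (-1) ^ k‖ ≤ 1 / 100) (hσ0 : ∀ k, p.J ≤ k → σ k = 0)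
    {k : ℕ} (hk : k ≤ p.J) {u : ℂ} (h0 : 0 ≤ u.re) (h1 : u.re ≤ p.w0) (hi : |u.im| ≤ p.δ) :
    ‖Rk σ k u‖ ≤ 8 := by
  obtain ⟨a0, a1, a2, a3, a4, -⟩ := p.sc
  refine (Rk_up hσ hσ0 p.Jδ hk h0 hi).trans ?_
  have b1 := Complex.norm_le_abs_re_add_abs_im u
  rw [abs_of_nonneg h0] at b1
  have b2 := powJ (p := p) (u := (1 + 3 * p.L1 : ℝ)) (by
    rw [← Complex.ofReal_one, ← Complex.ofReal_sub, Complex.norm_real, Real.norm_of_nonneg] <;>
      linarith)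
  rw [Complex.norm_real, Real.norm_of_nonneg (by linarith)] at b2
  have b3 : max 1 ‖u‖ ^ k ≤ (1 + 3 * p.L1) ^ p.J :=
    (pow_le_pow_left₀ (by positivity) (max_le (by linarith)
      (by simp only [w0, ξ] at h1; linarith)) _).trans (pow_le_pow_right₀ (by linarith) hk)
  linarith

lemma pt_sec {y τ : ℝ} {a k : ℕ} {u t B l : ℂ} {σ : ℕ → ℂ} (hd : p.Hd y a τ)
    (hs : Spec p.J p.δ (p.θ ^ 2) τ (p.l a) σ) (h : p.Pt y a τ u t B l) (hl : l ≠ 0)
    (h0 : 0 ≤ u.re) (hi : |u.im| ≤ p.δ) (hk : k < p.J) : t + l * Rk σ k u ≠ 0 := by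
  obtain ⟨a0, a1, a2, a3, a4, -⟩ := p.sc
  obtain ⟨-, -, -, d1, -, d2⟩ := hd
  have l0 := norm_pos_iff.2 hl
  intro e
  have e2 : ‖t‖ = ‖l‖ * ‖Rk σ k u‖ := by
    rw [eq_neg_of_add_eq_zero_left e, norm_neg, norm_mul]
  rcases le_total u.re y with hy | hy
  · have b1 := h.1 hy
    have b2 := mul_le_mul_of_nonneg_left (Rk_8 hs.1 hs.2.1 hk.le h0 (by linarith) hi) l0.le
    linarith
  obtain ⟨b0, b1, b2 | b2, -⟩ := h.2 hy
  · have := (pw b1 (b2.2.mul (e := (-1) ^ k) (by rw [← mul_pow]; simp)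
      (by push_cast; exact Rk_zone hs.1 hs.2.1 p.hJ hk b2.1))).2
    rw [e, norm_zero] at this
    linarith [norm_pos_iff.2 b0]
  · have b3 := mul_le_mul_of_nonneg_left (Rk_low hs.1 p.Jδ hk (by linarith) hi) l0.le
    have b4 := norm_add_le (t - B) B
    rw [sub_add_cancel] at b4
    linarith

lemma pt_step {y τ τ' : ℝ} {a b : ℕ} {u t B l : ℂ} {σ : ℕ → ℂ} (hd : p.Hd y a τ)
    (hs : Spec p.J p.δ (p.θ ^ 2) τ (p.l a) σ) (h : p.Pt y a τ u t B l) (hl : l ≠ 0)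
    (h0 : 0 ≤ u.re) (hi : |u.im| ≤ p.δ) (hτ : p.τ0 ≤ τ') (hτ1 : τ' ≤ 1)
    (hv : ∀ u : ℂ, (p.w0 - p.lam) / (1 + p.L) ≤ u.re → u.re ≤ 1 + 2 * p.L1 →
      |u.im| ≤ p.δ / (1 + p.L) → p.Tri p.v u (τ' * (p.H a ((1 + p.L : ℝ) * u) * p.F b u))) :
    t + l * Rk σ p.J u ≠ 0 ∧
    p.Pt ((p.w0 - p.lam) / (1 + p.L)) b τ' (u / (1 + p.L : ℝ)) (t + l * Rk σ p.J u) (l * Rk σ p.J u)
      (Complex.I * l * (τ * ‖p.F a p.w0‖ * (u / p.w0) ^ p.Gn a)) := by
  obtain ⟨a0, a1, a2, a3, a4, a5, a6, -⟩ := p.sc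
  obtain ⟨ha, t0, t1, d1, d3, d2⟩ := hd
  have l0 := norm_pos_iff.2 hl
  have tp : 0 < τ := (Real.exp_pos _).trans_le t0
  have tp' : 0 < τ' := (Real.exp_pos _).trans_le hτ
  have ew : p.w0 = 1 + p.L1 + p.ρ := rfl
  have ev : p.v = 1 + p.L1 - p.ρ := rfl
  have hL : 0 < 1 + p.L := by linarith
  set R := Rk σ p.J u with hR
  set l' := Complex.I * l * (τ * ‖p.F a p.w0‖ * (u / p.w0) ^ p.Gn a) with hl'
  have nl : ‖l'‖ = ‖l‖ * (τ * ‖p.F a p.w0‖ * (‖u‖ / p.w0) ^ p.Gn a) := by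
    simp only [hl', norm_mul, Complex.norm_I, one_mul, norm_pow, norm_div, Complex.norm_real,
      Real.norm_of_nonneg tp.le, norm_norm, Real.norm_of_nonneg (by linarith : 0 ≤ p.w0)]
  set A := l * τ * p.F a u with hA
  have mdl : y ≤ u.re → u.re ≤ 1 + 2 * p.L1 → p.Win u ∧ p.Ok a u.re ∧ l' = Complex.I * p.H a u * A ∧
      ∃ s : ℂ, ‖s‖ ≤ 1 / 100 ∧ l * R = -(A * (1 + s)) ∧ 99 / 100 * ‖A‖ ≤ ‖l * R‖ ∧
        ‖l * R‖ ≤ 101 / 100 * ‖A‖ := fun hy h2 => by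
    have W : p.Win u := ⟨by linarith, by linarith, hi⟩
    have O := d3.mono hy
    obtain ⟨s, s1, s2⟩ := (hs.2.2 u (by linarith) hi (p.dist hi O)).1 (by linarith [W.near])
    have e : l * R = -(A * (1 + s)) := by rw [hR, s2, hA, F]; ring
    refine ⟨W, O, ?_, s, s1, e, ?_, ?_⟩
    · have := F_ne ha W O
      rw [hl', hA, Par.H]; field_simp
    · rw [e, norm_neg, norm_mul A, mul_comm]
      gcongr
      linarith [near_ge (x := 1 + s) (b := 1 / 100) (by simpa using s1)]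
    · rw [e, norm_neg, norm_mul A, mul_comm]
      gcongr
      linarith [near_le (x := 1 + s) (b := 1 / 100) (by simpa using s1)]
  have key : y ≤ u.re → t + l * R ≠ 0 ∧ ‖l * R‖ / 2 ≤ ‖t + l * R‖ ∧
      (p.w0 - p.lam ≤ u.re → l * R ≠ 0 ∧ ‖t + l * R - l * R‖ ≤ ‖l * R‖ / 100) := fun hy => by
    obtain ⟨b0, b1, -, b2⟩ := h.2 hy
    have B0 := norm_pos_iff.2 b0
    have b4 := norm_add_le (t - B) B
    rw [sub_add_cancel] at b4
    have big : 200 * ‖B‖ ≤ ‖l * R‖ → t + l * R ≠ 0 ∧ ‖l * R‖ / 2 ≤ ‖t + l * R‖ ∧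
        (p.w0 - p.lam ≤ u.re → l * R ≠ 0 ∧ ‖t + l * R - l * R‖ ≤ ‖l * R‖ / 100) := fun hb => by
      have c1 := norm_sub_le (t + l * R) t
      rw [add_sub_cancel_left] at c1
      rw [add_sub_cancel_right]
      exact ⟨norm_pos_iff.1 (by linarith), by linarith,
        fun _ => ⟨norm_pos_iff.1 (by linarith), by linarith⟩⟩
    rcases b2 with ⟨c0, c1⟩ | ⟨c0, c1⟩ | c1
    · obtain ⟨-, -, -, s, s1, s2, s3, s4⟩ := mdl hy (by linarith)
      rcases c1 with c1 | c1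
      · have c2 := norm_sub_le (t + l * R - (t - B)) (l * R)
        have c3 := norm_sub_le (t + l * R) (t - B)
        rw [show t + l * R - (t - B) - l * R = B by ring] at c2
        exact ⟨norm_pos_iff.1 (by linarith), by linarith, fun h => by linarith⟩
      · have := pw b1 (c1.mul (R := -(1 + s)) (e := -1) (by norm_num) (by
          rw [show -(1 + s) - ((-1 : ℝ) : ℂ) = -s by push_cast; ring, norm_neg]; linarith))
        rw [mul_neg, ← s2] at this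
        exact ⟨norm_pos_iff.1 (by linarith), this.1, fun h => by linarith⟩
    · obtain ⟨-, -, -, s, s1, s2, s3, s4⟩ := mdl hy c0
      exact big (by linarith)
    · refine big ?_
      have c2 := (hs.2.2 u (by linarith) hi (p.dist hi (d3.mono hy))).2
      have c3 : 1 ≤ ‖u‖ ^ p.J := one_le_pow₀ (by linarith [Complex.re_le_norm u])
      have c4 : p.δ ^ (6 * p.m + 1) ≤ p.δ ^ ((p.l a).length + 1) :=
        pow_le_pow_of_le_one a0.le (by linarith) (by rw [len]; omega)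
      have c5 : τ * p.δ ^ (6 * p.m + 1) / 10 * 1 ≤ ‖R‖ := le_trans (by gcongr) c2
      have c6 := mul_le_mul_of_nonneg_left c5 l0.le
      rw [norm_mul]; linarith
  have lft : u.re ≤ y → 92 * ‖l‖ ≤ ‖t + l * R‖ := fun hy => by
    have b1 := h.1 hy
    have b2 := mul_le_mul_of_nonneg_left (Rk_8 hs.1 hs.2.1 le_rfl h0 (by linarith) hi) l0.le
    have b3 := norm_sub_le (t + l * R) (l * R)
    rw [add_sub_cancel_right, norm_mul] at b3
    linarith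
  refine ⟨?_, fun hy => ?_, fun hy => ?_⟩
  · rcases le_total u.re y with hy | hy
    · exact norm_pos_iff.1 (by linarith [lft hy])
    · exact (key hy).1
  · rw [Complex.div_ofReal_re, div_le_div_iff_of_pos_right hL] at hy
    rcases le_total u.re y with hz | hz
    · have b1 := Complex.norm_le_abs_re_add_abs_im u
      rw [abs_of_nonneg h0] at b1
      have b2 := small_pow (p := p) (y := p.w0) (norm_nonneg u) (by linarith) (by linarith)
        (Gn_ge ha).1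
      have b3 : τ * ‖p.F a p.w0‖ * (‖u‖ / p.w0) ^ p.Gn a ≤ 1 * 1 * (1 / 1000) := by
        gcongr
        · exact pow_nonneg (div_nonneg (norm_nonneg _) (by linarith)) _
        · exact F_le a p.win_w0
      have b4 := mul_le_mul_of_nonneg_left b3 l0.le
      linarith [lft hz]
    · obtain ⟨W, O, e, s, s1, s2, s3, s4⟩ := mdl hz (by linarith)
      have b1 := mul_le_mul_of_nonneg_right ((record ha W O).1 hy) (norm_nonneg A)
      rw [e, norm_mul, norm_mul, Complex.norm_I, one_mul]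
      linarith [(key hz).2.1, norm_nonneg A]
  have hy' := hy
  rw [Complex.div_ofReal_re, div_le_div_iff_of_pos_right hL] at hy
  obtain ⟨b1, b2⟩ := (key (by linarith)).2.2 hy
  refine ⟨b1, b2, ?_⟩
  rcases le_total (1 + 2 * p.L1) u.re with hz | hz
  · have n1 := hz.trans (Complex.re_le_norm u)
    have c1 := mul_le_mul_of_nonneg_left (far ha t0 hτ n1) l0.le
    have c2 := Rk_up hs.1 hs.2.1 p.Jδ le_rfl h0 hi
    rw [max_eq_right (by linarith)] at c2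
    have c3 := mul_le_mul_of_nonneg_left c2 l0.le
    have c4 : 10000 * ‖l * R‖ ≤ ‖l'‖ * (τ' * p.δ ^ (6 * p.m + 1)) := by
      have : 0 ≤ ‖l‖ * ‖u‖ ^ p.J := by positivity
      rw [nl, norm_mul]; linarith
    have c5 : ‖l'‖ * (τ' * p.δ ^ (6 * p.m + 1)) ≤ ‖l'‖ := mul_le_of_le_one_right (norm_nonneg _)
      (mul_le_one₀ hτ1 (by positivity) (pow_le_one₀ a0.le (by linarith)))
    exact ⟨Or.inr (by linarith [norm_nonneg (l * R)]), Or.inr (Or.inr c4)⟩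
  obtain ⟨W, O, e, s, s1, s2, s3, s4⟩ := mdl (by linarith) hz
  set u' := u / (1 + p.L : ℝ) with hu'
  have c0 : ((1 + p.L : ℝ) : ℂ) ≠ 0 := by exact_mod_cast hL.ne'
  have eu : (1 + p.L : ℝ) * u' = u := by rw [hu']; field_simp
  have r1 : u'.re ≤ 1 + 2 * p.L1 := by
    rw [hu', Complex.div_ofReal_re]
    exact (div_le_self h0 (by linarith)).trans hz
  have r2 : |u'.im| ≤ p.δ / (1 + p.L) := by
    rw [hu', Complex.div_ofReal_im, abs_div, abs_of_pos hL]; gcongr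
  have A0 := norm_nonneg A
  constructor
  · obtain ⟨-, c2, c3⟩ := record ha W O
    rcases le_total (p.w0 + p.lam) u.re with hx | hx
    · right
      have := mul_le_mul_of_nonneg_right (c2 hx) A0
      rw [e, norm_mul (Complex.I * _), norm_mul Complex.I, Complex.norm_I, one_mul]
      linarith
    · obtain ⟨r, s', c4, c5⟩ := c3 (by rw [abs_le]; constructor <;> linarith)
      exact Or.inl ⟨by linarith [(win_scale hy' r1 r2 0).1.near], Zn.of s1 c4 s2 c5 e⟩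
  · obtain ⟨c1, c2, c3⟩ := hv u' hy' r1 r2
    rw [eu] at c1 c2 c3
    set V := τ' * (p.H a u * p.F b u') with hV
    have e2 : l' * τ' * p.F b u' = Complex.I * V * A := by rw [e, hV]; ring
    have e3 : ‖l' * τ' * p.F b u'‖ = ‖V‖ * ‖A‖ := by
      rw [e2, norm_mul, norm_mul Complex.I, Complex.norm_I, one_mul]
    rcases le_total (p.v + p.lam) u'.re with hx | hx
    · have := mul_le_mul_of_nonneg_right (c2 hx) A0
      exact Or.inr (Or.inl ⟨r1, by linarith⟩)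
    refine Or.inl ⟨by linarith, ?_⟩
    rcases le_total u'.re (p.v - p.lam) with hw | hw
    · have := mul_le_mul_of_nonneg_right (c1 hw) A0
      exact Or.inl (by linarith)
    · obtain ⟨r, s', c4, c5⟩ := c3 (by rw [abs_le]; constructor <;> linarith)
      exact Or.inr (Zn.of s1 c4 s2 c5 e2)

end Par
end Pool.Agent.H.MP_df6699_an
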