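import Pool.Agent.H.MP_df6699_an.I

set_option autoImplicit false
open Finset

namespace Pool.Agent.H.MP_df6699_an

lemma T_stab {co : ℕ → ℂ} {n j : ℕ} (h : ∀ k, n ≤ k → co k = 0) (hj : n ≤ j) (z : ℂ) :
    T co j z = T co n z := by
  induction j, hj using Nat.le_induction with
  | base => rfl
  | succ j hj ih => rw [← ih, T, sum_range_succ, h j hj, zero_mul, add_zero, T]

namespace Par
variable {p : Par}

def St (p : Par) (r : ℝ) (co : ℕ → ℂ) (n : ℕ) (C : ℂ) (X : ℝ) : Prop :=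
  1 ≤ X * p.δ ∧ C ≠ 0 ∧ (∀ k, n ≤ k → co k = 0) ∧
    (∀ j, 2 ≤ j → ∀ z : ℂ, r ≤ z.re → |z.im| ≤ 1 → T co j z ≠ 0) ∧
    ∃ (B : ℂ → ℂ) (y : ℝ) (a : ℕ) (τ : ℝ), p.Hd y a τ ∧
      ∀ z : ℂ, r ≤ z.re → |z.im| ≤ 1 → p.Pt y a τ (z / X) (T co n z) (B z) (C * z ^ n)

lemma uz {X : ℝ} (hX : 1 ≤ X * p.δ) {z : ℂ} (h0 : 0 ≤ z.re) (hi : |z.im| ≤ 1) :
    0 < X ∧ 0 ≤ (z / X).re ∧ |(z / X).im| ≤ p.δ := by
  have X0 : 0 < X := by
    by_contra hc
    push Not at hc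
    nlinarith [p.hδ]
  rw [Complex.div_ofReal_re, Complex.div_ofReal_im, abs_div, abs_of_pos X0, div_le_iff₀ X0]
  exact ⟨X0, by positivity, by linarith⟩

theorem step {r X : ℝ} {co : ℕ → ℂ} {n : ℕ} {C : ℂ} (hr : 0 < r) (h : p.St r co n C X) :
    ∃ (co' : ℕ → ℂ) (C' : ℂ) (G : ℕ), p.St r co' (n + G) C' ((1 + p.L) * X) ∧
      (∀ k < n, co' k = co k) ∧ p.m / (2 * p.ρ) ≤ G ∧ (∀ k, n + p.J < k → co' k = 0) ∧
      (∀ x : ℝ, 0 < x → x ≤ X → (∀ k, n ≤ k → ‖co' k‖ * x ^ k ≤ 3 * (‖C‖ * x ^ n)) ∧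
        ‖C'‖ * x ^ (n + G) ≤ ‖C‖ * x ^ n) ∧
      ∀ Y : ℝ, 3 * X ≤ Y → ‖C‖ * Y ^ n ≤ ‖C'‖ * Y ^ (n + G) ∧
        ‖C‖ * Y ^ n / 2 ≤ ‖co' (n + p.J)‖ * Y ^ (n + p.J) := by
  obtain ⟨hX, hC, hz, hg, B, y, a, τ, hd, hp⟩ := h
  obtain ⟨a0, a1, a2, a3, a4, a5, a6, -⟩ := p.sc
  have hd' := hd
  obtain ⟨ha, t0, t1, -⟩ := hd'
  obtain ⟨σ, hs⟩ := p.blk (p.l a) τ (p.l_near' a) (by rw [len]; omega) t0 t1
  obtain ⟨b, τ', hb, u0, u1, hv⟩ := virt ha
  obtain ⟨-, -, g1, g2⟩ := p.geo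
  obtain ⟨X0, -⟩ := uz (p := p) hX (z := 0) (by simp) (by simp)
  have tp : 0 < τ := (Real.exp_pos _).trans_le t0
  have ew : p.w0 = 1 + p.L1 + p.ρ := rfl
  have ee : p.e = 1 + p.L1 - 3 * p.L / 2 := rfl
  have w0 : 0 < p.w0 := by linarith
  have GJ := (Gn_ge ha).2
  have F0 := norm_pos_iff.2 (F_ne ha p.win_w0 (p.ok_w0 a))
  set G := p.Gn a with hG
  set C' : ℂ := Complex.I * C * (τ * ‖p.F a p.w0‖ / (X * p.w0) ^ G : ℝ) with hC'
  have nC : ∀ x : ℝ, 0 < x → ‖C'‖ * x ^ (n + G) =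
      ‖C‖ * x ^ n * (τ * ‖p.F a p.w0‖ * (x / X / p.w0) ^ G) := fun x hx => by
    rw [hC', norm_mul, norm_mul, Complex.norm_I, Complex.norm_real,
      Real.norm_of_nonneg (by positivity), pow_add, div_div, div_pow]
    ring
  have zer : ∀ k, n + p.J < k → ext co σ n C X k = 0 := fun k hk => by
    obtain ⟨j, rfl⟩ : ∃ j, k = n + (j + 1) := ⟨k - n - 1, by omega⟩
    rw [ext, if_neg (by omega), Nat.add_sub_cancel_left, hs.2.1 _ (by omega), sh,
      hs.2.1 _ (by omega)]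
    simp
  have pt : ∀ z : ℂ, r ≤ z.re → |z.im| ≤ 1 → C * z ^ n ≠ 0 ∧ _ := fun z h1 h2 => by
    obtain ⟨-, c1, c2⟩ := uz hX (hr.le.trans h1) h2
    have z0 : z ≠ 0 := fun h => by rw [h] at h1; simp at h1; linarith
    have l0 : C * z ^ n ≠ 0 := mul_ne_zero hC (pow_ne_zero _ z0)
    exact ⟨l0, pt_step hd hs (hp z h1 h2) l0 c1 c2 u0 u1 hv⟩
  refine ⟨ext co σ n C X, C', G, ⟨?_, ?_, fun k hk => zer k (by omega), fun j hj z h1 h2 => ?_,
    fun z => C * z ^ n * Rk σ p.J (z / X), (p.w0 - p.lam) / (1 + p.L), b, τ', ⟨hb, u0, u1, ?_, Or.inr ?_, ?_⟩,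
    fun z h1 h2 => ?_⟩, fun k hk => if_pos hk, (Gn_le ha).2.1, zer, fun x x0 x1 => ⟨fun k hk => ?_, ?_⟩,
    fun Y hY => ⟨?_, ?_⟩⟩
  · nlinarith
  · refine mul_ne_zero (mul_ne_zero Complex.I_ne_zero hC) ?_
    exact_mod_cast (by positivity : τ * ‖p.F a p.w0‖ / (X * p.w0) ^ G ≠ 0)
  · rcases le_or_gt j n with hn | hn
    · rw [T_ext _ _ _ _ _ _ hn]; exact hg j hj z h1 h2
    obtain ⟨i, rfl⟩ : ∃ i, j = n + (i + 1) := ⟨j - n - 1, by omega⟩
    rw [T_ext']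
    obtain ⟨-, c1, c2⟩ := uz hX (hr.le.trans h1) h2
    rcases lt_or_ge i p.J with hi | hi
    · exact pt_sec hd hs (hp z h1 h2) (pt z h1 h2).1 c1 c2 hi
    · rw [Rk_ge hs.2.1 hi]; exact (pt z h1 h2).2.1
  · exact le_trans (by linarith) g1
  · linarith
  · linarith
  · have := (pt z h1 h2).2.2
    have e1 : T (ext co σ n C X) (n + G) z = T co n z + C * z ^ n * Rk σ p.J (z / X) := by
      rw [← T_ext']
      exact T_stab (fun k hk => zer k (by omega)) (by omega) z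
    have e2 : z / ((1 + p.L) * X : ℝ) = z / X / (1 + p.L : ℝ) := by
      rw [div_div, Complex.ofReal_mul, mul_comm]
    have e3 : C' * z ^ (n + G) =
        Complex.I * (C * z ^ n) * (τ * ‖p.F a p.w0‖ * (z / X / p.w0) ^ G) := by
      rw [hC', pow_add, div_div, div_pow]; push_cast; ring
    rw [e1, e2, e3]; exact this
  · obtain ⟨j, rfl⟩ := Nat.exists_eq_add_of_le hk
    rw [ext, if_neg (by omega), Nat.add_sub_cancel_left, norm_div, norm_mul, norm_pow,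
      Complex.norm_real, Real.norm_of_nonneg X0.le, pow_add]
    have b1 : ‖σ j - sh σ j‖ ≤ 3 := by
      refine (norm_sub_le _ _).trans ?_
      have c1 := sig_le hs.1 hs.2.1
      cases j with
      | zero => simp only [sh, norm_zero]; linarith [c1 0]
      | succ j => simp only [sh]; linarith [c1 j, c1 (j + 1)]
    have b2 : x ^ j / X ^ j ≤ 1 := by rw [div_le_one (by positivity)]; gcongr
    calc _ = ‖σ j - sh σ j‖ * (‖C‖ * x ^ n) * (x ^ j / X ^ j) := by ring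
      _ ≤ 3 * (‖C‖ * x ^ n) * 1 := by gcongr
      _ = _ := mul_one _
  · rw [nC x x0]
    refine mul_le_of_le_one_right (by positivity) (mul_le_one₀
      (mul_le_one₀ t1 (norm_nonneg _) (F_le a p.win_w0)) (by positivity)
      (pow_le_one₀ (by positivity) ?_))
    rw [div_le_one w0, div_le_iff₀ X0]; nlinarith
  · have Y0 : 0 < Y := by linarith
    have b0 : 3 ≤ Y / X := by rw [le_div_iff₀ X0]; exact hY
    have b1 := far (τ' := 1) (x := Y / X) ha t0 (t0.trans t1) (by linarith)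
    have b2 : 1 ≤ (Y / X) ^ p.J := one_le_pow₀ (by linarith)
    have b3 : p.δ ^ (6 * p.m + 1) ≤ 1 := pow_le_one₀ a0.le (by linarith)
    have b4 := mul_le_mul_of_nonneg_left b3
      (by positivity : 0 ≤ τ * ‖p.F a p.w0‖ * (Y / X / p.w0) ^ G)
    rw [nC Y Y0]
    exact le_mul_of_one_le_right (by positivity) (by linarith)
  · have Y0 : 0 < Y := by linarith
    rw [ext, if_neg (by omega), Nat.add_sub_cancel_left, norm_div, norm_mul, norm_pow,
      Complex.norm_real, Real.norm_of_nonneg X0.le, pow_add, hs.2.1 _ le_rfl, zero_sub, norm_neg]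
    have b1 : 1 / 2 ≤ ‖sh σ p.J‖ := by
      obtain ⟨j, hj⟩ : ∃ j, p.J = j + 1 := ⟨p.J - 1, by have := p.hJ0; omega⟩
      have c1 := hs.1 j (by omega)
      have c2 := norm_sub_norm_le ((-1 : ℂ) ^ j) (σ j)
      rw [norm_sub_rev, norm_pow, norm_neg, norm_one, one_pow] at c2
      rw [hj, sh]; linarith
    have b2 : 1 ≤ Y ^ p.J / X ^ p.J := by rw [one_le_div (by positivity)]; gcongr; linarith
    calc _ = 1 / 2 * (‖C‖ * Y ^ n) * 1 := by ring
      _ ≤ ‖sh σ p.J‖ * (‖C‖ * Y ^ n) * (Y ^ p.J / X ^ p.J) := by gcongr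
      _ = _ := by ring

theorem iter {r X Y : ℝ} {co : ℕ → ℂ} {n : ℕ} {C : ℂ} (hr : 0 < r) (h : p.St r co n C X)
    (hY : 6 * X ≤ Y) (i : ℕ) (hi : (1 + p.L) ^ i ≤ 2) :
    ∃ (co' : ℕ → ℂ) (n' : ℕ) (C' : ℂ), p.St r co' n' C' ((1 + p.L) ^ i * X) ∧ n ≤ n' ∧
      i * (p.m / (2 * p.ρ)) ≤ n' ∧ (∀ k < n, co' k = co k) ∧
      (∀ k, n ≤ k → ‖co' k‖ * X ^ k ≤ 3 * (‖C‖ * X ^ n)) ∧ ‖C'‖ * X ^ n' ≤ ‖C‖ * X ^ n ∧
      ‖C‖ * Y ^ n ≤ ‖C'‖ * Y ^ n' := by
  obtain ⟨X0, -⟩ := uz (p := p) h.1 (z := 0) (by simp) (by simp)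
  obtain ⟨a0, a1, a2, a3, -⟩ := p.sc
  induction i with
  | zero =>
    refine ⟨co, n, C, by simpa using h, le_rfl, by simp, fun _ _ => rfl, fun k hk => ?_, le_rfl,
      le_rfl⟩
    rw [h.2.2.1 k hk, norm_zero, zero_mul]; positivity
  | succ i ih =>
    have b0 : 1 ≤ (1 + p.L) ^ i := one_le_pow₀ (by linarith)
    have b1 : (1 + p.L) ^ i ≤ 2 := le_trans (pow_le_pow_right₀ (by linarith) (by omega)) hi
    obtain ⟨c1, n1, C1, s1, s2, s3, s4, s5, s6, s7⟩ := ih b1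
    obtain ⟨c2, C2, G, t1, t2, t3, -, t4, t5⟩ := step hr s1
    obtain ⟨t6, t7⟩ := t4 X X0 (le_mul_of_one_le_left X0.le b0)
    refine ⟨c2, n1 + G, C2, by rwa [pow_succ', mul_assoc], by omega, by push_cast; linarith,
      fun k hk => by rw [t2 k (by omega), s4 k hk], fun k hk => ?_, t7.trans s6,
      s7.trans (t5 Y (by nlinarith)).1⟩
    rcases lt_or_ge k n1 with h' | h'
    · rw [t2 k h']; exact s5 k hk
    · linarith [t6 k h']

theorem begin_ {r X : ℝ} {co : ℕ → ℂ} {N : ℕ} (hr : 0 < r) (hX : 1 ≤ X * p.δ) (hN : co N ≠ 0)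
    (hz : ∀ k, N < k → co k = 0)
    (hg : ∀ j, 2 ≤ j → ∀ z : ℂ, r ≤ z.re → |z.im| ≤ 1 → T co j z ≠ 0)
    (ht : ∀ z : ℂ, r ≤ z.re → ‖T co (N + 1) z - co N * z ^ N‖ ≤ ‖co N * z ^ N‖ / 100) :
    p.St r co (N + p.G0) (Complex.I * co N / (X * (1 + p.L1 / 4) : ℝ) ^ p.G0) X := by
  obtain ⟨a0, a1, a2, a3, a4, a5, a6, -⟩ := p.sc
  obtain ⟨X0, -⟩ := uz (p := p) hX (z := 0) (by simp) (by simp)
  obtain ⟨τ, t0, t1, t2, t3⟩ := p.start
  have G0 : 0 < p.G0 := by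
    have := p.kk.2.1
    exact_mod_cast (by linarith : (0 : ℝ) < p.G0)
  have ew : p.w0 = 1 + p.L1 + p.ρ := rfl
  set y := 1 + p.L1 / 4 with hy
  have y0 : 0 < y := by linarith
  have n0 : ((X * y : ℝ) : ℂ) ≠ 0 := by exact_mod_cast (by positivity : X * y ≠ 0)
  refine ⟨hX, div_ne_zero (mul_ne_zero Complex.I_ne_zero hN) (pow_ne_zero _ n0),
    fun k hk => hz k (by omega), hg, fun z => co N * z ^ N, y - p.lam, 0, τ,
    ⟨by omega, t0, t1, by linarith, Or.inl rfl, by linarith⟩, fun z h1 h2 => ?_⟩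
  obtain ⟨-, c1, c2⟩ := uz hX (hr.le.trans h1) h2
  have z0 : z ≠ 0 := fun h => by rw [h] at h1; simp at h1; linarith
  have B0 : co N * z ^ N ≠ 0 := mul_ne_zero hN (pow_ne_zero _ z0)
  have e : Complex.I * co N / (X * y : ℝ) ^ p.G0 * z ^ (N + p.G0) =
      Complex.I * (z / X / y) ^ p.G0 * (co N * z ^ N) := by
    rw [div_div, div_pow, pow_add]; push_cast; ring
  have h3 := ht z h1
  rw [e, T_stab (n := N + 1) (fun k hk => hz k (by omega)) (by omega)]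
  set u := z / X
  set B := co N * z ^ N
  set t := T co (N + 1) z
  have nB := norm_pos_iff.2 B0
  have nl : ‖Complex.I * (u / y) ^ p.G0 * B‖ = (‖u‖ / y) ^ p.G0 * ‖B‖ := by
    rw [norm_mul, norm_mul, Complex.norm_I, one_mul, norm_pow, norm_div, Complex.norm_real,
      Real.norm_of_nonneg y0.le]
  have b1 := Complex.norm_le_abs_re_add_abs_im u
  rw [abs_of_nonneg c1] at b1
  have b2 := Complex.re_le_norm u
  refine ⟨fun h => ?_, fun h => ⟨B0, h3, ?_, ?_⟩⟩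
  · have d1 := small_pow (p := p) (y := y) (norm_nonneg u) (by linarith) (by linarith) le_rfl
    have d2 := mul_le_mul_of_nonneg_right d1 nB.le
    have d3 := norm_sub_le t (t - B)
    rw [sub_sub_cancel] at d3
    linarith
  · rcases le_total (y + p.lam) u.re with hx | hx
    · right
      have d1 : 1 + p.lam / 2 ≤ ‖u‖ / y := by rw [le_div_iff₀ y0]; nlinarith
      have d2 := one_add_mul_le_pow (a := p.lam / 2) (by linarith) p.G0
      have d3 : (1 + p.lam / 2) ^ p.G0 ≤ (‖u‖ / y) ^ p.G0 := by gcongr; linarith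
      have d4 : 100 ≤ (‖u‖ / y) ^ p.G0 := by linarith [p.k2]
      rw [nl]; gcongr
    · have W : p.Win u := ⟨by linarith, by linarith, c2⟩
      refine Or.inl ⟨by linarith [W.near], (u.re / y) ^ p.G0,
        (1 + u.im * Complex.I / u.re) ^ p.G0 - 1, ?_, ?_⟩
      · refine (pow_near _ _ (x := 1 / 20) (le_trans ?_ (p.k1.trans (by norm_num)))
          (by norm_num)).trans (by norm_num)
        gcongr
        rw [norm_div, norm_mul, Complex.norm_I, mul_one, Complex.norm_real, Complex.norm_real,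
          Real.norm_eq_abs, Real.norm_of_nonneg c1]
        exact (div_le_self (abs_nonneg _) (by linarith)).trans c2
      · have r0 : (u.re : ℂ) ≠ 0 := by exact_mod_cast (by linarith : u.re ≠ 0)
        have e5 : u / y = (u.re : ℂ) / y * (1 + u.im * Complex.I / u.re) := by
          have := Complex.re_add_im u
          rw [div_mul_eq_mul_div, mul_add, mul_one, mul_div_cancel₀ _ r0, this]
        rw [add_sub_cancel, e5, mul_pow]
        push_cast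
        ring
  · rcases le_total (1 + 7 * p.L1 / 8) u.re with hx | hx
    · refine Or.inr (Or.inr ?_)
      have := mul_le_mul_of_nonneg_right (t3 ‖u‖ (by linarith)) nB.le
      rw [nl]; linarith
    obtain ⟨d1, d2, d3⟩ := t2 u (by linarith) hx c2
    set V := τ * ((u / y) ^ p.G0 * p.F 0 u) with hV
    have e2 : Complex.I * (u / y) ^ p.G0 * B * τ * p.F 0 u = Complex.I * V * B := by rw [hV]; ring
    have e3 : ‖Complex.I * V * B‖ = ‖V‖ * ‖B‖ := by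
      rw [norm_mul, norm_mul, Complex.norm_I, one_mul]
    rw [e2, e3]
    rcases le_total (1 + p.L1 / 2 + p.lam) u.re with hw | hw
    · have := mul_le_mul_of_nonneg_right (d2 hw) nB.le
      exact Or.inr (Or.inl ⟨by linarith, by linarith⟩)
    refine Or.inl ⟨by linarith, ?_⟩
    rcases le_total u.re (1 + p.L1 / 2 - p.lam) with hw' | hw'
    · have := mul_le_mul_of_nonneg_right (d1 hw') nB.le
      exact Or.inl (by linarith)
    · obtain ⟨r, s, c4, c5⟩ := d3 (by rw [abs_le]; constructor <;> linarith)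
      exact Or.inr ⟨r, s, by linarith, by rw [c5]; ring⟩

theorem burst {r X : ℝ} {co : ℕ → ℂ} {N : ℕ} (hr : 0 < r) (hX : 1 ≤ X * p.δ) (hN : co N ≠ 0)
    (hz : ∀ k, N < k → co k = 0)
    (hg : ∀ j, 2 ≤ j → ∀ z : ℂ, r ≤ z.re → |z.im| ≤ 1 → T co j z ≠ 0)
    (ht : ∀ z : ℂ, r ≤ z.re → ‖T co (N + 1) z - co N * z ^ N‖ ≤ ‖co N * z ^ N‖ / 100)
    (i : ℕ) (hi : (1 + p.L) ^ i ≤ 2) :
    ∃ (co' : ℕ → ℂ) (N' : ℕ), N < N' ∧ i * (p.m / (2 * p.ρ)) ≤ N' ∧ (∀ k ≤ N, co' k = co k) ∧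
      (∀ k, N' < k → co' k = 0) ∧
      (∀ j, 2 ≤ j → ∀ z : ℂ, r ≤ z.re → |z.im| ≤ 1 → T co' j z ≠ 0) ∧
      (∀ k, N < k → ‖co' k‖ * X ^ k ≤ 3 * (‖co N‖ * X ^ N)) ∧
      ‖co N‖ * (6 * X) ^ N / 2 ≤ ‖co' N'‖ * (6 * X) ^ N' := by
  obtain ⟨a0, a1, a2, a3, a4, a5, a6, -⟩ := p.sc
  obtain ⟨X0, -⟩ := uz (p := p) hX (z := 0) (by simp) (by simp)
  have G0 : 0 < p.G0 := by
    have := p.kk.2.1
    exact_mod_cast (by linarith : (0 : ℝ) < p.G0)
  obtain ⟨c1, n1, C1, s1, s2, s3, s4, s5, s6, s7⟩ :=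
    iter hr (begin_ hr hX hN hz hg ht) le_rfl i hi
  obtain ⟨c2, C2, G, t1, t2, -, t3, t4, t5⟩ := step hr s1
  have b0 : 1 ≤ (1 + p.L) ^ i := one_le_pow₀ (by linarith)
  obtain ⟨t6, -⟩ := t4 X X0 (le_mul_of_one_le_left X0.le b0)
  have y0 : 0 < 1 + p.L1 / 4 := by linarith
  have nC : ∀ x : ℝ, ‖Complex.I * co N / (X * (1 + p.L1 / 4) : ℝ) ^ p.G0‖ * x ^ (N + p.G0) =
      ‖co N‖ * x ^ N * (x / (X * (1 + p.L1 / 4))) ^ p.G0 := fun x => by
    rw [norm_div, norm_mul, Complex.norm_I, norm_pow, Complex.norm_real,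
      Real.norm_of_nonneg (by positivity), pow_add, div_pow]
    ring
  rw [nC] at s5 s6 s7
  have u1 : ‖co N‖ * X ^ N * (X / (X * (1 + p.L1 / 4))) ^ p.G0 ≤ ‖co N‖ * X ^ N :=
    mul_le_of_le_one_right (by positivity) (pow_le_one₀ (by positivity)
      (by rw [div_le_one (by positivity)]; nlinarith))
  have u2 : ‖co N‖ * (6 * X) ^ N ≤
      ‖co N‖ * (6 * X) ^ N * (6 * X / (X * (1 + p.L1 / 4))) ^ p.G0 :=
    le_mul_of_one_le_right (by positivity) (one_le_pow₀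
      (by rw [one_le_div (by positivity)]; nlinarith))
  refine ⟨c2, n1 + p.J, by omega, s3.trans (by push_cast; linarith [Nat.cast_nonneg (α := ℝ) p.J]),
    fun k hk => by rw [t2 k (by omega), s4 k (by omega)], t3, t1.2.2.2.1, fun k hk => ?_, ?_⟩
  · rcases lt_or_ge k (N + p.G0) with h | h
    · rw [t2 k (by omega), s4 k h, hz k hk, norm_zero, zero_mul]; positivity
    rcases lt_or_ge k n1 with h' | h'
    · rw [t2 k h']; linarith [s5 k h]
    · linarith [t6 k h']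
  · linarith [(t5 (6 * X) (by nlinarith)).2]

end Par
end Pool.Agent.H.MP_df6699_an
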