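import Pool.Agent.H.MP_df6699_an.J

set_option autoImplicit false
open Finset

namespace Pool.Agent.H.MP_df6699_an

lemma pw_exp {T : ℝ} (h : 0 ≤ T) (k : ℕ) : T ^ k ≤ Real.exp (k * T) := by
  rw [Real.exp_nat_mul]
  gcongr
  linarith [Real.add_one_le_exp T]

lemma exists_par (t : ℕ) (ht : 10 ^ 10 ≤ t) : ∃ p : Par, p.δ = 1 / (t : ℝ) ^ 140 ∧
    p.L = 1 / (t : ℝ) ^ 124 ∧ p.m / (2 * p.ρ) = (t : ℝ) ^ 157 / 2 := by
  have hT : (10 : ℝ) ^ 10 ≤ t := by exact_mod_cast ht
  obtain ⟨T, hTt⟩ : ∃ T : ℝ, (t : ℝ) = T := ⟨_, rfl⟩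
  rw [hTt] at hT ⊢
  have T1 : 1 ≤ T := by linarith
  have T0 : 0 < T := by linarith
  have P : ∀ a b : ℕ, a < b → 10 ^ 10 * T ^ a ≤ T ^ b := fun a b h =>
    calc 10 ^ 10 * T ^ a ≤ T * T ^ a := by gcongr
      _ = T ^ (a + 1) := by ring
      _ ≤ T ^ b := pow_le_pow_right₀ T1 h
  have P1 : ∀ a : ℕ, 1 ≤ T ^ a := fun a => one_le_pow₀ T1
  have D : ∀ a b : ℕ, a < b → 10 ^ 10 * (1 / T ^ b) ≤ 1 / T ^ a := fun a b h => by
    rw [mul_one_div, div_le_div_iff₀ (by positivity) (by positivity), one_mul]; exact P a b h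
  have D0 : ∀ a : ℕ, 0 < 1 / T ^ a := fun a => by positivity
  have dl : Real.exp (-(980 * T ^ 29)) ≤ (1 / T ^ 140) ^ (6 * t ^ 28 + 1) := by
    have a1 : Real.exp (-(140 * T)) ≤ 1 / T ^ 140 := by
      rw [Real.exp_neg, one_div]
      gcongr
      exact_mod_cast pw_exp T0.le 140
    refine le_trans ?_ (pow_le_pow_left₀ (Real.exp_pos _).le a1 _)
    rw [← Real.exp_nat_mul]
    gcongr
    push_cast [hTt]
    nlinarith [P1 28]
  have eT : T ≤ Real.exp T := by linarith [Real.add_one_le_exp T]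
  have T29 : T ≤ T ^ 29 := le_self_pow₀ T1 (by norm_num)
  refine ⟨⟨1 / T ^ 140, 1 / T ^ 138, 1 / T ^ 129, 1 / T ^ 124, 1 / T ^ 109, 1 / T ^ 35, t ^ 28,
    2 * t ^ 106 + 1, t ^ 139, D0 _, by linarith [D 138 140 (by norm_num), D0 140],
    by linarith [D 129 138 (by norm_num), D0 138], by linarith [D 124 129 (by norm_num), D0 129],
    by linarith [D 109 124 (by norm_num), D0 124], ?_, D0 _, ?_, ?_, by omega, ?_, ?_, ?_, ?_, ?_,
    ?_, ?_, ?_, ?_, ?_, ?_, ?_, ?_, ?_⟩, rfl, rfl, ?_⟩
  · have : 1 / T ^ 35 * (1 / T ^ 35) ^ 2 = 1 / T ^ 105 := by field_simp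
    rw [this]; linarith [D 105 109 (by norm_num), D0 109]
  · have := D 0 35 (by norm_num)
    rw [pow_zero] at this; linarith [D0 35]
  · exact le_trans (by norm_num) (ht.trans (Nat.le_self_pow (by norm_num) t))
  · push_cast [hTt]; field_simp
  · push_cast [hTt]; field_simp; linarith
  · push_cast [hTt]; field_simp; linarith
  · push_cast [hTt]; field_simp
    linarith [P 109 139 (by norm_num), P 106 139 (by norm_num), P 98 139 (by norm_num), P1 98]
  · push_cast [hTt]; field_simp
    linarith [P 48 139 (by norm_num), P1 48]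
  · push_cast [hTt]; field_simp
    linarith [P 0 15 (by norm_num)]
  · field_simp; linarith
  · push_cast [hTt]; field_simp
    linarith [P 0 13 (by norm_num)]
  · refine le_trans ?_ dl
    gcongr
    push_cast [hTt]; field_simp
    linarith [P 0 4 (by norm_num)]
  · push_cast [hTt]; field_simp
    linarith [P 0 2 (by norm_num)]
  · have e : ((t ^ 139 : ℕ) : ℝ) * (1 / T ^ 109) / 10 = T ^ 30 / 10 := by push_cast [hTt]; field_simp
    rw [e, le_div_iff₀ (by norm_num)]
    refine le_trans ?_ dl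
    calc _ ≤ Real.exp (-(T ^ 30 / 10)) * Real.exp T := by gcongr; linarith
      _ ≤ _ := by rw [← Real.exp_add]; gcongr; linarith [P 29 30 (by norm_num)]
  · push_cast [hTt]; field_simp
    linarith [P1 3]
  · push_cast [hTt]; field_simp
    linarith [P 106 109 (by norm_num), P1 106]
  · intro l τ hl hlen h0 h1
    have e1 : 8 * ((t ^ 28 : ℕ) : ℝ) * (1 / T ^ 124) / (1 / T ^ 129) = 8 * T ^ 33 := by
      push_cast [hTt]; field_simp
    rw [e1] at h0
    have hlen' : (l.length : ℝ) ≤ 6 * T ^ 28 := by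
      have : (l.length : ℝ) ≤ ((6 * t ^ 28 : ℕ) : ℝ) := by exact_mod_cast hlen
      push_cast [hTt] at this; exact this
    have e2 : (1 / T ^ 35) ^ 2 = 1 / T ^ 70 := by field_simp
    have d70 := D 0 70 (by norm_num)
    rw [pow_zero] at d70
    have q1 := P 33 34 (by norm_num)
    have q2 := P 34 35 (by norm_num)
    have q3 := P 28 33 (by norm_num)
    have q4 := P 29 33 (by norm_num)
    have q5 := P 35 36 (by norm_num)
    refine block (θ := 1 / T ^ 35) (ν := Real.exp (-T ^ 35)) (ω := Real.exp (-(9 * T ^ 33)))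
      (h := t ^ 106) (Z := t ^ 34) l (D0 _) rfl (by rw [e2]; linarith [D0 70]) hl ?_
      (Real.exp_pos _).le ?_ (D0 _) (by rw [e2]; linarith [D 70 140 (by norm_num), D0 140]) ?_ h1
      (Real.exp_pos _) ?_ ?_ ?_ ?_
    · push_cast [hTt]
      rw [mul_one_div, div_le_iff₀ (by positivity)]; linarith [P1 28]
    · calc _ ≤ Real.exp (-((1 / T ^ 35) ^ 2 / 8)) ^ t ^ 106 := by
            gcongr
            · rw [e2]; linarith [D0 70]
            · linarith [Real.add_one_le_exp (-((1 / T ^ 35) ^ 2 / 8))]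
        _ ≤ _ := by
            rw [← Real.exp_nat_mul, ← Real.exp_nat_mul]
            refine Real.exp_le_exp.2 ?_
            push_cast [hTt]; field_simp; linarith
    · push_cast [hTt]; field_simp
      linarith [P 0 36 (by norm_num)]
    · have a1 : (1 / T ^ 140) ^ (6 * t ^ 28 + 1) ≤ (1 / T ^ 140) ^ l.length :=
        pow_le_pow_of_le_one (D0 _).le (by rw [div_le_one (by positivity)]; exact P1 _) (by omega)
      refine le_trans ?_ (mul_le_mul h0 (dl.trans a1) (Real.exp_pos _).le
        ((Real.exp_pos _).le.trans h0))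
      rw [← Real.exp_add]; gcongr; linarith [P1 29]
    · have a1 : (10 : ℝ) ^ (t ^ 34 + l.length) ≤ Real.exp (18 * T ^ 34) := by
        calc _ ≤ Real.exp 9 ^ (t ^ 34 + l.length) := by
              gcongr; linarith [Real.add_one_le_exp 9]
          _ ≤ _ := by
              rw [← Real.exp_nat_mul]
              refine Real.exp_le_exp.2 ?_
              push_cast [hTt]; linarith [P1 28]
      have a2 := pw_exp T0.le 70
      rw [e2, le_div_iff₀ (by norm_num)]
      calc _ = 10 ^ (t ^ 34 + l.length) * (24000 * T ^ 70) * Real.exp (-T ^ 35) := by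
            field_simp; ring
        _ ≤ Real.exp (18 * T ^ 34) * (Real.exp T * Real.exp ((70 : ℕ) * T)) *
            Real.exp (-T ^ 35) := by gcongr; linarith
        _ ≤ _ := by
            simp only [← Real.exp_add]; gcongr; push_cast [hTt]; linarith
    · rw [le_div_iff₀ (by norm_num)]
      calc _ ≤ Real.exp (-1) ^ t ^ 34 * Real.exp T := by
            gcongr
            · rw [Real.exp_neg, one_div]; gcongr; linarith [Real.exp_one_lt_d9]
            · linarith
        _ ≤ _ := by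
            rw [← Real.exp_nat_mul, ← Real.exp_add]; gcongr; push_cast [hTt]; linarith
    · have a1 := Par.exp_le' (x := (1 / T ^ 35) ^ 2 / 64) (y := 1 + (1 / T ^ 35) ^ 2 / 32)
        (by positivity) (by rw [e2]; linarith [D0 70]) (by linarith) (t ^ 106 + 1)
      have a2 : T ^ 36 / 64 ≤ ((t ^ 106 + 1 : ℕ) : ℝ) * ((1 / T ^ 35) ^ 2 / 64) := by
        push_cast [hTt]; field_simp; linarith
      have a3 := pw_exp T0.le 106
      push_cast [hTt]
      calc _ ≤ 800 * T ^ 106 / 100 := by linarith [P1 106]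
        _ ≤ Real.exp T * Real.exp ((106 : ℕ) * T) / 100 := by gcongr; linarith
        _ ≤ Real.exp (-(9 * T ^ 33)) * Real.exp (T ^ 36 / 64) / 100 := by
            simp only [← Real.exp_add]
            refine div_le_div_of_nonneg_right (Real.exp_le_exp.2 ?_) (by norm_num)
            push_cast [hTt]; linarith
        _ ≤ Real.exp (-(9 * T ^ 33)) * (1 + (1 / T ^ 35) ^ 2 / 32) ^ (t ^ 106 + 1) / 100 := by
            gcongr; exact (Real.exp_le_exp.2 a2).trans a1
        _ = _ := by ring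
  · push_cast [hTt]; field_simp

end Pool.Agent.H.MP_df6699_an
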