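import Pool.Agent.H.MP_df6699_an.K

set_option autoImplicit false
open Finset

namespace Pool.Agent.H.MP_df6699_an

def Good (co : ℕ → ℂ) : Prop := ∀ j, 2 ≤ j → ∀ z : ℂ, 0 ≤ z.re → |z.im| ≤ 1 → T co j z ≠ 0

def S0 (c : (ℕ → ℂ) × ℕ) : Prop := c.1 c.2 ≠ 0 ∧ (∀ k, c.2 < k → c.1 k = 0) ∧ Good c.1

def Nx (R : ℕ) (c d : (ℕ → ℂ) × ℕ) : Prop :=
  c.2 < d.2 ∧ (∀ k ≤ c.2, d.1 k = c.1 k) ∧ (∀ k, c.2 < k → ‖d.1 k‖ * R ^ k ≤ 1) ∧
    ∃ r : ℝ, R < r ∧ Real.exp (r ^ (2 + 1 / 282 : ℝ)) ≤ ‖d.1 d.2‖ * r ^ d.2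

lemma top (co : ℕ → ℂ) (N : ℕ) (h : co N ≠ 0) : ∃ r : ℝ, 0 < r ∧ ∀ z : ℂ, r ≤ z.re →
    ‖T co (N + 1) z - co N * z ^ N‖ ≤ ‖co N * z ^ N‖ / 100 := by
  have p := norm_pos_iff.2 h
  set S := ∑ k ∈ range N, ‖co k‖
  refine ⟨max 1 (100 * S / ‖co N‖), lt_max_of_lt_left one_pos, fun z hz => ?_⟩
  have a1 : 1 ≤ ‖z‖ := (le_max_left _ _).trans (hz.trans (Complex.re_le_norm z))
  have a2 : 100 * S / ‖co N‖ ≤ ‖z‖ := (le_max_right _ _).trans (hz.trans (Complex.re_le_norm z))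
  rw [div_le_iff₀ p] at a2
  rw [T, sum_range_succ, add_sub_cancel_right, norm_mul, norm_pow]
  have a3 : ‖∑ k ∈ range N, co k * z ^ k‖ * ‖z‖ ≤ S * ‖z‖ ^ N := by
    rw [sum_mul]
    refine (mul_le_mul_of_nonneg_right (norm_sum_le _ _) (norm_nonneg _)).trans ?_
    rw [sum_mul]
    refine sum_le_sum fun k hk => ?_
    rw [norm_mul, norm_pow, mul_assoc, ← pow_succ]
    gcongr
    simp at hk; omega
  refine le_of_mul_le_mul_right (a3.trans ?_) (by linarith : 0 < ‖z‖)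
  have := mul_le_mul_of_nonneg_right a2 (by positivity : 0 ≤ ‖z‖ ^ N)
  linarith

lemma grow (R : ℕ) (c : (ℕ → ℂ) × ℕ) (h : S0 c) : ∃ d, S0 d ∧ Nx R c d := by
  obtain ⟨co, N⟩ := c
  obtain ⟨hN, hz, hg⟩ := h
  simp only at hN hz hg
  obtain ⟨r, r0, hr⟩ := top co N hN
  have p0 := norm_pos_iff.2 hN
  obtain ⟨μ, μ0, hμ⟩ : ∃ μ : ℝ, 0 < μ ∧ ∀ z : ℂ, 0 ≤ z.re → z.re ≤ r → |z.im| ≤ 1 →
      μ ≤ ‖T co (N + 1) z‖ := by
    have cp : IsCompact (Set.Icc (0 : ℝ) r ×ℂ Set.Icc (-1 : ℝ) 1) :=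
      isCompact_Icc.reProdIm isCompact_Icc
    obtain ⟨μ, h1, h2⟩ := cp.exists_forall_le' (f := fun z => ‖T co (N + 1) z‖) (a := 0)
      (Continuous.continuousOn (by unfold T; fun_prop)) fun z hz' => by
        rw [← T_stab (j := N + 2) (fun k hk => hz k (by omega)) (by omega)]
        exact norm_pos_iff.2 (hg _ (by omega) z hz'.1.1 (abs_le.2 hz'.2))
    exact ⟨μ, h1, fun z a1 a2 a3 => h2 z ⟨⟨a1, a2⟩, abs_le.1 a3⟩⟩
  obtain ⟨t, ht⟩ := exists_nat_ge (10 ^ 10 + 2 * (r + 1) + 6 * ‖co N‖ * (r + 1) ^ (N + 1) / μ +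
    3 * ‖co N‖ * R ^ (N + 1) + R + 2 / ‖co N‖)
  have q1 : 0 ≤ 6 * ‖co N‖ * (r + 1) ^ (N + 1) / μ := by positivity
  have q2 : 0 ≤ 3 * ‖co N‖ * R ^ (N + 1) := by positivity
  have q3 : 0 ≤ 2 / ‖co N‖ := by positivity
  have q4 : (0 : ℝ) ≤ R := by positivity
  have hT : (10 : ℝ) ^ 10 ≤ t := by linarith
  obtain ⟨p, e1, e2, e3⟩ := exists_par t (by exact_mod_cast hT)
  have i1 : ((t ^ 124 / 2 : ℕ) : ℝ) ≤ (t : ℝ) ^ 124 / 2 := by
    have := Nat.cast_div_le (α := ℝ) (m := t ^ 124) (n := 2)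
    push_cast at this; exact this
  have i2 : (t : ℝ) ^ 124 ≤ 2 * ((t ^ 124 / 2 : ℕ) : ℝ) + 1 := by
    exact_mod_cast (by omega : t ^ 124 ≤ 2 * (t ^ 124 / 2) + 1)
  generalize t ^ 124 / 2 = i at i1 i2
  generalize (t : ℝ) = x at *
  have x1 : 1 ≤ x := by linarith
  have x0 : 0 < x := by linarith
  set X := x ^ 140 with hX
  have xX : x ≤ X := le_self_pow₀ x1 (by norm_num)
  have X0 : 0 < X := by linarith
  obtain ⟨d, N', b1, b2, b3, b4, b5, b6, b7⟩ := Par.burst (p := p) (X := X) r0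
    (by rw [e1, hX]; field_simp; rfl) hN hz (fun j hj z h1 h2 => hg j hj z (by linarith) h2) hr i
    (by
      calc (1 + p.L) ^ i ≤ Real.exp p.L ^ i := by
            gcongr
            · rw [e2]; positivity
            · linarith [Real.add_one_le_exp p.L]
        _ ≤ Real.exp (1 / 2) := by
            rw [← Real.exp_nat_mul]
            refine Real.exp_le_exp.2 ?_
            rw [e2, mul_one_div, div_le_iff₀ (by positivity)]; linarith
        _ ≤ 2 := by
            have := Real.abs_exp_sub_one_le (x := 1 / 2) (by rw [abs_of_pos] <;> norm_num)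
            rw [abs_of_pos (by norm_num : (0 : ℝ) < 1 / 2)] at this
            linarith [le_abs_self (Real.exp (1 / 2) - 1)])
  have c1 : ∀ (y : ℝ) (k : ℕ), 0 ≤ y →
      ‖d (N + 1 + k)‖ * y ^ (N + 1 + k) ≤ 3 * ‖co N‖ * y ^ (N + 1) / X * (y / X) ^ k :=
    fun y k hy => by
      calc _ = ‖d (N + 1 + k)‖ * X ^ (N + 1 + k) * (y / X) ^ (N + 1 + k) := by
            rw [div_pow]; field_simp
        _ ≤ 3 * (‖co N‖ * X ^ N) * (y / X) ^ (N + 1 + k) :=
            mul_le_mul_of_nonneg_right (b6 _ (by omega)) (by positivity)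
        _ = _ := by rw [div_pow, div_pow]; field_simp; ring
  have p1 : 0 < ‖co N‖ * (6 * X) ^ N / 2 := by positivity
  refine ⟨(d, N'), ⟨fun h => ?_, b4, fun j hj z h1 h2 => ?_⟩, b1, b3, fun k hk => ?_, 12 * X,
    by linarith, ?_⟩
  · simp only at h
    rw [h, norm_zero, zero_mul] at b7; linarith
  · rcases le_total r z.re with h3 | h3
    · exact b5 j hj z h3 h2
    have eq : ∀ j ≤ N + 1, T d j z = T co j z := fun j hj =>
      sum_congr rfl fun k hk => by rw [b3 k (by simp at hk; omega)]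
    rcases le_total j (N + 1) with h4 | h4
    · simp only [eq j h4]; exact hg j hj z h1 h2
    obtain ⟨n, rfl⟩ := Nat.exists_eq_add_of_le h4
    have z1 : ‖z‖ ≤ r + 1 := by
      have := Complex.norm_le_abs_re_add_abs_im z
      rw [abs_of_nonneg h1] at this; linarith
    have a1 : ‖∑ k ∈ range n, d (N + 1 + k) * z ^ (N + 1 + k)‖ ≤
        3 * ‖co N‖ * (r + 1) ^ (N + 1) / X * ∑ k ∈ range n, (1 / 2 : ℝ) ^ k := by
      rw [mul_sum]
      refine norm_sum_le_of_le _ fun k _ => ?_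
      rw [norm_mul, norm_pow]
      refine le_trans (by gcongr) ((c1 (r + 1) k (by linarith)).trans ?_)
      refine mul_le_mul_of_nonneg_left (pow_le_pow_left₀ (by positivity) ?_ _) (by positivity)
      rw [div_le_iff₀ X0]; linarith
    have a2 : 3 * ‖co N‖ * (r + 1) ^ (N + 1) / X * ∑ k ∈ range n, (1 / 2 : ℝ) ^ k ≤
        3 * ‖co N‖ * (r + 1) ^ (N + 1) / X * 2 := by gcongr; exact sum_geometric_two_le n
    have a3 : 3 * ‖co N‖ * (r + 1) ^ (N + 1) / X * 2 < μ := by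
      have : 6 * ‖co N‖ * (r + 1) ^ (N + 1) / μ < X := by linarith
      rw [div_lt_iff₀ μ0] at this
      rw [div_mul_eq_mul_div, div_lt_iff₀ X0]; linarith
    have a4 := hμ z h1 h3 h2
    intro h
    simp only [T] at h eq a4
    rw [sum_range_add, eq _ le_rfl] at h
    rw [eq_neg_of_add_eq_zero_left h, norm_neg] at a4
    linarith
  · obtain ⟨n, rfl⟩ : ∃ n, k = N + 1 + n := ⟨k - (N + 1), by simp only at hk; omega⟩
    refine (c1 R n q4).trans (mul_le_one₀ ?_ (by positivity) (pow_le_one₀ (by positivity) ?_)) <;>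
      rw [div_le_one X0] <;> linarith
  · simp only
    have a1 : (12 * X) ^ (1 / 282 : ℝ) ≤ x / 100000 := by
      have : 12 * X ≤ (x / 100000) ^ 282 := by
        calc 12 * X ≤ x ^ 141 := by rw [hX, pow_succ' x 140]; gcongr; linarith
          _ ≤ ((x / 100000) ^ 2) ^ 141 := by gcongr; nlinarith
          _ = _ := by rw [← pow_mul]
      refine (Real.rpow_le_rpow (by positivity) this (by norm_num)).trans (le_of_eq ?_)
      rw [one_div]
      exact_mod_cast Real.pow_rpow_inv_natCast (x := x / 100000) (n := 282) (by positivity)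
        (by norm_num)
    have a2 : (12 * X) ^ (2 + 1 / 282 : ℝ) ≤ x ^ 281 / 32 := by
      rw [Real.rpow_add (by positivity), Real.rpow_two]
      calc _ ≤ (12 * X) ^ 2 * (x / 100000) := by gcongr
        _ = 144 / 100000 * x ^ 281 := by rw [hX]; ring
        _ ≤ _ := by have : 0 ≤ x ^ 281 := by positivity
                    linarith
    have a3 : x ^ 281 / 8 ≤ N' := by
      refine le_trans ?_ b2
      rw [e3]
      have : x ≤ x ^ 124 := le_self_pow₀ x1 (by norm_num)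
      calc x ^ 281 / 8 = x ^ 124 / 4 * (x ^ 157 / 2) := by ring
        _ ≤ _ := by gcongr; linarith
    have a4 : Real.exp (N' * (1 / 2)) ≤ 2 ^ N' :=
      Par.exp_le' (by norm_num) (by norm_num) (by norm_num) _
    have a5 : 2 / ‖co N‖ ≤ Real.exp (x ^ 281 / 32) := by
      have : x ^ 2 ≤ x ^ 281 := pow_le_pow_right₀ x1 (by norm_num)
      have : 32 * x ≤ x ^ 2 := by nlinarith
      linarith [Real.add_one_le_exp (x ^ 281 / 32)]
    have a6 : ‖co N‖ / 2 ≤ ‖d N'‖ * (6 * X) ^ N' := by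
      refine le_trans ?_ b7
      gcongr
      exact le_mul_of_one_le_right p0.le (one_le_pow₀ (by linarith))
    calc _ ≤ Real.exp (x ^ 281 / 32) * (2 / ‖co N‖ * (‖co N‖ / 2)) := by
          rw [show 2 / ‖co N‖ * (‖co N‖ / 2) = 1 by field_simp, mul_one]; gcongr
      _ ≤ Real.exp (x ^ 281 / 32) * (Real.exp (x ^ 281 / 32) * (‖d N'‖ * (6 * X) ^ N')) := by gcongr
      _ ≤ 2 ^ N' * (‖d N'‖ * (6 * X) ^ N') := by
          rw [← mul_assoc, ← Real.exp_add]
          gcongr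
          exact le_trans (Real.exp_le_exp.2 (by linarith)) a4
      _ = _ := by rw [show 12 * X = 2 * (6 * X) by ring, mul_pow 2]; ring

theorem main : ∃ a : ℕ → ℂ, Good a ∧ (∀ R : ℕ, ∀ᶠ k in Filter.atTop, ‖a k‖ * R ^ k ≤ 1) ∧
    ∀ R : ℕ, ∃ (r : ℝ) (n : ℕ), R < r ∧ Real.exp (r ^ (2 + 1 / 282 : ℝ)) ≤ ‖a n‖ * r ^ n := by
  choose! nx h1 h2 using grow
  let s : ℕ → (ℕ → ℂ) × ℕ := fun j => Nat.rec (fun k => if k = 0 then 1 else 0, 0) nx j
  have s0 : ∀ j, S0 (s j) := fun j => by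
    induction j with
    | zero =>
      refine ⟨by simp [s], fun k hk => if_neg (by simp [s] at hk; omega), fun j hj z _ _ => ?_⟩
      rw [T_stab (co := (s 0).1) (n := 1) (j := j)
        (fun k hk => if_neg (show ¬ k = 0 by omega)) (by omega)]
      simp [T, s]
    | succ j ih => exact h1 j _ ih
  have s1 : ∀ j, Nx j (s j) (s (j + 1)) := fun j => h2 j _ (s0 j)
  have mono : StrictMono fun j => (s j).2 := strictMono_nat_of_lt_succ fun j => (s1 j).1
  have ag : ∀ i j, i ≤ j → ∀ k ≤ (s i).2, (s j).1 k = (s i).1 k := fun i j hij k hk => by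
    induction j, hij using Nat.le_induction with
    | base => rfl
    | succ j hj ih => rw [(s1 j).2.1 k (hk.trans (mono.monotone hj)), ih]
  have ea : ∀ j, ∀ k ≤ (s j).2, (s k).1 k = (s j).1 k := fun j k hk => by
    rcases le_total j k with h | h
    · exact ag j k h k hk
    · exact (ag k j h k (mono.id_le k)).symm
  refine ⟨fun k => (s k).1 k, fun j hj z a1 a2 => ?_, fun R => ?_, fun R => ?_⟩
  · have : T (fun k => (s k).1 k) j z = T (s j).1 j z := sum_congr rfl fun k hk => by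
      simp only [ea j k (le_trans (show k ≤ j by simp at hk; omega) (mono.id_le j))]
    rw [this]; exact (s0 j).2.2 j hj z a1 a2
  · have : ∀ j, R ≤ j → ∀ k, (s R).2 < k → k ≤ (s j).2 → ‖(s k).1 k‖ * R ^ k ≤ 1 := by
      intro j hj
      induction j, hj using Nat.le_induction with
      | base => intro k a1 a2; omega
      | succ j hj ih =>
        intro k a1 a2
        rcases le_or_gt k (s j).2 with h | h
        · exact ih k a1 h
        · rw [ea (j + 1) k a2]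
          exact le_trans (by gcongr) ((s1 j).2.2.1 k h)
    filter_upwards [Filter.eventually_gt_atTop (s R).2] with k hk
    exact this k ((mono.id_le R).trans hk.le) k hk (mono.id_le k)
  · obtain ⟨r, a1, a2⟩ := (s1 R).2.2.2
    exact ⟨r, (s (R + 1)).2, a1, by simp only [ea (R + 1) _ le_rfl]; exact a2⟩

theorem final : ∃ (a : ℕ → ℂ) (f : ℂ → ℂ), Good a ∧ (∀ z, HasSum (fun k => a k * z ^ k) (f z)) ∧
    ∀ R : ℝ, ∃ z : ℂ, R ≤ ‖z‖ ∧ Real.exp (‖z‖ ^ (2 + 1 / 282 : ℝ)) ≤ ‖f z‖ := by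
  obtain ⟨a, h1, h2, h3⟩ := main
  set p := FormalMultilinearSeries.ofScalars ℂ a with hp
  have rad : p.radius = ⊤ := by
    refine FormalMultilinearSeries.radius_eq_top_of_summable_norm _ fun r => ?_
    obtain ⟨R, hR⟩ := exists_nat_gt (2 * (r : ℝ))
    have r0 := r.2
    refine Summable.of_norm_bounded_eventually_nat summable_geometric_two ?_
    filter_upwards [h2 R] with k hk
    rw [hp, FormalMultilinearSeries.ofScalars_norm, Real.norm_of_nonneg (by positivity)]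
    calc ‖a k‖ * (r : ℝ) ^ k ≤ ‖a k‖ * ((R : ℝ) * (1 / 2)) ^ k := by gcongr; linarith
      _ ≤ _ := by
        rw [mul_pow, ← mul_assoc]
        exact mul_le_of_le_one_left (by positivity) hk
  have pw : HasFPowerSeriesOnBall p.sum p 0 ⊤ := by
    have := p.hasFPowerSeriesOnBall (by rw [rad]; simp)
    rwa [rad] at this
  have df : Differentiable ℂ p.sum := fun z => (pw.analyticAt_of_mem (by simp)).differentiableAt
  refine ⟨a, p.sum, h1, fun z => ?_, fun R => ?_⟩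
  · have := pw.hasSum (y := z) (by simp)
    simpa [hp, FormalMultilinearSeries.ofScalars_apply_eq, mul_comm] using this
  obtain ⟨N, hN⟩ := exists_nat_ge R
  obtain ⟨r, n, a1, a2⟩ := h3 N
  have r0 : 0 < r := lt_of_le_of_lt (Nat.cast_nonneg N) a1
  obtain ⟨z, hz, hm⟩ := (isCompact_sphere (0 : ℂ) r).exists_isMaxOn
    (NormedSpace.sphere_nonempty.2 r0.le) df.continuous.norm.continuousOn
  have nz : ‖z‖ = r := by simpa using hz
  refine ⟨z, by linarith, ?_⟩
  have b1 := Complex.norm_iteratedDeriv_le_of_forall_mem_sphere_norm_le n r0 df.diffContOnCl hm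
  have b2 := pw.factorial_smul (1 : ℂ) n
  rw [iteratedDeriv, ← b2, hp, FormalMultilinearSeries.ofScalars_apply_eq] at b1
  simp only [one_pow, smul_eq_mul, mul_one, nsmul_eq_mul, norm_mul, Complex.norm_natCast] at b1
  rw [mul_div_assoc, mul_le_mul_iff_right₀ (by exact_mod_cast n.factorial_pos),
    le_div_iff₀ (by positivity)] at b1
  rw [nz]
  exact a2.trans b1

end Pool.Agent.H.MP_df6699_an
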